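import Mathlib

set_option autoImplicit false

/-!
# Primes in aligned short intervals
-/

namespace Pool.Agent.H176M

open Finset

/-- the function `Λ - 1` -/
noncomputable def dv (n : ℕ) : ℝ := ArithmeticFunction.vonMangoldt n - 1

/-- primes in almost all intervals of length `X ^ (1 / 3 + ε)` -/
def SilS : Prop := ∀ e A : ℕ, 4 ≤ e → ∃ X₀ : ℕ, ∀ X : ℕ, X₀ ≤ X → ∀ W : ℕ,
  (X : ℝ) ^ (1 / 3 + 2 / e : ℝ) ≤ W → W ≤ X →
  ∑ u ∈ range X, (∑ n ∈ Ioc u (u + W), dv n) ^ 2 ≤ X * (W : ℝ) ^ 2 / (Real.log X) ^ A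

lemma sum_blocks (g : ℕ → ℝ) (u W J : ℕ) :
    ∑ j ∈ range J, ∑ h ∈ range W, g (u + j * W + h) = ∑ x ∈ Ico u (u + J * W), g x := by
  induction J with
  | zero => simp
  | succ J ih =>
    rw [sum_range_succ, ih, ← Finset.sum_Ico_consecutive g (show u ≤ u + J * W by omega)
      (show u + J * W ≤ u + (J + 1) * W by nlinarith)]
    congr 1
    rw [Finset.sum_Ico_eq_sum_range]
    have : u + (J + 1) * W - (u + J * W) = W := by
      have : u + (J + 1) * W = u + J * W + W := by ring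
      omega
    rw [this]

/-- chains of windows -/
lemma chain (f : ℕ → ℝ) (v W J : ℕ) :
    ∑ j ∈ range J, ∑ n ∈ Ioc (v + j * W) (v + j * W + W), f n = ∑ n ∈ Ioc v (v + J * W), f n := by
  induction J with
  | zero => simp
  | succ J ih =>
    have e : v + (J + 1) * W = v + J * W + W := by ring
    rw [sum_range_succ, ih, e, ← Finset.sum_Ioc_consecutive f (show v ≤ v + J * W by omega)
      (show v + J * W ≤ v + J * W + W by omega)]

lemma one_shift {f : ℕ → ℝ} {F : ℝ} {K W u h : ℕ} (hW : 0 < W) (hWK : W ≤ K) (hh : h < W)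
    (hF : ∀ n ∈ Ioc u (u + K), |f n| ≤ F) :
    |∑ n ∈ Ioc u (u + K), f n| ≤
      ∑ j ∈ range (K / W - 1), |∑ n ∈ Ioc (u + h + j * W) (u + h + j * W + W), f n| + 2 * W * F := by
  set J := K / W - 1 with hJ
  have h1 : 1 ≤ K / W := Nat.div_pos hWK hW
  have h2 : (K / W) * W ≤ K := Nat.div_mul_le_self K W
  have h3 : K < (K / W) * W + W := by
    have := Nat.lt_div_mul_add hW (a := K)
    exact this
  have h4 : (J + 1) * W = (K / W) * W := by rw [hJ, Nat.sub_add_cancel h1]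
  have h5 : (J + 1) * W = J * W + W := by ring
  have e1 : ∑ n ∈ Ioc u (u + K), f n = ∑ n ∈ Ioc u (u + h), f n + ∑ n ∈ Ioc (u + h) (u + h + J * W), f n +
      ∑ n ∈ Ioc (u + h + J * W) (u + K), f n := by
    rw [Finset.sum_Ioc_consecutive f (by omega) (by omega), Finset.sum_Ioc_consecutive f (by omega) (by omega)]
  rw [e1, ← chain]
  have a1 : |∑ n ∈ Ioc u (u + h), f n| ≤ h * F := by
    refine (abs_sum_le_sum_abs _ _).trans ?_
    calc ∑ n ∈ Ioc u (u + h), |f n| ≤ ∑ n ∈ Ioc u (u + h), F :=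
          sum_le_sum fun n hn => hF n (by rw [mem_Ioc] at hn ⊢; omega)
      _ = h * F := by rw [sum_const, nsmul_eq_mul, Nat.card_Ioc]; congr 2; omega
  have a2 : |∑ n ∈ Ioc (u + h + J * W) (u + K), f n| ≤ ((K - h - J * W : ℕ) : ℝ) * F := by
    refine (abs_sum_le_sum_abs _ _).trans ?_
    calc ∑ n ∈ Ioc (u + h + J * W) (u + K), |f n| ≤ ∑ n ∈ Ioc (u + h + J * W) (u + K), F :=
          sum_le_sum fun n hn => hF n (by rw [mem_Ioc] at hn ⊢; omega)
      _ = _ := by rw [sum_const, nsmul_eq_mul, Nat.card_Ioc]; congr 2; omega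
  have a3 : ((h : ℕ) : ℝ) + ((K - h - J * W : ℕ) : ℝ) ≤ 2 * W := by
    have : h + (K - h - J * W) ≤ 2 * W := by omega
    exact_mod_cast this
  have hF0 : 0 ≤ F := by
    have := hF (u + 1) (by rw [mem_Ioc]; omega)
    exact (abs_nonneg _).trans this
  have a4 := abs_sum_le_sum_abs (fun j => ∑ n ∈ Ioc (u + h + j * W) (u + h + j * W + W), f n) (range J)
  have a5 := abs_add_three (∑ n ∈ Ioc u (u + h), f n)
    (∑ j ∈ range J, ∑ n ∈ Ioc (u + h + j * W) (u + h + j * W + W), f n)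
    (∑ n ∈ Ioc (u + h + J * W) (u + K), f n)
  have a6 := mul_le_mul_of_nonneg_right a3 hF0
  linarith

/-- disjoint intervals -/
lemma sum_disj {g : ℕ → ℝ} (hg : ∀ n, 0 ≤ g n) {X K : ℕ} (U : Finset ℕ) (hU : ∀ u ∈ U, u < X)
    (hsep : ∀ u ∈ U, ∀ u' ∈ U, u < u' → u + K ≤ u') {L : ℕ} (hL : L ≤ K) :
    ∑ u ∈ U, ∑ x ∈ Ico u (u + L), g x ≤ ∑ x ∈ range (X + K), g x := by
  rw [← sum_biUnion]
  · apply sum_le_sum_of_subset_of_nonneg
    · intro x hx
      rw [mem_biUnion] at hx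
      obtain ⟨u, hu, hx⟩ := hx
      have := hU u hu
      rw [mem_Ico] at hx
      rw [mem_range]
      omega
    · intro x _ _
      exact hg x
  · intro u hu v hv huv
    rw [Function.onFun, Finset.disjoint_left]
    intro x hx hx'
    rw [mem_Ico] at hx hx'
    rcases lt_or_gt_of_ne huv with h | h
    · have := hsep u hu v hv h
      omega
    · have := hsep v hv u hu h
      omega

lemma card_sep {X K : ℕ} (U : Finset ℕ) (hU : ∀ u ∈ U, u < X)
    (hsep : ∀ u ∈ U, ∀ u' ∈ U, u < u' → u + K ≤ u') : (U.card : ℝ) * K ≤ X + K := by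
  have h := sum_disj (g := fun _ => (1 : ℝ)) (fun _ => zero_le_one) U hU hsep (le_refl K)
  simp only [sum_const, nsmul_eq_mul, mul_one, Nat.card_Ico, card_range] at h
  push_cast at h
  simpa using h

lemma aligned {f : ℕ → ℝ} {F : ℝ} {X K W : ℕ} (hW : 0 < W) (hWK : W ≤ K) (U : Finset ℕ)
    (hU : ∀ u ∈ U, u < X) (hsep : ∀ u ∈ U, ∀ u' ∈ U, u < u' → u + K ≤ u')
    (hF : ∀ n ≤ X + K, |f n| ≤ F) :
    W * ∑ u ∈ U, |∑ n ∈ Ioc u (u + K), f n| ≤
      ∑ x ∈ range (X + K), |∑ n ∈ Ioc x (x + W), f n| + W * (U.card * (2 * W * F)) := by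
  set S : ℕ → ℝ := fun x => |∑ n ∈ Ioc x (x + W), f n| with hS
  set J := K / W - 1 with hJ
  have hJK : J * W ≤ K := by
    have h2 : (K / W) * W ≤ K := Nat.div_mul_le_self K W
    have : J * W ≤ (K / W) * W := Nat.mul_le_mul_right _ (Nat.sub_le _ _)
    omega
  have h1 : ∀ u ∈ U, W * |∑ n ∈ Ioc u (u + K), f n| ≤ ∑ x ∈ Ico u (u + J * W), S x + W * (2 * W * F) := by
    intro u hu
    have h2 : ∀ h ∈ range W, |∑ n ∈ Ioc u (u + K), f n| ≤ ∑ j ∈ range J, S (u + j * W + h) + 2 * W * F := by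
      intro h hh
      have := one_shift (f := f) (u := u) hW hWK (mem_range.1 hh) (fun n hn => hF n (by
        rw [mem_Ioc] at hn
        have := hU u hu
        omega))
      refine this.trans (le_of_eq ?_)
      congr 1
      refine sum_congr rfl fun j _ => ?_
      simp only [hS]
      rw [show u + h + j * W = u + j * W + h by ring]
    have h3 := sum_le_sum h2
    rw [sum_const, card_range, nsmul_eq_mul, sum_add_distrib, sum_const, card_range, nsmul_eq_mul,
      sum_comm, sum_blocks] at h3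
    exact h3
  rw [mul_sum]
  refine (sum_le_sum h1).trans ?_
  rw [sum_add_distrib, sum_const, nsmul_eq_mul]
  have h4 := sum_disj (g := S) (fun n => abs_nonneg _) U hU hsep hJK
  linarith

lemma pow_log (δ : ℝ) (hδ : 0 < δ) (n : ℕ) (C : ℝ) (hC : 0 < C) :
    ∀ᶠ X : ℕ in Filter.atTop, C * (Real.log X) ^ n ≤ (X : ℝ) ^ δ := by
  have h := (isLittleO_log_rpow_rpow_atTop (n : ℝ) hδ).bound (show (0 : ℝ) < 1 / C by positivity)
  have h2 := tendsto_natCast_atTop_atTop (R := ℝ) |>.eventually h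
  filter_upwards [h2, Filter.eventually_ge_atTop 1] with X hX hX1
  have hX1' : (1 : ℝ) ≤ X := by exact_mod_cast hX1
  have hl : 0 ≤ Real.log X := Real.log_nonneg hX1'
  rw [Real.norm_of_nonneg (Real.rpow_nonneg hl _), Real.norm_of_nonneg (Real.rpow_nonneg (by linarith) _),
    Real.rpow_natCast, one_div, inv_mul_eq_div, le_div_iff₀ hC] at hX
  linarith

lemma log_ge (C : ℝ) : ∀ᶠ X : ℕ in Filter.atTop, C ≤ Real.log X :=
  (Real.tendsto_log_atTop.comp tendsto_natCast_atTop_atTop).eventually_ge_atTop C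

lemma abs_dv_le {n X : ℕ} (hn : n ≤ 2 * X) (hX : 1 ≤ X) (hL : 1 ≤ Real.log X) :
    |dv n| ≤ 3 * Real.log X := by
  unfold dv
  have h0 : (0 : ℝ) ≤ ArithmeticFunction.vonMangoldt n := ArithmeticFunction.vonMangoldt_nonneg
  have h1 : ArithmeticFunction.vonMangoldt n ≤ Real.log X + Real.log 2 := by
    refine ArithmeticFunction.vonMangoldt_le_log.trans ?_
    have hX0 : (0 : ℝ) < X := by exact_mod_cast hX
    rcases Nat.eq_zero_or_pos n with rfl | hn0
    · simp only [Nat.cast_zero, Real.log_zero]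
      have := Real.log_pos one_lt_two
      linarith
    · rw [← Real.log_mul hX0.ne' (by norm_num)]
      refine Real.log_le_log (by exact_mod_cast hn0) ?_
      have : ((n : ℕ) : ℝ) ≤ ((2 * X : ℕ) : ℝ) := by exact_mod_cast hn
      push_cast at this
      linarith
  have h2 := Real.log_two_lt_d9
  rw [abs_le]
  constructor <;> linarith

theorem aligned_small (hS : SilS) (e A : ℕ) (he : 4 ≤ e) : ∃ X₀ : ℕ, ∀ X : ℕ, X₀ ≤ X → ∀ K : ℕ,
    (X : ℝ) ^ (1 / 3 + 4 / e : ℝ) ≤ K → K ≤ X → ∀ U : Finset ℕ, (∀ u ∈ U, u < X) →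
    (∀ u ∈ U, ∀ u' ∈ U, u < u' → u + K ≤ u') →
    ∑ u ∈ U, |∑ n ∈ Ioc u (u + K), dv n| ≤ X / (Real.log X) ^ A := by
  obtain ⟨X₁, h1⟩ := hS e (2 * A + 4) he
  have her : (4 : ℝ) ≤ e := by exact_mod_cast he
  have he0 : (0 : ℝ) < e := by linarith
  obtain ⟨X₂, h2⟩ := Filter.eventually_atTop.1 ((pow_log (2 / e) (by positivity) (A + 3) 3 (by norm_num)).and
    (log_ge 4))
  refine ⟨X₁ + X₂ + 1, fun X hX K hK1 hK2 U hU hsep => ?_⟩
  obtain ⟨h3, h4⟩ := h2 X (by omega)
  set L := Real.log X with hL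
  have hL1 : 1 ≤ L := by linarith
  have hL0 : 0 < L := by linarith
  have hX0 : (0 : ℝ) < X := by exact_mod_cast (by omega : 0 < X)
  have hX1 : (1 : ℝ) ≤ X := by exact_mod_cast (by omega : 1 ≤ X)
  have hK0 : (0 : ℝ) < K := lt_of_lt_of_le (Real.rpow_pos_of_pos hX0 _) hK1
  have hLp : 0 < L ^ (A + 3) := by positivity
  have hLp1 : 1 ≤ L ^ (A + 3) := one_le_pow₀ hL1
  set W := ⌊(K : ℝ) / L ^ (A + 3)⌋₊ with hW
  have hWle : (W : ℝ) ≤ K / L ^ (A + 3) := Nat.floor_le (by positivity)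
  have hWgt : K / L ^ (A + 3) - 1 < (W : ℝ) := by
    have := Nat.lt_floor_add_one ((K : ℝ) / L ^ (A + 3))
    linarith
  -- lower bound for W
  have hb : (1 : ℝ) ≤ (X : ℝ) ^ (1 / 3 + 2 / e : ℝ) := Real.one_le_rpow hX1 (by positivity)
  have hlow : ((2 * X : ℕ) : ℝ) ^ (1 / 3 + 2 / e : ℝ) ≤ W := by
    have e1 : ((2 * X : ℕ) : ℝ) ^ (1 / 3 + 2 / e : ℝ) ≤ 2 * (X : ℝ) ^ (1 / 3 + 2 / e : ℝ) := by
      push_cast
      rw [Real.mul_rpow (by norm_num) hX0.le]
      refine mul_le_mul_of_nonneg_right ?_ (by positivity)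
      have : 2 / (e : ℝ) ≤ 2 / 4 := by
        apply div_le_div_of_nonneg_left <;> linarith
      calc (2 : ℝ) ^ (1 / 3 + 2 / e : ℝ) ≤ 2 ^ (1 : ℝ) :=
            Real.rpow_le_rpow_of_exponent_le (by norm_num) (by linarith)
        _ = 2 := Real.rpow_one 2
    have e2 : (X : ℝ) ^ (1 / 3 + 4 / e : ℝ) = (X : ℝ) ^ (1 / 3 + 2 / e : ℝ) * (X : ℝ) ^ (2 / e : ℝ) := by
      rw [← Real.rpow_add hX0]
      congr 1
      ring
    have e3 : 3 * (X : ℝ) ^ (1 / 3 + 2 / e : ℝ) ≤ K / L ^ (A + 3) := by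
      rw [le_div_iff₀ hLp]
      refine le_trans ?_ hK1
      rw [e2]
      nlinarith [mul_le_mul_of_nonneg_left h3 (by linarith : (0 : ℝ) ≤ (X : ℝ) ^ (1 / 3 + 2 / e : ℝ))]
    linarith
  have hWpos : 0 < W := by
    have : (0 : ℝ) < W := lt_of_lt_of_le (Real.rpow_pos_of_pos (by push_cast; linarith) _) hlow
    exact_mod_cast this
  have hWr : (0 : ℝ) < W := by exact_mod_cast hWpos
  have hWK : W ≤ K := by
    have : (W : ℝ) ≤ K := hWle.trans (div_le_self hK0.le hLp1)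
    exact_mod_cast this
  have hal := aligned (f := dv) (F := 3 * L) (X := X) (K := K) hWpos hWK U hU hsep
    (fun n hn => abs_dv_le (by omega) (by omega) hL1)
  have hcard := card_sep U hU hsep
  have hsil := h1 (2 * X) (by omega) W hlow (by omega)
  set S : ℕ → ℝ := fun x => ∑ n ∈ Ioc x (x + W), dv n with hSd
  have hsum : ∑ x ∈ range (X + K), |S x| ≤ 2 * X * W / L ^ (A + 2) := by
    have g1 : ∑ x ∈ range (X + K), |S x| ≤ ∑ x ∈ range (2 * X), |S x| :=
      sum_le_sum_of_subset_of_nonneg (range_mono (by omega)) (fun x _ _ => abs_nonneg _)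
    refine g1.trans ?_
    have g2 := sq_sum_le_card_mul_sum_sq (s := range (2 * X)) (f := fun x => |S x|)
    simp only [sq_abs, card_range] at g2
    have g3 : (∑ x ∈ range (2 * X), |S x|) ^ 2 ≤ (2 * X * W / L ^ (A + 2)) ^ 2 := by
      refine g2.trans ?_
      have g4 : ((2 * X : ℕ) : ℝ) * ∑ x ∈ range (2 * X), S x ^ 2 ≤
          ((2 * X : ℕ) : ℝ) * (((2 * X : ℕ) : ℝ) * (W : ℝ) ^ 2 / (Real.log ((2 * X : ℕ) : ℝ)) ^ (2 * A + 4)) :=
        mul_le_mul_of_nonneg_left hsil (by positivity)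
      refine g4.trans ?_
      have g5 : L ≤ Real.log ((2 * X : ℕ) : ℝ) := by
        rw [hL]
        apply Real.log_le_log hX0
        push_cast
        linarith
      have g6 : L ^ (2 * A + 4) ≤ (Real.log ((2 * X : ℕ) : ℝ)) ^ (2 * A + 4) := pow_le_pow_left₀ hL0.le g5 _
      have g7 : ((2 * X : ℕ) : ℝ) * (W : ℝ) ^ 2 / (Real.log ((2 * X : ℕ) : ℝ)) ^ (2 * A + 4) ≤
          ((2 * X : ℕ) : ℝ) * (W : ℝ) ^ 2 / L ^ (2 * A + 4) :=
        div_le_div_of_nonneg_left (by positivity) (by positivity) g6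
      calc _ ≤ ((2 * X : ℕ) : ℝ) * (((2 * X : ℕ) : ℝ) * (W : ℝ) ^ 2 / L ^ (2 * A + 4)) :=
            mul_le_mul_of_nonneg_left g7 (by positivity)
        _ = _ := by
            push_cast
            have e4 : L ^ (2 * A + 4) = (L ^ (A + 2)) ^ 2 := by rw [← pow_mul]; congr 1; ring
            rw [e4]
            field_simp
    have g8 : 0 ≤ ∑ x ∈ range (2 * X), |S x| := sum_nonneg fun x _ => abs_nonneg _
    exact (sq_le_sq₀ g8 (by positivity)).1 g3
  have hcW : (U.card : ℝ) * W ≤ 2 * X / L ^ (A + 3) := by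
    have hKX : (K : ℝ) ≤ X := by exact_mod_cast hK2
    calc (U.card : ℝ) * W ≤ U.card * (K / L ^ (A + 3)) := mul_le_mul_of_nonneg_left hWle (by positivity)
      _ = (U.card * K) / L ^ (A + 3) := by ring
      _ ≤ 2 * X / L ^ (A + 3) := div_le_div_of_nonneg_right (by linarith) hLp.le
  have hfin : (W : ℝ) * ∑ u ∈ U, |∑ n ∈ Ioc u (u + K), dv n| ≤ W * (14 * X / L ^ (A + 2)) := by
    refine hal.trans ?_
    have g1 : (W : ℝ) * (U.card * (2 * W * (3 * L))) = W * (6 * L * (U.card * W)) := by ring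
    have g2 : 6 * L * (U.card * W) ≤ 6 * L * (2 * X / L ^ (A + 3)) := mul_le_mul_of_nonneg_left hcW (by positivity)
    have g3 : 6 * L * (2 * X / L ^ (A + 3)) = 12 * X / L ^ (A + 2) := by
      rw [show A + 3 = (A + 2) + 1 by ring, pow_succ]
      field_simp
      ring
    have g4 : (W : ℝ) * (6 * L * (U.card * W)) ≤ W * (12 * X / L ^ (A + 2)) :=
      mul_le_mul_of_nonneg_left (g2.trans (le_of_eq g3)) hWr.le
    have g5 : 2 * X * W / L ^ (A + 2) = W * (2 * X / L ^ (A + 2)) := by ring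
    calc _ ≤ W * (2 * X / L ^ (A + 2)) + W * (12 * X / L ^ (A + 2)) := by
          rw [← g5]
          linarith
      _ = _ := by ring
  have hfin2 := le_of_mul_le_mul_left hfin hWr
  refine hfin2.trans ?_
  rw [div_le_div_iff₀ (by positivity) (by positivity), pow_add]
  have : 14 ≤ L ^ 2 := by nlinarith
  have hLA : 0 < L ^ A := by positivity
  nlinarith [mul_le_mul_of_nonneg_left this (mul_nonneg hX0.le hLA.le)]

/-- the number of primes in `(u, v]` -/
def pc (u v : ℕ) : ℕ := ((Ioc u v).filter Nat.Prime).card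

lemma pc_dev {u K : ℕ} (hu : 1 ≤ u) : |(pc u (u + K) : ℝ) * Real.log u - K| ≤
    |∑ n ∈ Ioc u (u + K), dv n| + (K : ℝ) ^ 2 / u +
      ∑ n ∈ Ioc u (u + K), (if n.Prime then 0 else ArithmeticFunction.vonMangoldt n : ℝ) := by
  have hu0 : (0 : ℝ) < u := by exact_mod_cast hu
  have e1 : ∑ n ∈ Ioc u (u + K), dv n = ∑ n ∈ Ioc u (u + K), (if n.Prime then Real.log n - Real.log u else 0) +
      (pc u (u + K) : ℝ) * Real.log u +
      ∑ n ∈ Ioc u (u + K), (if n.Prime then 0 else ArithmeticFunction.vonMangoldt n : ℝ) - K := by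
    have e2 : (pc u (u + K) : ℝ) * Real.log u = ∑ n ∈ Ioc u (u + K), (if n.Prime then Real.log u else 0) := by
      unfold pc
      rw [← sum_filter, sum_const, nsmul_eq_mul]
    have e3 : (K : ℝ) = ∑ n ∈ Ioc u (u + K), (1 : ℝ) := by
      rw [sum_const, nsmul_eq_mul, mul_one, Nat.card_Ioc]
      congr 1
      omega
    rw [e2]
    conv_rhs => rw [e3]
    rw [← sum_add_distrib, ← sum_add_distrib, ← sum_sub_distrib]
    refine sum_congr rfl fun n _ => ?_
    unfold dv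
    split_ifs with hn
    · rw [ArithmeticFunction.vonMangoldt_apply_prime hn]
      ring
    · ring
  have h1 : 0 ≤ ∑ n ∈ Ioc u (u + K), (if n.Prime then Real.log n - Real.log u else 0) := by
    refine sum_nonneg fun n hn => ?_
    split_ifs
    · have := Real.log_le_log hu0 (show (u : ℝ) ≤ n by
        rw [mem_Ioc] at hn
        exact_mod_cast hn.1.le)
      linarith
    · exact le_rfl
  have h2 : ∑ n ∈ Ioc u (u + K), (if n.Prime then Real.log n - Real.log u else 0) ≤ (K : ℝ) ^ 2 / u := by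
    calc _ ≤ ∑ n ∈ Ioc u (u + K), ((K : ℝ) / u) := by
          refine sum_le_sum fun n hn => ?_
          rw [mem_Ioc] at hn
          split_ifs
          · have hn0 : (0 : ℝ) < n := by exact_mod_cast (by omega : 0 < n)
            rw [← Real.log_div hn0.ne' hu0.ne']
            have g1 := Real.log_le_sub_one_of_pos (show (0 : ℝ) < (n : ℝ) / u by positivity)
            have g2 : ((n : ℕ) : ℝ) ≤ u + K := by exact_mod_cast hn.2
            refine g1.trans ?_
            rw [div_sub_one hu0.ne']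
            exact div_le_div_of_nonneg_right (by linarith) hu0.le
          · positivity
      _ = (K : ℝ) ^ 2 / u := by
          rw [sum_const, nsmul_eq_mul, Nat.card_Ioc, show u + K - u = K by omega]
          ring
  have h3 : 0 ≤ ∑ n ∈ Ioc u (u + K), (if n.Prime then 0 else ArithmeticFunction.vonMangoldt n : ℝ) := by
    refine sum_nonneg fun n _ => ?_
    split_ifs
    · exact le_rfl
    · exact ArithmeticFunction.vonMangoldt_nonneg
  have h4 : (pc u (u + K) : ℝ) * Real.log u - K = ∑ n ∈ Ioc u (u + K), dv n -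
      ∑ n ∈ Ioc u (u + K), (if n.Prime then Real.log n - Real.log u else 0) -
      ∑ n ∈ Ioc u (u + K), (if n.Prime then 0 else ArithmeticFunction.vonMangoldt n : ℝ) := by
    rw [e1]; ring
  rw [h4, abs_le]
  have h5 := neg_abs_le (∑ n ∈ Ioc u (u + K), dv n)
  have h6 := le_abs_self (∑ n ∈ Ioc u (u + K), dv n)
  have h7 : 0 ≤ (K : ℝ) ^ 2 / u := by positivity
  constructor <;> linarith

lemma sum_Ioc_shift (g : ℕ → ℝ) (u K : ℕ) : ∑ n ∈ Ioc u (u + K), g n = ∑ x ∈ Ico u (u + K), g (x + 1) := by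
  rw [Finset.sum_Ico_add' g u (u + K) 1]
  congr 1
  ext x
  simp only [mem_Ioc, mem_Ico]
  omega

lemma powers_total {X : ℕ} (hX : 1 ≤ X) :
    ∑ x ∈ range X, (if (x + 1).Prime then 0 else ArithmeticFunction.vonMangoldt (x + 1) : ℝ) ≤
      2 * Real.sqrt X * Real.log X := by
  have h := Chebyshev.psi_sub_theta_le (x := (X : ℝ)) (by exact_mod_cast hX)
  rw [Chebyshev.psi_sub_theta_eq_sum_not_prime, Nat.floor_natCast] at h
  refine le_trans (le_of_eq ?_) h
  rw [sum_filter]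
  have e := sum_Ioc_shift (fun n => if ¬ n.Prime then (ArithmeticFunction.vonMangoldt n : ℝ) else 0) 0 X
  simp only [zero_add] at e
  rw [e, range_eq_Ico]
  refine sum_congr rfl fun x _ => ?_
  split_ifs <;> simp_all

theorem primes_aligned (hS : SilS) (e A : ℕ) (he : 4 ≤ e) : ∃ X₀ : ℕ, ∀ X : ℕ, X₀ ≤ X → ∀ K : ℕ,
    (X : ℝ) ^ (1 / 3 + 4 / e : ℝ) ≤ K → (K : ℝ) ≤ (X : ℝ) ^ (9 / 10 : ℝ) → ∀ U : Finset ℕ,
    (∀ u ∈ U, u < X ∧ X ≤ 100 * u) → (∀ u ∈ U, ∀ u' ∈ U, u < u' → u + K ≤ u') →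
    ∑ u ∈ U, |(pc u (u + K) : ℝ) - K / Real.log u| ≤ X / (Real.log X) ^ A := by
  obtain ⟨X₁, h1⟩ := aligned_small hS e (A + 1) he
  obtain ⟨X₂, h2⟩ := Filter.eventually_atTop.1 ((pow_log (1 / 10) (by norm_num) (A + 1) 200 (by norm_num)).and
    ((pow_log (1 / 4) (by norm_num) (A + 2) 8 (by norm_num)).and (log_ge 10)))
  refine ⟨X₁ + X₂ + 1, fun X hX K hK1 hK2 U hU hsep => ?_⟩
  obtain ⟨h3, h4, h5⟩ := h2 X (by omega)
  set L := Real.log X with hL
  have hL0 : 0 < L := by linarith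
  have hX0 : (0 : ℝ) < X := by exact_mod_cast (by omega : 0 < X)
  have hX1 : (1 : ℝ) ≤ X := by exact_mod_cast (by omega : 1 ≤ X)
  have hK0 : (0 : ℝ) < K := lt_of_lt_of_le (Real.rpow_pos_of_pos hX0 _) hK1
  have hKX : (K : ℝ) ≤ X := by
    refine hK2.trans ?_
    calc (X : ℝ) ^ (9 / 10 : ℝ) ≤ (X : ℝ) ^ (1 : ℝ) := Real.rpow_le_rpow_of_exponent_le hX1 (by norm_num)
      _ = X := Real.rpow_one _
  have hKXn : K ≤ X := by exact_mod_cast hKX
  have hcard := card_sep U (fun u hu => (hU u hu).1) hsep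
  have m1 := h1 X (by omega) K hK1 hKXn U (fun u hu => (hU u hu).1) hsep
  have hX100 : ∀ u ∈ U, (X : ℝ) ≤ 100 * u := fun u hu => by exact_mod_cast (hU u hu).2
  have hlogu : ∀ u ∈ U, 1 ≤ Real.log u := by
    intro u hu
    have g1 := hX100 u hu
    have g2 : (0 : ℝ) < u := by linarith
    have g3 : L ≤ Real.log 100 + Real.log u := by
      rw [← Real.log_mul (by norm_num) g2.ne']
      exact Real.log_le_log hX0 g1
    have g4 : Real.log 100 ≤ 9 := by
      have g5 : Real.log 100 = 2 * Real.log 10 := by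
        rw [show (100 : ℝ) = 10 ^ 2 by norm_num, Real.log_pow]; norm_num
      have g6 : Real.log 10 ≤ 4 := by
        have g7 : Real.log 10 ≤ Real.log (2 ^ 4) := Real.log_le_log (by norm_num) (by norm_num)
        rw [Real.log_pow] at g7
        have := Real.log_two_lt_d9
        push_cast at g7
        linarith
      linarith
    linarith
  -- termwise
  have hterm : ∀ u ∈ U, |(pc u (u + K) : ℝ) - K / Real.log u| ≤
      |∑ n ∈ Ioc u (u + K), dv n| + 100 * (K : ℝ) ^ 2 / X +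
      ∑ x ∈ Ico u (u + K), (if (x + 1).Prime then 0 else ArithmeticFunction.vonMangoldt (x + 1) : ℝ) := by
    intro u hu
    have g1 := hX100 u hu
    have g2 : (0 : ℝ) < u := by linarith
    have g3 := hlogu u hu
    have g4 := pc_dev (u := u) (K := K) (by exact_mod_cast g2)
    rw [sum_Ioc_shift (fun n => (if n.Prime then 0 else ArithmeticFunction.vonMangoldt n : ℝ))] at g4
    have g5 : (pc u (u + K) : ℝ) - K / Real.log u = ((pc u (u + K) : ℝ) * Real.log u - K) / Real.log u := by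
      field_simp
    have g6 : |(pc u (u + K) : ℝ) - K / Real.log u| ≤ |(pc u (u + K) : ℝ) * Real.log u - K| := by
      rw [g5, abs_div, abs_of_pos (by linarith : 0 < Real.log u)]
      exact div_le_self (abs_nonneg _) g3
    have g7 : (K : ℝ) ^ 2 / u ≤ 100 * (K : ℝ) ^ 2 / X := by
      rw [div_le_div_iff₀ g2 hX0]
      nlinarith [sq_nonneg (K : ℝ)]
    linarith
  refine (sum_le_sum hterm).trans ?_
  rw [sum_add_distrib, sum_add_distrib, sum_const, nsmul_eq_mul]
  have m2 : (U.card : ℝ) * (100 * (K : ℝ) ^ 2 / X) ≤ 200 * K := by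
    have g1 : (U.card : ℝ) * (100 * (K : ℝ) ^ 2 / X) = (U.card * K) * (100 * K) / X := by ring
    rw [g1, div_le_iff₀ hX0]
    nlinarith [mul_le_mul_of_nonneg_right hcard (by positivity : (0 : ℝ) ≤ 100 * K)]
  have m3 : 200 * (K : ℝ) ≤ X / L ^ (A + 1) := by
    rw [le_div_iff₀ (by positivity)]
    have g1 : (X : ℝ) = (X : ℝ) ^ (9 / 10 : ℝ) * (X : ℝ) ^ (1 / 10 : ℝ) := by
      rw [← Real.rpow_add hX0]; norm_num
    calc 200 * (K : ℝ) * L ^ (A + 1) = K * (200 * L ^ (A + 1)) := by ring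
      _ ≤ (X : ℝ) ^ (9 / 10 : ℝ) * (X : ℝ) ^ (1 / 10 : ℝ) := by
          apply mul_le_mul hK2 h3 (by positivity) (by positivity)
      _ = X := g1.symm
  have m4 : ∑ u ∈ U, ∑ x ∈ Ico u (u + K), (if (x + 1).Prime then 0 else ArithmeticFunction.vonMangoldt (x + 1) : ℝ) ≤
      X / L ^ (A + 1) := by
    have g0 := sum_disj (g := fun x => (if (x + 1).Prime then 0 else ArithmeticFunction.vonMangoldt (x + 1) : ℝ))
      (fun n => by split_ifs; exacts [le_rfl, ArithmeticFunction.vonMangoldt_nonneg]) U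
      (fun u hu => (hU u hu).1) hsep (le_refl K)
    refine g0.trans ?_
    refine (powers_total (by omega)).trans ?_
    have g1 : ((X + K : ℕ) : ℝ) ≤ 2 * X := by push_cast; linarith
    have g2 : Real.sqrt ((X + K : ℕ) : ℝ) ≤ 2 * (X : ℝ) ^ (1 / 2 : ℝ) := by
      rw [← Real.sqrt_eq_rpow]
      have : Real.sqrt ((X + K : ℕ) : ℝ) ≤ Real.sqrt (4 * X) := Real.sqrt_le_sqrt (by linarith)
      rw [Real.sqrt_mul (by norm_num), show (4 : ℝ) = 2 ^ 2 by norm_num, Real.sqrt_sq (by norm_num)] at this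
      exact this
    have g3 : Real.log ((X + K : ℕ) : ℝ) ≤ 2 * L := by
      have : Real.log ((X + K : ℕ) : ℝ) ≤ Real.log (2 * X) := Real.log_le_log (by push_cast; linarith) g1
      rw [Real.log_mul (by norm_num) hX0.ne'] at this
      have h2 := Real.log_two_lt_d9
      linarith
    have g4 : 0 ≤ Real.log ((X + K : ℕ) : ℝ) := Real.log_natCast_nonneg _
    calc 2 * Real.sqrt ((X + K : ℕ) : ℝ) * Real.log ((X + K : ℕ) : ℝ) ≤
          2 * (2 * (X : ℝ) ^ (1 / 2 : ℝ)) * (2 * L) := by gcongr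
      _ = 8 * L * (X : ℝ) ^ (1 / 2 : ℝ) := by ring
      _ ≤ X / L ^ (A + 1) := by
          rw [le_div_iff₀ (by positivity)]
          have g5 : 8 * L ^ (A + 2) ≤ (X : ℝ) ^ (1 / 4 : ℝ) := h4
          have g6 : (X : ℝ) ^ (1 / 4 : ℝ) ≤ (X : ℝ) ^ (1 / 2 : ℝ) :=
            Real.rpow_le_rpow_of_exponent_le hX1 (by norm_num)
          have g7 : (X : ℝ) = (X : ℝ) ^ (1 / 2 : ℝ) * (X : ℝ) ^ (1 / 2 : ℝ) := by
            rw [← Real.rpow_add hX0]; norm_num
          calc 8 * L * (X : ℝ) ^ (1 / 2 : ℝ) * L ^ (A + 1) = (X : ℝ) ^ (1 / 2 : ℝ) * (8 * L ^ (A + 2)) := by ring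
            _ ≤ (X : ℝ) ^ (1 / 2 : ℝ) * (X : ℝ) ^ (1 / 2 : ℝ) :=
                mul_le_mul_of_nonneg_left (g5.trans g6) (by positivity)
            _ = X := g7.symm
  have m5 : 3 * (X / L ^ (A + 1)) ≤ X / L ^ A := by
    rw [pow_succ, ← mul_div_assoc, div_le_div_iff₀ (by positivity) (by positivity)]
    have hLA : 0 < L ^ A := by positivity
    nlinarith [mul_pos hX0 hLA]
  linarith

end Pool.Agent.H176M
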