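import Mathlib
import Pool.Agent.H176M.Shr
import Pool.Agent.W66.RC
import Pool.Agent.W66.RB

set_option autoImplicit false

/-!
# Numbers with prime rough part in aligned short intervals
-/

namespace Pool.Agent.H176M

open Finset
open Pool.Agent.H305R2 (roughPart SM SMz SM_pos mem_SMz sum_rough_eq ZZ ZZ_nonneg ZZ_le_exp VV sum_le_VV)
open Pool.Agent.W66 (large_smooth_count)

lemma pc_add {u v w : ℕ} (h1 : u ≤ v) (h2 : v ≤ w) : pc u w = pc u v + pc v w := by
  unfold pc
  rw [← Finset.card_union_of_disjoint, ← Finset.filter_union, Finset.Ioc_union_Ioc_eq_Ioc h1 h2]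
  apply Finset.disjoint_filter_filter
  rw [Finset.disjoint_left]
  intro x hx hx'
  rw [mem_Ioc] at hx hx'
  omega

lemma pc_le {u v : ℕ} : pc u v ≤ v - u := by
  unfold pc
  calc _ ≤ (Ioc u v).card := card_filter_le _ _
    _ = _ := Nat.card_Ioc u v

/-- floors of the end points -/
lemma floors {H K m : ℕ} (hH : 1 ≤ H) (hK : 1 ≤ K) (hm : 1 ≤ m) :
    (H * K - 1) / m + K / m ≤ ((H + 1) * K - 1) / m ∧ ((H + 1) * K - 1) / m ≤ (H * K - 1) / m + K / m + 1 := by
  have hHK : 1 ≤ H * K := Nat.one_le_iff_ne_zero.2 (by positivity)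
  have e : (H + 1) * K - 1 = (H * K - 1) + K := by
    have : (H + 1) * K = H * K + K := by ring
    omega
  rw [e]
  constructor
  · exact Nat.div_add_div_le_add_div
  · rw [Nat.add_div (by omega : 0 < m)]
    split_ifs <;> omega

lemma floors_mono {H H' K m : ℕ} (hH : 1 ≤ H) (hHH : H < H') (hK : 1 ≤ K) (hm : 1 ≤ m) :
    (H * K - 1) / m + K / m ≤ (H' * K - 1) / m := by
  refine (floors hH hK hm).1.trans ?_
  apply Nat.div_le_div_right
  have : (H + 1) * K ≤ H' * K := Nat.mul_le_mul_right _ hHH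
  omega

/-- the point density -/
lemma dens_compare {H K m u : ℕ} (hH : 1 ≤ H) (hK : 1 ≤ K) (hm : 1 ≤ m) (hu : u = (H * K - 1) / m)
    (hbig : 100 * m ≤ H * K) (hlu : 1 ≤ Real.log u) :
    |((K / m : ℕ) : ℝ) / Real.log u - K / (m * Real.log ((H : ℝ) * K / m))| ≤ 5 := by
  have hm0 : (0 : ℝ) < m := by exact_mod_cast hm
  have hK0 : (0 : ℝ) < K := by exact_mod_cast hK
  have hH0 : (1 : ℝ) ≤ H := by exact_mod_cast hH
  set Y : ℝ := (H : ℝ) * K / m with hY
  have hY100 : 100 ≤ Y := by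
    rw [hY, le_div_iff₀ hm0]
    exact_mod_cast hbig
  have hHK : 1 ≤ H * K := Nat.one_le_iff_ne_zero.2 (by positivity)
  have hu1 : (u : ℝ) ≤ Y := by
    have h1 : u * m ≤ H * K - 1 := by rw [hu]; exact Nat.div_mul_le_self _ _
    have h2 : ((u * m : ℕ) : ℝ) ≤ ((H * K : ℕ) : ℝ) := by exact_mod_cast (by omega : u * m ≤ H * K)
    push_cast at h2
    rw [hY, le_div_iff₀ hm0]
    exact h2
  have hu2 : Y - 2 ≤ u := by
    have h1 : H * K - 1 < u * m + m := by
      rw [hu]; exact Nat.lt_div_mul_add (by omega)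
    have h2 : ((H * K : ℕ) : ℝ) ≤ ((u * m + m : ℕ) : ℝ) := by exact_mod_cast (by omega : H * K ≤ u * m + m)
    push_cast at h2
    have h3 : Y ≤ u + 1 := by
      rw [hY, div_le_iff₀ hm0]
      linarith
    linarith
  have hu0 : (0 : ℝ) < u := by linarith
  have hlY : Real.log u ≤ Real.log Y := Real.log_le_log hu0 hu1
  have hlYu : Real.log Y - Real.log u ≤ 2 / u := by
    rw [← Real.log_div (by linarith) hu0.ne']
    have h1 := Real.log_le_sub_one_of_pos (show (0 : ℝ) < Y / u by positivity)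
    refine h1.trans ?_
    rw [div_sub_one hu0.ne']
    exact div_le_div_of_nonneg_right (by linarith) hu0.le
  have hKm1 : ((K / m : ℕ) : ℝ) ≤ K / m := Nat.cast_div_le
  have hKm2 : (K : ℝ) / m - 1 ≤ ((K / m : ℕ) : ℝ) := by
    have h1 : K < (K / m) * m + m := Nat.lt_div_mul_add (by omega)
    have h2 : ((K : ℕ) : ℝ) ≤ (((K / m) * m + m : ℕ) : ℝ) := by exact_mod_cast h1.le
    push_cast at h2
    have h3 : (K : ℝ) / m ≤ ((K / m : ℕ) : ℝ) + 1 := by
      rw [div_le_iff₀ hm0]
      linarith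
    linarith
  have e1 : ((K / m : ℕ) : ℝ) / Real.log u - K / (m * Real.log Y) =
      (((K / m : ℕ) : ℝ) - K / m) / Real.log u + (K / m) * (Real.log Y - Real.log u) / (Real.log u * Real.log Y) := by
    have h1 : Real.log u ≠ 0 := by linarith
    have h2 : Real.log Y ≠ 0 := by linarith
    field_simp
    ring
  rw [e1]
  have b1 : |(((K / m : ℕ) : ℝ) - K / m) / Real.log u| ≤ 1 := by
    rw [abs_div, abs_of_pos (by linarith : 0 < Real.log u), div_le_one (by linarith)]
    have : |((K / m : ℕ) : ℝ) - K / m| ≤ 1 := by rw [abs_le]; constructor <;> linarith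
    linarith
  have b2 : |(K / m : ℝ) * (Real.log Y - Real.log u) / (Real.log u * Real.log Y)| ≤ 4 := by
    have h3 : 0 ≤ (K / m : ℝ) * (Real.log Y - Real.log u) := mul_nonneg (by positivity) (by linarith)
    have h4 : 1 ≤ Real.log u * Real.log Y := by nlinarith
    rw [abs_of_nonneg (by positivity)]
    refine (div_le_self h3 h4).trans ?_
    calc (K / m : ℝ) * (Real.log Y - Real.log u) ≤ (K / m : ℝ) * (2 / u) :=
          mul_le_mul_of_nonneg_left hlYu (by positivity)
      _ ≤ 4 := by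
          have h5 : (K : ℝ) / m ≤ Y := by
            rw [hY]
            apply div_le_div_of_nonneg_right _ hm0.le
            nlinarith
          have h6 : Y ≤ 2 * u := by linarith
          rw [← mul_div_assoc, div_le_iff₀ hu0]
          linarith
  calc _ ≤ _ := abs_add_le _ _
    _ ≤ 1 + 4 := add_le_add b1 b2
    _ = 5 := by norm_num

theorem one_m (hS : SilS) (e A : ℕ) (he : 4 ≤ e) : ∃ X₀ : ℕ, ∀ X K m : ℕ, 1 ≤ m → X₀ * m ≤ X →
    (2 * (X : ℝ)) ^ (1 / 3 + 4 / e : ℝ) ≤ ((K / m : ℕ) : ℝ) → ((K : ℕ) : ℝ) ≤ ((X / m : ℕ) : ℝ) ^ (9 / 10 : ℝ) →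
    ∀ H0 H1 : ℕ, H1 * K ≤ X → X ≤ 50 * (H0 * K) →
    ∑ H ∈ Ico H0 H1, |(pc ((H * K - 1) / m) (((H + 1) * K - 1) / m) : ℝ) -
      K / (m * Real.log ((H : ℝ) * K / m))| ≤
      ((X / m + 1 : ℕ) : ℝ) / (Real.log ((X / m + 1 : ℕ) : ℝ)) ^ A + 6 * ((H1 - H0 : ℕ) : ℝ) := by
  obtain ⟨X₁, h1⟩ := primes_aligned hS e A he
  refine ⟨X₁ + 10000, fun X K m hm hX hK1 hK2 H0 H1 hH1 hH0 => ?_⟩
  have her : (4 : ℝ) ≤ e := by exact_mod_cast he
  have hXbig : 10000 * m ≤ X := le_trans (Nat.mul_le_mul_right _ (by omega)) hX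
  have hX1m : X₁ * m ≤ X := le_trans (Nat.mul_le_mul_right _ (by omega)) hX
  have hXpos : 0 < X := by omega
  have hXr : (0 : ℝ) < X := by exact_mod_cast hXpos
  have hKm0 : 0 < K / m := by
    have : (0 : ℝ) < ((K / m : ℕ) : ℝ) := lt_of_lt_of_le (Real.rpow_pos_of_pos (by linarith) _) hK1
    exact_mod_cast this
  have hK0 : 1 ≤ K := by
    by_contra h
    have : K = 0 := by omega
    rw [this] at hKm0
    simp at hKm0
  have hH00 : 1 ≤ H0 := by
    by_contra h
    have : H0 = 0 := by omega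
    rw [this] at hH0
    omega
  set U := (Ico H0 H1).image (fun H => (H * K - 1) / m) with hU
  have hinj : Set.InjOn (fun H => (H * K - 1) / m) (Ico H0 H1 : Finset ℕ) := by
    intro H hH H' hH' heq
    rw [Finset.mem_coe, mem_Ico] at hH hH'
    simp only at heq
    by_contra hne
    rcases lt_or_gt_of_ne hne with h | h
    · have := floors_mono (m := m) (by omega : 1 ≤ H) h hK0 hm
      omega
    · have := floors_mono (m := m) (by omega : 1 ≤ H') h hK0 hm
      omega
  have hXm : X < (X / m) * m + m := Nat.lt_div_mul_add (by omega)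
  have hmem : ∀ H ∈ Ico H0 H1, (H * K - 1) / m < X / m + 1 ∧ X / m + 1 ≤ 100 * ((H * K - 1) / m) := by
    intro H hH
    rw [mem_Ico] at hH
    have g1 : H * K ≤ H1 * K := Nat.mul_le_mul_right _ hH.2.le
    have g2 : H0 * K ≤ H * K := Nat.mul_le_mul_right _ hH.1
    have g3 : (H * K - 1) / m ≤ X / m := Nat.div_le_div_right (by omega)
    refine ⟨by omega, ?_⟩
    have g4 : H * K - 1 < ((H * K - 1) / m) * m + m := Nat.lt_div_mul_add (by omega)
    have g5 : (X / m) * m ≤ X := Nat.div_mul_le_self _ _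
    have g6 : X ≤ 50 * (H * K) := by omega
    -- multiply by m
    have g7 : (X / m + 1) * m ≤ (100 * ((H * K - 1) / m)) * m := by
      have e1 : (X / m + 1) * m = (X / m) * m + m := by ring
      have e2 : (100 * ((H * K - 1) / m)) * m = 100 * (((H * K - 1) / m) * m) := by ring
      rw [e1, e2]
      omega
    exact Nat.le_of_mul_le_mul_right g7 (by omega)
  have hXm1 : X₁ ≤ X / m + 1 := by
    have : X₁ ≤ X / m := (Nat.le_div_iff_mul_le (by omega)).2 hX1m
    omega
  have hXm2 : ((X / m + 1 : ℕ) : ℝ) ≤ 2 * X := by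
    have : X / m + 1 ≤ 2 * X := by
      have := Nat.div_le_self X m
      omega
    exact_mod_cast this
  have m1 := h1 (X / m + 1) hXm1 (K / m)
    (le_trans (Real.rpow_le_rpow (by positivity) hXm2 (by positivity)) hK1)
    (by
      have g1 : ((K / m : ℕ) : ℝ) ≤ K := by exact_mod_cast Nat.div_le_self K m
      refine g1.trans (hK2.trans ?_)
      apply Real.rpow_le_rpow (by positivity) _ (by norm_num)
      push_cast
      linarith) U
    (by
      intro u hu
      rw [hU, mem_image] at hu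
      obtain ⟨H, hH, rfl⟩ := hu
      exact hmem H hH)
    (by
      intro u hu u' hu' huu
      rw [hU, mem_image] at hu hu'
      obtain ⟨H, hH, rfl⟩ := hu
      obtain ⟨H', hH', rfl⟩ := hu'
      rw [mem_Ico] at hH hH'
      rcases lt_trichotomy H H' with h | h | h
      · exact floors_mono (by omega) h hK0 hm
      · rw [h] at huu
        omega
      · have := floors_mono (m := m) (by omega : 1 ≤ H') h hK0 hm
        omega)
  rw [hU, sum_image hinj] at m1
  have hterm : ∀ H ∈ Ico H0 H1, |(pc ((H * K - 1) / m) (((H + 1) * K - 1) / m) : ℝ) -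
      K / (m * Real.log ((H : ℝ) * K / m))| ≤
      |(pc ((H * K - 1) / m) ((H * K - 1) / m + K / m) : ℝ) - ((K / m : ℕ) : ℝ) / Real.log (((H * K - 1) / m : ℕ) : ℝ)|
        + 6 := by
    intro H hH
    obtain ⟨g1, g2⟩ := hmem H hH
    rw [mem_Ico] at hH
    obtain ⟨f1, f2⟩ := floors (H := H) (m := m) (by omega) hK0 hm
    have g3 : pc ((H * K - 1) / m) (((H + 1) * K - 1) / m) = pc ((H * K - 1) / m) ((H * K - 1) / m + K / m) +
        pc ((H * K - 1) / m + K / m) (((H + 1) * K - 1) / m) := pc_add (by omega) f1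
    have g4 : pc ((H * K - 1) / m + K / m) (((H + 1) * K - 1) / m) ≤ 1 := pc_le.trans (by omega)
    have g5 : (pc ((H * K - 1) / m) (((H + 1) * K - 1) / m) : ℝ) = pc ((H * K - 1) / m) ((H * K - 1) / m + K / m) +
        pc ((H * K - 1) / m + K / m) (((H + 1) * K - 1) / m) := by exact_mod_cast g3
    have g6 : (pc ((H * K - 1) / m + K / m) (((H + 1) * K - 1) / m) : ℝ) ≤ 1 := by exact_mod_cast g4
    have g7 : (0 : ℝ) ≤ pc ((H * K - 1) / m + K / m) (((H + 1) * K - 1) / m) := Nat.cast_nonneg _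
    have hXm3 : 10000 ≤ X / m := (Nat.le_div_iff_mul_le (by omega)).2 hXbig
    have hu100 : 100 ≤ (H * K - 1) / m := by omega
    have hlu : 1 ≤ Real.log (((H * K - 1) / m : ℕ) : ℝ) := by
      rw [Real.le_log_iff_exp_le (by exact_mod_cast (by omega : 0 < (H * K - 1) / m))]
      have h3 : Real.exp 1 ≤ 3 := by have := Real.exp_one_lt_d9; linarith
      have h4 : (100 : ℝ) ≤ (((H * K - 1) / m : ℕ) : ℝ) := by exact_mod_cast hu100
      linarith
    have hbig : 100 * m ≤ H * K := by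
      have := (Nat.le_div_iff_mul_le (by omega : 0 < m)).1 hu100
      omega
    have g8 := dens_compare (H := H) (K := K) (m := m) (by omega) hK0 hm rfl hbig hlu
    have e1 : (pc ((H * K - 1) / m) (((H + 1) * K - 1) / m) : ℝ) - K / (m * Real.log ((H : ℝ) * K / m)) =
        ((pc ((H * K - 1) / m) ((H * K - 1) / m + K / m) : ℝ) - ((K / m : ℕ) : ℝ) / Real.log (((H * K - 1) / m : ℕ) : ℝ)) +
        (((K / m : ℕ) : ℝ) / Real.log (((H * K - 1) / m : ℕ) : ℝ) - K / (m * Real.log ((H : ℝ) * K / m))) +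
        pc ((H * K - 1) / m + K / m) (((H + 1) * K - 1) / m) := by
      rw [g5]; ring
    rw [e1]
    refine (abs_add_three _ _ _).trans ?_
    rw [abs_of_nonneg g7]
    linarith
  refine (sum_le_sum hterm).trans ?_
  rw [sum_add_distrib, sum_const, nsmul_eq_mul, Nat.card_Ico]
  linarith

end Pool.Agent.H176M
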