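import Mathlib
import Pool.Agent.H176M.Rgh

set_option autoImplicit false

/-!
# Numbers with prime rough part in aligned short intervals: the count
-/

namespace Pool.Agent.H176M

open Finset
open Pool.Agent.H305R2 (roughPart roughPart_mul SM SMz SM_pos mem_SMz sum_rough_eq ZZ ZZ_nonneg ZZ_le_exp
  VV sum_le_VV)
open Pool.Agent.W66 (large_smooth_count)

/-- the number of `n` in the `H`-th interval of length `K` with prime `ℓ`-rough part -/
def RC (ℓ K H : ℕ) : ℕ :=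
  ((Ioc (H * K - 1) ((H + 1) * K - 1)).filter (fun n => (roughPart ℓ n).Prime)).card

/-- the density of the numbers with prime `ℓ`-rough part -/
noncomputable def nu (ℓ M K H : ℕ) : ℝ := ∑ s ∈ SMz ℓ M, 1 / ((s : ℝ) * Real.log ((H : ℝ) * K / s))

/-- those with a large smooth part -/
def TC (ℓ M K H : ℕ) : ℕ :=
  ((Ioc (H * K - 1) ((H + 1) * K - 1)).filter (fun n => (roughPart ℓ n).Prime ∧ M < n / roughPart ℓ n)).card

lemma RC_eq {ℓ M K H : ℕ} (hH : 1 ≤ H) (hK : 1 ≤ K) (hbig : (ℓ + 1) * M ≤ H * K - 1) :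
    (RC ℓ K H : ℝ) = ∑ s ∈ SMz ℓ M, (pc ((H * K - 1) / s) (((H + 1) * K - 1) / s) : ℝ) + TC ℓ M K H := by
  have hHK : H * K ≤ (H + 1) * K := Nat.mul_le_mul_right _ (by omega)
  have hHK0 : 1 ≤ H * K := Nat.one_le_iff_ne_zero.2 (by positivity)
  have h1 := sum_rough_eq ℓ (H * K - 1) ((H + 1) * K - 1) (fun _ => (1 : ℝ))
  have h2 := sum_rough_eq ℓ (H * K - 1) ((H + 1) * K - 1)
    (fun n => if M < n / roughPart ℓ n then (1 : ℝ) else 0)
  have e1 : (RC ℓ K H : ℝ) = ∑ m ∈ (Ioc (H * K - 1) ((H + 1) * K - 1)).filter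
      (fun m => (roughPart ℓ m).Prime), (1 : ℝ) := by
    unfold RC
    rw [sum_const, nsmul_eq_mul, mul_one]
  have e2 : (TC ℓ M K H : ℝ) = ∑ m ∈ (Ioc (H * K - 1) ((H + 1) * K - 1)).filter
      (fun m => (roughPart ℓ m).Prime), (if M < m / roughPart ℓ m then (1 : ℝ) else 0) := by
    unfold TC
    rw [← sum_filter, sum_const, nsmul_eq_mul, mul_one, Finset.filter_filter]
  have e3 : ∑ s ∈ SMz ℓ (((H + 1) * K - 1 : ℕ) : ℝ), ∑ q ∈ (Ioc ((H * K - 1) / s) (((H + 1) * K - 1) / s)).filter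
        (fun q => q.Prime ∧ ℓ < q), (1 : ℝ) =
      ∑ s ∈ SMz ℓ M, (pc ((H * K - 1) / s) (((H + 1) * K - 1) / s) : ℝ) +
      ∑ s ∈ SMz ℓ (((H + 1) * K - 1 : ℕ) : ℝ), ∑ q ∈ (Ioc ((H * K - 1) / s) (((H + 1) * K - 1) / s)).filter
        (fun q => q.Prime ∧ ℓ < q), (if M < (s * q) / roughPart ℓ (s * q) then (1 : ℝ) else 0) := by
    have hsub : SMz ℓ (M : ℝ) ⊆ SMz ℓ (((H + 1) * K - 1 : ℕ) : ℝ) := by
      intro s hs
      rw [mem_SMz (by positivity)] at hs ⊢
      refine ⟨hs.1, hs.2.trans ?_⟩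
      have : M ≤ (H + 1) * K - 1 := by
        have : M ≤ (ℓ + 1) * M := Nat.le_mul_of_pos_left _ (by omega)
        omega
      exact_mod_cast this
    have e4 : ∑ s ∈ SMz ℓ M, (pc ((H * K - 1) / s) (((H + 1) * K - 1) / s) : ℝ) =
        ∑ s ∈ SMz ℓ (((H + 1) * K - 1 : ℕ) : ℝ), if (s : ℕ) ≤ M then
          (pc ((H * K - 1) / s) (((H + 1) * K - 1) / s) : ℝ) else 0 := by
      rw [← sum_filter]
      refine sum_congr ?_ fun _ _ => rfl
      ext s
      rw [mem_filter, mem_SMz (by positivity), mem_SMz (by positivity)]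
      constructor
      · rintro ⟨a1, a2⟩
        have := hsub ((mem_SMz (by positivity)).2 ⟨a1, a2⟩)
        rw [mem_SMz (by positivity)] at this
        exact ⟨this, by exact_mod_cast a2⟩
      · rintro ⟨⟨a1, _⟩, a2⟩
        exact ⟨a1, by exact_mod_cast a2⟩
    rw [e4, ← sum_add_distrib]
    refine sum_congr rfl fun s hs => ?_
    rw [mem_SMz (by positivity)] at hs
    have hs0 := SM_pos hs.1
    have e5 : ∀ q ∈ (Ioc ((H * K - 1) / s) (((H + 1) * K - 1) / s)).filter (fun q => q.Prime ∧ ℓ < q),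
        (if M < (s * q) / roughPart ℓ (s * q) then (1 : ℝ) else 0) = if M < s then 1 else 0 := by
      intro q hq
      rw [mem_filter] at hq
      rw [roughPart_mul hs.1 hq.2.1 hq.2.2, Nat.mul_div_cancel s hq.2.1.pos]
    rw [sum_congr rfl e5]
    by_cases hsM : s ≤ M
    · rw [if_pos hsM]
      simp only [if_neg (not_lt.2 hsM), sum_const_zero, add_zero, sum_const, nsmul_eq_mul, mul_one]
      unfold pc
      congr 2
      ext q
      rw [mem_filter, mem_filter]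
      constructor
      · rintro ⟨a, b, _⟩; exact ⟨a, b⟩
      · rintro ⟨a, b⟩
        refine ⟨a, b, ?_⟩
        rw [mem_Ioc] at a
        have h3 : ℓ + 1 ≤ (H * K - 1) / s := by
          rw [Nat.le_div_iff_mul_le hs0]
          exact le_trans (Nat.mul_le_mul_left _ hsM) hbig
        omega
    · rw [if_neg hsM]
      simp only [if_pos (not_le.1 hsM), zero_add]
  rw [e1, h1, e3, e2, h2]

lemma sum_levels (g : ℕ → ℝ) {K H0 H1 : ℕ} (h : H0 ≤ H1) :
    ∑ H ∈ Ico H0 H1, ∑ n ∈ Ioc (H * K - 1) ((H + 1) * K - 1), g n = ∑ n ∈ Ioc (H0 * K - 1) (H1 * K - 1), g n := by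
  induction H1, h using Nat.le_induction with
  | base => simp
  | succ H1 hH ih =>
    rw [Finset.sum_Ico_succ_top hH, ih]
    apply Finset.sum_Ioc_consecutive
    · have : H0 * K ≤ H1 * K := Nat.mul_le_mul_right _ hH
      omega
    · have : H1 * K ≤ (H1 + 1) * K := Nat.mul_le_mul_right _ (by omega)
      omega

lemma TC_total {ℓ M K H0 H1 X : ℕ} (hM : 1 ≤ M) (h : H0 ≤ H1) (hX : H1 * K ≤ X) :
    ∑ H ∈ Ico H0 H1, (TC ℓ M K H : ℝ) ≤ X * ((M : ℝ) ^ (-(1 / 2) : ℝ) * ZZ ℓ) := by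
  have e : ∀ H, (TC ℓ M K H : ℝ) = ∑ n ∈ Ioc (H * K - 1) ((H + 1) * K - 1),
      (if (roughPart ℓ n).Prime ∧ M < n / roughPart ℓ n then (1 : ℝ) else 0) := by
    intro H
    unfold TC
    rw [← sum_filter, sum_const, nsmul_eq_mul, mul_one]
  simp only [e]
  rw [sum_levels _ h]
  have hM0 : (0 : ℝ) < M := by exact_mod_cast hM
  refine le_trans ?_ (large_smooth_count ℓ X hM0)
  rw [← sum_filter, sum_const, nsmul_eq_mul, mul_one]
  have : ((Ioc (H0 * K - 1) (H1 * K - 1)).filter (fun n => (roughPart ℓ n).Prime ∧ M < n / roughPart ℓ n)).card ≤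
      ((Icc 1 X).filter (fun m => (roughPart ℓ m).Prime ∧ (M : ℝ) ≤ ((m / roughPart ℓ m : ℕ) : ℝ))).card := by
    apply card_le_card
    intro n hn
    rw [mem_filter, mem_Ioc] at hn
    rw [mem_filter, mem_Icc]
    refine ⟨⟨by omega, by omega⟩, hn.2.1, ?_⟩
    exact_mod_cast hn.2.2.le
  exact_mod_cast this

end Pool.Agent.H176M
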