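import Mathlib
import Pool.Agent.H176M.Rgh3
import Pool.Agent.H305R2.Mean

set_option autoImplicit false

/-!
# The conditional means given the leading digits
-/

namespace Pool.Agent.H176M

open Finset Filter MeasureTheory
open Pool.Agent.H305R2 (roughPart SM SMz SM_pos mem_SMz VV sum_le_VV NN ff FF FF_sub FF_mono FF_sub_le LL LL_eq
  LL_nonneg LL_le_one ff_nonneg ff_le_one measurable_ff integrableOn_ff mem_Ioc_log)
open Pool.Agent.W66 (VV_le_log)

/-- the integral over the unit cell of an integer -/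
lemma cell (ℓ n : ℕ) (hn : 1 ≤ n) : FF ℓ (Real.log ((n + 1 : ℕ) : ℝ)) - FF ℓ (Real.log n) =
    (if (roughPart ℓ n).Prime then 1 else 0) * (Real.log ((n + 1 : ℕ) : ℝ) - Real.log n) := by
  have hn0 : (0 : ℝ) < n := by exact_mod_cast hn
  have hle : Real.log n ≤ Real.log ((n + 1 : ℕ) : ℝ) := Real.log_le_log hn0 (by push_cast; linarith)
  rw [FF_sub ℓ hle]
  have h1 : ∀ t ∈ Set.Ioc (Real.log n) (Real.log ((n + 1 : ℕ) : ℝ)),
      ff ℓ t = if (roughPart ℓ n).Prime then 1 else 0 := by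
    intro t ht
    have h2 := (mem_Ioc_log hn).1 ht
    unfold ff
    rw [h2]
  rw [setIntegral_congr_fun measurableSet_Ioc h1, setIntegral_const, smul_eq_mul,
    Real.volume_real_Ioc_of_le hle]
  ring

lemma cells (ℓ a : ℕ) (ha : 1 ≤ a) (b : ℕ) (hab : a ≤ b) : FF ℓ (Real.log b) - FF ℓ (Real.log a) =
    ∑ n ∈ Ico a b, (if (roughPart ℓ n).Prime then 1 else 0) * (Real.log ((n + 1 : ℕ) : ℝ) - Real.log n) := by
  induction b, hab using Nat.le_induction with
  | base => simp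
  | succ b hb ih =>
    rw [Finset.sum_Ico_succ_top hb, ← ih, ← cell ℓ b (by omega)]
    ring

/-- the integral over the cell of a prefix -/
lemma prefix_cell {ℓ K H : ℕ} (hH : 1 ≤ H) (hK : 1 ≤ K) :
    |(FF ℓ (Real.log (((H + 1) * K : ℕ) : ℝ)) - FF ℓ (Real.log ((H * K : ℕ) : ℝ))) -
      (RC ℓ K H : ℝ) / (H * K)| ≤ 1 / (H : ℝ) ^ 2 := by
  have hHK : 1 ≤ H * K := Nat.one_le_iff_ne_zero.2 (by positivity)
  have hle : H * K ≤ (H + 1) * K := Nat.mul_le_mul_right _ (by omega)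
  rw [cells ℓ (H * K) hHK ((H + 1) * K) hle]
  have hK0 : (0 : ℝ) < K := by exact_mod_cast hK
  have hH0 : (0 : ℝ) < H := by exact_mod_cast hH
  have hRC : (RC ℓ K H : ℝ) = ∑ n ∈ Ico (H * K) ((H + 1) * K), (if (roughPart ℓ n).Prime then (1 : ℝ) else 0) := by
    unfold RC
    rw [← sum_filter, sum_const, nsmul_eq_mul, mul_one]
    congr 3
    ext x
    rw [mem_Ioc, mem_Ico]
    omega
  have hRCK : (RC ℓ K H : ℝ) ≤ K := by
    have : RC ℓ K H ≤ K := by
      unfold RC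
      refine (card_filter_le _ _).trans ?_
      rw [Nat.card_Ioc]
      have : (H + 1) * K = H * K + K := by ring
      omega
    exact_mod_cast this
  have hRC0 : (0 : ℝ) ≤ RC ℓ K H := Nat.cast_nonneg _
  have hup : ∑ n ∈ Ico (H * K) ((H + 1) * K), (if (roughPart ℓ n).Prime then (1 : ℝ) else 0) *
      (Real.log ((n + 1 : ℕ) : ℝ) - Real.log n) ≤ (RC ℓ K H : ℝ) / (H * K) := by
    rw [hRC, sum_div]
    refine sum_le_sum fun n hn => ?_
    rw [mem_Ico] at hn
    have hn0 : (0 : ℝ) < n := by exact_mod_cast (by omega : 0 < n)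
    have h1 : Real.log ((n + 1 : ℕ) : ℝ) - Real.log n ≤ 1 / (H * K) := by
      rw [← Real.log_div (by positivity) hn0.ne']
      refine (Real.log_le_sub_one_of_pos (by positivity)).trans ?_
      have h2 : ((n + 1 : ℕ) : ℝ) / n - 1 = 1 / n := by push_cast; field_simp; ring
      rw [h2]
      apply one_div_le_one_div_of_le (by positivity)
      exact_mod_cast hn.1
    rw [div_eq_mul_one_div]
    refine mul_le_mul_of_nonneg_left h1 ?_
    split_ifs <;> norm_num
  have hlo : (RC ℓ K H : ℝ) / ((H + 1) * K) ≤ ∑ n ∈ Ico (H * K) ((H + 1) * K),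
      (if (roughPart ℓ n).Prime then (1 : ℝ) else 0) * (Real.log ((n + 1 : ℕ) : ℝ) - Real.log n) := by
    rw [hRC, sum_div]
    refine sum_le_sum fun n hn => ?_
    rw [mem_Ico] at hn
    have hn0 : (0 : ℝ) < n := by exact_mod_cast (by omega : 0 < n)
    have h1 : 1 / (((H : ℝ) + 1) * K) ≤ Real.log ((n + 1 : ℕ) : ℝ) - Real.log n := by
      rw [← Real.log_div (by positivity) hn0.ne']
      refine le_trans ?_ (Real.one_sub_inv_le_log_of_pos (by positivity))
      have h2 : 1 - (((n + 1 : ℕ) : ℝ) / n)⁻¹ = 1 / ((n : ℝ) + 1) := by push_cast; field_simp; ring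
      rw [h2]
      apply one_div_le_one_div_of_le (by positivity)
      have : n + 1 ≤ (H + 1) * K := by omega
      exact_mod_cast this
    rw [div_eq_mul_one_div]
    refine mul_le_mul_of_nonneg_left h1 ?_
    split_ifs <;> norm_num
  have hdiff : (RC ℓ K H : ℝ) / (H * K) - (RC ℓ K H : ℝ) / ((H + 1) * K) ≤ 1 / (H : ℝ) ^ 2 := by
    have e1 : (RC ℓ K H : ℝ) / (H * K) - (RC ℓ K H : ℝ) / ((H + 1) * K) = (RC ℓ K H : ℝ) / (H * (H + 1) * K) := by
      field_simp
      ring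
    rw [e1, div_le_div_iff₀ (by positivity) (by positivity)]
    have h1 : (RC ℓ K H : ℝ) * (H : ℝ) ^ 2 ≤ K * (H : ℝ) ^ 2 := mul_le_mul_of_nonneg_right hRCK (by positivity)
    have h2 : (K : ℝ) * (H : ℝ) ^ 2 ≤ 1 * (H * (H + 1) * K) := by nlinarith [mul_pos hK0 hH0]
    linarith
  rw [abs_le]
  constructor <;> linarith

/-- the density is at most `C log ℓ / ℓ`, and varies slowly -/
lemma nu_bounds (ε : ℝ) (hε : 0 < ε) (hε1 : ε ≤ 1 / 12) (c : ℕ) : ∃ C : ℝ, 0 < C ∧ ∃ L₀ : ℕ, ∀ ℓ : ℕ, L₀ ≤ ℓ →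
    ∀ K H : ℕ, 2 ^ ℓ ≤ 2 ^ c * (H * K) →
    (0 ≤ nu ℓ (Mb ε ℓ) K H ∧ nu ℓ (Mb ε ℓ) K H ≤ C * (Real.log ℓ / ℓ)) ∧
    ∀ H' : ℕ, 2 ^ ℓ ≤ 2 ^ c * (H' * K) → H ≤ 100 * H' → H' ≤ 100 * H →
      |nu ℓ (Mb ε ℓ) K H - nu ℓ (Mb ε ℓ) K H'| ≤ C * (Real.log ℓ / (ℓ : ℝ) ^ 2) := by
  obtain ⟨CV, hCV, hVev⟩ := VV_le_log
  obtain ⟨L₁, hL⟩ := eventually_atTop.1 (hVev.and (tendsto_natCast_atTop_atTop.eventually_ge_atTop
    (16 * (c : ℝ) + 100)))
  refine ⟨16 * CV * 5, by positivity, L₁ + 1, fun ℓ hℓ K H hH => ?_⟩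
  obtain ⟨l1, l2⟩ := hL ℓ (by omega)
  have hℓ0 : (0 : ℝ) < ℓ := by exact_mod_cast (by omega : 0 < ℓ)
  have hc0 : (0 : ℝ) ≤ c := Nat.cast_nonneg c
  -- lower bound of the logarithms
  have hlog : ∀ H' : ℕ, 2 ^ ℓ ≤ 2 ^ c * (H' * K) → ∀ s ∈ SMz ℓ ((Mb ε ℓ : ℕ) : ℝ),
      (0 : ℝ) < s ∧ (ℓ : ℝ) / 4 ≤ Real.log ((H' : ℝ) * K / s) ∧ (0 : ℝ) < H' ∧ (0 : ℝ) < K := by
    intro H' hH' s hs
    rw [mem_SMz (by positivity)] at hs
    have hs0 : (0 : ℝ) < s := by exact_mod_cast SM_pos hs.1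
    have h1 : ((2 ^ ℓ : ℕ) : ℝ) ≤ ((2 ^ c * (H' * K) : ℕ) : ℝ) := by exact_mod_cast hH'
    push_cast at h1
    have h3 : (0 : ℝ) < (H' : ℝ) * K := by
      by_contra hcon
      have : (H' : ℝ) * K = 0 := le_antisymm (not_lt.1 hcon) (by positivity)
      rw [this, mul_zero] at h1
      have : (0 : ℝ) < 2 ^ ℓ := by positivity
      linarith
    have hH'0 : (0 : ℝ) < H' := by
      by_contra hcon
      have : (H' : ℝ) = 0 := le_antisymm (not_lt.1 hcon) (by positivity)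
      rw [this, zero_mul] at h3
      exact lt_irrefl _ h3
    have hK0 : (0 : ℝ) < K := pos_of_mul_pos_right h3 hH'0.le
    refine ⟨hs0, ?_, hH'0, hK0⟩
    have h2 : (s : ℝ) ≤ 2 ^ ((1 / 48 : ℝ) * ℓ) := by
      refine hs.2.trans ?_
      unfold Mb
      push_cast
      rw [two_pow_cast]
      apply Real.rpow_le_rpow_of_exponent_le (by norm_num)
      refine (Nat.floor_le (by positivity)).trans ?_
      have : ε * ℓ ≤ 1 / 12 * ℓ := mul_le_mul_of_nonneg_right hε1 hℓ0.le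
      linarith
    have h4 : (2 : ℝ) ^ ((ℓ : ℝ) / 2) ≤ (H' : ℝ) * K / s := by
      rw [le_div_iff₀ hs0]
      have h5 : (2 : ℝ) ^ ((ℓ : ℝ) - c) ≤ (H' : ℝ) * K := by
        rw [Real.rpow_sub (by norm_num), Real.rpow_natCast, Real.rpow_natCast, div_le_iff₀ (by positivity)]
        linarith
      calc (2 : ℝ) ^ ((ℓ : ℝ) / 2) * s ≤ 2 ^ ((ℓ : ℝ) / 2) * 2 ^ ((1 / 48 : ℝ) * ℓ) :=
            mul_le_mul_of_nonneg_left h2 (by positivity)
        _ = 2 ^ ((ℓ : ℝ) / 2 + (1 / 48 : ℝ) * ℓ) := by rw [← Real.rpow_add (by norm_num)]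
        _ ≤ 2 ^ ((ℓ : ℝ) - c) := by
            apply Real.rpow_le_rpow_of_exponent_le (by norm_num)
            linarith
        _ ≤ (H' : ℝ) * K := h5
    have h6 := Real.log_le_log (by positivity) h4
    rw [Real.log_rpow (by norm_num)] at h6
    have h7 := Real.log_two_gt_d9
    nlinarith
  have hVV : ∑ s ∈ SMz ℓ ((Mb ε ℓ : ℕ) : ℝ), (s : ℝ)⁻¹ ≤ CV * Real.log ℓ :=
    (sum_le_VV ℓ _ fun n hn => ((mem_SMz (by positivity)).1 hn).1).trans l1
  have hll : 0 ≤ Real.log ℓ := Real.log_natCast_nonneg ℓ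
  refine ⟨⟨?_, ?_⟩, ?_⟩
  · unfold nu
    refine sum_nonneg fun s hs => ?_
    obtain ⟨g1, g2, _, _⟩ := hlog H hH s hs
    have : 0 ≤ Real.log ((H : ℝ) * K / s) := by linarith [show (0:ℝ) < (ℓ : ℝ) / 4 by positivity]
    positivity
  · unfold nu
    calc ∑ s ∈ SMz ℓ ((Mb ε ℓ : ℕ) : ℝ), 1 / ((s : ℝ) * Real.log ((H : ℝ) * K / s)) ≤
          ∑ s ∈ SMz ℓ ((Mb ε ℓ : ℕ) : ℝ), (4 / (ℓ : ℝ)) * (s : ℝ)⁻¹ := by
          refine sum_le_sum fun s hs => ?_
          obtain ⟨g1, g2, _, _⟩ := hlog H hH s hs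
          have e1 : (4 / (ℓ : ℝ)) * (s : ℝ)⁻¹ = 1 / (s * ((ℓ : ℝ) / 4)) := by field_simp
          rw [e1]
          apply one_div_le_one_div_of_le (by positivity)
          exact mul_le_mul_of_nonneg_left g2 g1.le
      _ = (4 / (ℓ : ℝ)) * ∑ s ∈ SMz ℓ ((Mb ε ℓ : ℕ) : ℝ), (s : ℝ)⁻¹ := by rw [mul_sum]
      _ ≤ (4 / (ℓ : ℝ)) * (CV * Real.log ℓ) := mul_le_mul_of_nonneg_left hVV (by positivity)
      _ = 4 * CV * (Real.log ℓ / ℓ) := by ring
      _ ≤ 16 * CV * 5 * (Real.log ℓ / ℓ) := by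
          apply mul_le_mul_of_nonneg_right _ (by positivity)
          nlinarith
  · intro H' hH' hHH hHH'
    unfold nu
    rw [← sum_sub_distrib]
    refine (abs_sum_le_sum_abs _ _).trans ?_
    calc ∑ s ∈ SMz ℓ ((Mb ε ℓ : ℕ) : ℝ), |1 / ((s : ℝ) * Real.log ((H : ℝ) * K / s)) -
          1 / ((s : ℝ) * Real.log ((H' : ℝ) * K / s))| ≤
          ∑ s ∈ SMz ℓ ((Mb ε ℓ : ℕ) : ℝ), (16 * 5 / (ℓ : ℝ) ^ 2) * (s : ℝ)⁻¹ := by
          refine sum_le_sum fun s hs => ?_
          obtain ⟨g1, g2, g3, g4⟩ := hlog H hH s hs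
          obtain ⟨_, f2, f3, _⟩ := hlog H' hH' s hs
          set a := Real.log ((H : ℝ) * K / s) with ha
          set b := Real.log ((H' : ℝ) * K / s) with hb
          have hq : (0 : ℝ) < (ℓ : ℝ) / 4 := by positivity
          have ha0 : 0 < a := by linarith
          have hb0 : 0 < b := by linarith
          have hab : |b - a| ≤ 5 := by
            have e1 : b - a = Real.log (H' / H) := by
              rw [hb, ha, ← Real.log_div (by positivity) (by positivity)]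
              congr 1
              field_simp
            have hl100 : Real.log 100 ≤ 5 := by
              rw [Real.log_le_iff_le_exp (by norm_num)]
              have h1 := Real.exp_one_gt_d9
              have h2 : (2.7 : ℝ) ^ 5 ≤ Real.exp 1 ^ 5 := pow_le_pow_left₀ (by norm_num) (by linarith) 5
              rw [← Real.exp_nat_mul] at h2
              norm_num at h2
              linarith
            rw [e1, abs_le]
            constructor
            · have h1 : -Real.log 100 ≤ Real.log (H' / H) := by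
                rw [← Real.log_inv]
                apply Real.log_le_log (by norm_num)
                rw [le_div_iff₀ g3]
                have : (H : ℝ) ≤ 100 * H' := by exact_mod_cast hHH
                linarith
              linarith
            · have h1 : Real.log (H' / H) ≤ Real.log 100 := by
                apply Real.log_le_log (by positivity)
                rw [div_le_iff₀ g3]
                exact_mod_cast hHH'
              linarith
          have e2 : 1 / ((s : ℝ) * a) - 1 / ((s : ℝ) * b) = (b - a) / (s * (a * b)) := by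
            field_simp
          rw [e2, abs_div, abs_of_pos (by positivity : (0 : ℝ) < s * (a * b))]
          have h3 : ((ℓ : ℝ) / 4) * (ℓ / 4) ≤ a * b := mul_le_mul g2 f2 hq.le ha0.le
          calc |b - a| / (s * (a * b)) ≤ 5 / (s * (((ℓ : ℝ) / 4) * (ℓ / 4))) := by
                apply div_le_div₀ (by norm_num) hab (by positivity)
                exact mul_le_mul_of_nonneg_left h3 g1.le
            _ = _ := by field_simp; ring
      _ = (16 * 5 / (ℓ : ℝ) ^ 2) * ∑ s ∈ SMz ℓ ((Mb ε ℓ : ℕ) : ℝ), (s : ℝ)⁻¹ := by rw [mul_sum]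
      _ ≤ (16 * 5 / (ℓ : ℝ) ^ 2) * (CV * Real.log ℓ) := mul_le_mul_of_nonneg_left hVV (by positivity)
      _ = _ := by ring

end Pool.Agent.H176M
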