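import Pool.Agent.helper24_UT.Ch1
import Pool.Agent.helper24_UT.Hb
import Pool.Agent.helper24_UT.Vdc2
import Pool.Agent.helper24_UT.Ii13
import Pool.Agent.helper24_UT.Ti13
import Pool.Agent.helper24_UT.I213
import Pool.Agent.helper24_UT.Frl13
import Pool.Agent.helper24_UT.Fr13
import Pool.Agent.helper24_UT.Sil13
import Pool.Agent.helper24_UT.Win

set_option autoImplicit false

/-!
Primes in almost all intervals of length `X ^ (1 / 3 + ε)` (project UT of helper24), with the imports
reduced to what is needed.
-/

namespace Pool.Agent.H176M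

open Pool.Agent.helper24_UT Pool.Agent.helper24_UT.Ch

theorem sil13 : S_SIL13 :=
  Sil13.main Win.main (Fr13.main (Frl13.main Hb.main (Ii13.main t_MAP t_T1) Ti13.main
    (I213.main Vdc2.main)))

end Pool.Agent.H176M
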