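import Mathlib
import Pool.Agent.H176M.Sil
import Pool.Agent.H176M.Shr

set_option autoImplicit false

/-!
# Primes in almost all short intervals, real form
-/

namespace Pool.Agent.H176M

open Finset
open Pool.Agent.helper24_UT

lemma pdev_one (n : ℕ) : pdev 1 0 n = ((dv n : ℝ) : ℂ) := by
  unfold pdev dv
  simp [Nat.mod_one]

theorem silS : SilS := by
  intro e A he
  obtain ⟨X₀, h⟩ := sil13 e A 0 he
  refine ⟨X₀, fun X hX W hW hWX => ?_⟩
  have h1 := h X hX 1 0 le_rfl (by simp) (by simp) W hW hWX
  refine le_trans (le_of_eq ?_) h1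
  refine sum_congr rfl fun u _ => ?_
  simp only [pdev_one]
  rw [← Complex.ofReal_sum, Complex.norm_real, Real.norm_eq_abs, sq_abs]

end Pool.Agent.H176M
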