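import Mathlib
import Pool.Agent.H176M.Cnd
import Pool.Agent.H176M.SilS
import Pool.Agent.TH888.R.Base

set_option autoImplicit false

/-!
# Correlations of distant exponents
-/

namespace Pool.Agent.H176M

open Finset Filter MeasureTheory
open Pool.Agent.H305R2 (roughPart NN ff FF FF_sub FF_mono FF_sub_le LL LL_eq LL_cont
  LL_nonneg LL_le_one ff_nonneg ff_le_one measurable_ff integrableOn_ff measurable_NN)
open Pool.Agent.W66X (ysh)
open Pool.Agent.TH888.R (wt)

lemma le_NN_iff {n : ℕ} {t : ℝ} : n ≤ NN t ↔ (n : ℝ) < Real.exp t := by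
  unfold NN
  have h0 : 0 < ⌈Real.exp t⌉₊ := Nat.ceil_pos.2 (Real.exp_pos t)
  rw [← Nat.lt_ceil]
  omega

lemma exp_add_two (t : ℝ) (k : ℕ) : Real.exp (t + k * Real.log 2) = Real.exp t * 2 ^ k := by
  rw [Real.exp_add, Real.exp_nat_mul, Real.exp_log (by norm_num)]

lemma NN_div (t : ℝ) (k : ℕ) : NN (t + k * Real.log 2) / 2 ^ k = NN t := by
  have hk : 0 < 2 ^ k := by positivity
  apply le_antisymm
  · rw [le_NN_iff]
    have h1 : NN (t + k * Real.log 2) / 2 ^ k * 2 ^ k ≤ NN (t + k * Real.log 2) := Nat.div_mul_le_self _ _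
    rw [le_NN_iff, exp_add_two] at h1
    push_cast at h1
    exact lt_of_mul_lt_mul_right h1 (by positivity)
  · rw [Nat.le_div_iff_mul_le hk, le_NN_iff, exp_add_two]
    push_cast
    have := (le_NN_iff (n := NN t)).1 le_rfl
    exact mul_lt_mul_of_pos_right this (by positivity)

lemma LL_lip (p : ℕ) {u v : ℝ} (h : u ≤ v) : |LL p v - LL p u| ≤ v - u := by
  have h1 := FF_sub_le p h
  have h2 := FF_mono p h
  have h3 := FF_sub_le p (show u + 1 ≤ v + 1 by linarith)
  have h4 := FF_mono p (show u + 1 ≤ v + 1 by linarith)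
  rw [LL_eq, LL_eq, abs_le]
  constructor <;> linarith

/-- the centred indicator of the event that the `p`-rough part is prime -/
noncomputable def gc (p : ℕ) (t : ℝ) : ℝ := ff p (t + p * Real.log 2) - LL p (t + p * Real.log 2)

lemma gc_meas (p : ℕ) : Measurable (gc p) :=
  ((measurable_ff p).comp (measurable_id.add_const _)).sub
    ((LL_cont p).measurable.comp (measurable_id.add_const _))

lemma gc_abs (p : ℕ) (t : ℝ) : |gc p t| ≤ 1 := by
  unfold gc
  rw [abs_le]
  constructor <;> linarith [ff_nonneg p (t + p * Real.log 2), ff_le_one p (t + p * Real.log 2),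
    LL_nonneg p (t + p * Real.log 2), LL_le_one p (t + p * Real.log 2)]

lemma intOn_of_bdd {F : ℝ → ℝ} (hm : Measurable F) {B : ℝ} (hB : ∀ t, |F t| ≤ B) (a b : ℝ) :
    IntegrableOn F (Set.Ioc a b) :=
  Measure.integrableOn_of_bounded (M := B) (by simp) hm.aestronglyMeasurable
    (Eventually.of_forall (fun t => by rw [Real.norm_eq_abs]; exact hB t))

lemma abs_setint_le {F : ℝ → ℝ} {B a b : ℝ} (hab : a ≤ b) (hB : ∀ t ∈ Set.Ioc a b, |F t| ≤ B) :
    |∫ t in Set.Ioc a b, F t| ≤ B * (b - a) := by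
  have h := norm_setIntegral_le_of_norm_le_const (μ := volume) (s := Set.Ioc a b) (f := F) (C := B)
    (by simp) (fun t ht => by rw [Real.norm_eq_abs]; exact hB t ht)
  rw [Real.norm_eq_abs, Real.volume_real_Ioc_of_le hab] at h
  exact h

/-- the prefix determines the earlier indicators -/
lemma ff_prefix {p r : ℕ} (hpr : p ≤ r) (t : ℝ) :
    ff p (t + p * Real.log 2) =
      if (roughPart p (NN (t + r * Real.log 2) / 2 ^ (r - p))).Prime then 1 else 0 := by
  have h := NN_div (t + p * Real.log 2) (r - p)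
  have e : t + p * Real.log 2 + ((r - p : ℕ) : ℝ) * Real.log 2 = t + r * Real.log 2 := by
    rw [Nat.cast_sub hpr]; ring
  rw [e] at h
  rw [h]
  rfl

lemma far (hS : SilS) (b0 : ℝ) : ∃ K : ℝ, 0 < K ∧ ∃ P : ℕ, 3 ≤ P ∧ ∀ q ≥ P, ∀ p : ℕ, 2 * p ≤ q →
    |∫ t in Set.Ioc b0 (b0 + 1), gc p t * gc q t| ≤ K * (Real.log q / (q : ℝ) ^ 2) := by
  obtain ⟨C, hC, L, h⟩ := cond_int hS (1 / 12) (by norm_num) le_rfl b0 2
  refine ⟨2 * C + 2, by positivity, L + ⌈4 * (|b0| + 1)⌉₊ + 12, by omega, fun q hq p hp => ?_⟩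
  obtain ⟨r1, h2, h3⟩ := h q (by omega)
  set r := rr (1 / 12) q with hr
  have hq12 : (12 : ℝ) ≤ q := by exact_mod_cast (by omega : 12 ≤ q)
  have hq0 : (0 : ℝ) < q := by linarith
  have hqb : 4 * (|b0| + 1) ≤ q := by
    refine (Nat.le_ceil _).trans ?_
    exact_mod_cast (by omega : ⌈4 * (|b0| + 1)⌉₊ ≤ q)
  have hrq : (q : ℝ) / 2 ≤ r := by
    have h5 : ((2 / 3 - 1 / 12) * (q : ℝ)) < (rr (1 / 12) q : ℝ) + 1 := by
      unfold rr
      exact Nat.lt_floor_add_one _
    rw [hr]
    linarith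
  have hpr : p ≤ r := by
    have : (p : ℝ) ≤ q / 2 := by
      have : ((2 * p : ℕ) : ℝ) ≤ q := by exact_mod_cast hp
      push_cast at this
      linarith
    exact_mod_cast this.trans hrq
  set φ : ℕ → ℝ := fun n => (if (roughPart p (n / 2 ^ (r - p))).Prime then (1 : ℝ) else 0) -
    LL p (xx r n + p * Real.log 2) with hφ
  have hφ1 : ∀ n, |φ n| ≤ 1 := by
    intro n
    simp only [hφ]
    have a1 := LL_nonneg p (xx r n + p * Real.log 2)
    have a2 := LL_le_one p (xx r n + p * Real.log 2)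
    rw [abs_le]
    split_ifs <;> constructor <;> linarith
  have h4 := h3 (b0 + 1) (by linarith) le_rfl φ 1 hφ1
  have h4' : |∫ t in Set.Ioc b0 (b0 + 1), φ (NN (t + r * Real.log 2)) * gc q t| ≤
      C * (1 / (q : ℝ) ^ 2) + C * (Real.log q / (q : ℝ) ^ 2) *
        ∫ t in Set.Ioc b0 (b0 + 1), |φ (NN (t + r * Real.log 2))| := h4
  have hlog := log_div_sq_ge (ℓ := q) (by omega)
  have hδ0 : 0 ≤ Real.log q / (q : ℝ) ^ 2 := by
    have : 0 ≤ 1 / (q : ℝ) ^ 2 := by positivity
    linarith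
  have hint : ∫ t in Set.Ioc b0 (b0 + 1), |φ (NN (t + r * Real.log 2))| ≤ 1 := by
    have h5 := abs_setint_le (F := fun t => |φ (NN (t + r * Real.log 2))|) (B := 1)
      (show b0 ≤ b0 + 1 by linarith) (fun t _ => by rw [abs_abs]; exact hφ1 _)
    have h6 := le_abs_self (∫ t in Set.Ioc b0 (b0 + 1), |φ (NN (t + r * Real.log 2))|)
    linarith
  have hmain : |∫ t in Set.Ioc b0 (b0 + 1), φ (NN (t + r * Real.log 2)) * gc q t| ≤
      2 * C * (Real.log q / (q : ℝ) ^ 2) := by
    have h6 : C * (Real.log q / (q : ℝ) ^ 2) * ∫ t in Set.Ioc b0 (b0 + 1), |φ (NN (t + r * Real.log 2))| ≤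
        C * (Real.log q / (q : ℝ) ^ 2) * 1 := mul_le_mul_of_nonneg_left hint (by positivity)
    have h7 : C * (1 / (q : ℝ) ^ 2) ≤ C * (Real.log q / (q : ℝ) ^ 2) := mul_le_mul_of_nonneg_left hlog hC.le
    linarith
  -- the difference
  have hNm : Measurable (fun t : ℝ => φ (NN (t + r * Real.log 2))) :=
    (measurable_from_nat (f := φ)).comp (measurable_NN.comp (measurable_id.add_const _))
  have i1 : IntegrableOn (fun t => gc p t * gc q t) (Set.Ioc b0 (b0 + 1)) :=
    intOn_of_bdd (F := fun t => gc p t * gc q t) ((gc_meas p).mul (gc_meas q)) (B := 1) (fun t => by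
      rw [abs_mul]
      have := gc_abs p t
      have := gc_abs q t
      have := abs_nonneg (gc p t)
      have := abs_nonneg (gc q t)
      nlinarith) _ _
  have i2 : IntegrableOn (fun t => φ (NN (t + r * Real.log 2)) * gc q t) (Set.Ioc b0 (b0 + 1)) :=
    intOn_of_bdd (F := fun t => φ (NN (t + r * Real.log 2)) * gc q t) (hNm.mul (gc_meas q)) (B := 1) (fun t => by
      rw [abs_mul]
      have := hφ1 (NN (t + r * Real.log 2))
      have := gc_abs q t
      have := abs_nonneg (φ (NN (t + r * Real.log 2)))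
      have := abs_nonneg (gc q t)
      nlinarith) _ _
  have hdiff : |∫ t in Set.Ioc b0 (b0 + 1), (gc p t * gc q t - φ (NN (t + r * Real.log 2)) * gc q t)| ≤
      1 / (q : ℝ) ^ 3 * (b0 + 1 - b0) := by
    refine abs_setint_le (by linarith) fun t ht => ?_
    have ht' : t ∈ Set.Icc b0 (b0 + 1) := ⟨ht.1.le, ht.2⟩
    have hN := h2 t ht'
    have hN1 : 1 ≤ NN (t + r * Real.log 2) := by
      rw [le_NN_iff, Nat.cast_one, Real.one_lt_exp_iff]
      have h9 := Real.log_two_gt_d9
      have h10 : (r : ℝ) * Real.log 2 ≥ q / 2 * 0.69 := by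
        have h11 : (0.69 : ℝ) ≤ Real.log 2 := by linarith
        calc (q : ℝ) / 2 * 0.69 ≤ r * 0.69 := by nlinarith
          _ ≤ _ := mul_le_mul_of_nonneg_left h11 (by positivity)
      have h12 := neg_abs_le b0
      have h13 := abs_nonneg b0
      have := ht.1
      linarith
    obtain ⟨e1, e2⟩ := xx_bounds hN1
    obtain ⟨s1, s2, _⟩ := xx_step (r := r) hN1
    have e3 : gc p t - φ (NN (t + r * Real.log 2)) =
        -(LL p (t + p * Real.log 2) - LL p (xx r (NN (t + r * Real.log 2)) + p * Real.log 2)) := by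
      simp only [hφ]
      unfold gc
      rw [ff_prefix hpr t]
      ring
    have e4 := LL_lip p (show xx r (NN (t + r * Real.log 2)) + p * Real.log 2 ≤ t + p * Real.log 2 by linarith)
    rw [← sub_mul, abs_mul, e3, abs_neg]
    have e5 : |LL p (t + p * Real.log 2) - LL p (xx r (NN (t + r * Real.log 2)) + p * Real.log 2)| ≤
        1 / (q : ℝ) ^ 3 := by
      refine e4.trans ?_
      have : 1 / (NN (t + r * Real.log 2) : ℝ) ≤ 1 / (q : ℝ) ^ 3 := hN
      linarith
    calc _ ≤ 1 / (q : ℝ) ^ 3 * 1 := mul_le_mul e5 (gc_abs q t) (abs_nonneg _) (by positivity)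
      _ = _ := mul_one _
  rw [integral_sub i1 i2] at hdiff
  have hq3 : 1 / (q : ℝ) ^ 3 ≤ Real.log q / (q : ℝ) ^ 2 := by
    refine le_trans ?_ hlog
    apply one_div_le_one_div_of_le (by positivity)
    exact pow_le_pow_right₀ (by linarith) (by norm_num)
  have h20 : |∫ t in Set.Ioc b0 (b0 + 1), gc p t * gc q t| ≤
      |∫ t in Set.Ioc b0 (b0 + 1), φ (NN (t + r * Real.log 2)) * gc q t| +
      |(∫ t in Set.Ioc b0 (b0 + 1), gc p t * gc q t) -
        ∫ t in Set.Ioc b0 (b0 + 1), φ (NN (t + r * Real.log 2)) * gc q t| := by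
    have := abs_add_le (∫ t in Set.Ioc b0 (b0 + 1), φ (NN (t + r * Real.log 2)) * gc q t)
      ((∫ t in Set.Ioc b0 (b0 + 1), gc p t * gc q t) -
        ∫ t in Set.Ioc b0 (b0 + 1), φ (NN (t + r * Real.log 2)) * gc q t)
    rwa [add_sub_cancel] at this
  have h21 : 1 / (q : ℝ) ^ 3 * (b0 + 1 - b0) = 1 / (q : ℝ) ^ 3 := by ring
  rw [h21] at hdiff
  linarith

lemma ysh_two (p : ℕ) (t : ℝ) : ysh (2 : ℝ) (fun _ => 0) p t = t + p * Real.log 2 := by
  unfold ysh
  rw [add_zero, ← exp_add_two, Real.log_exp]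

/-- the system in base two -/
lemma sys_two (b0 : ℝ) : Pool.Agent.TH888.R.Sys (volume.restrict (Set.Ioc b0 (b0 + 1)))
    (fun p t => ff p (t + p * Real.log 2)) (fun p t => LL p (t + p * Real.log 2))
    (fun _ => Real.exp Real.eulerMascheroniConstant / Real.log 2) := by
  have hg : ∀ p : ℕ, |(fun _ : ℕ => (0 : ℝ)) p| ≤ (0 : ℝ) * (1 : ℝ) ^ p := by simp
  have h := Pool.Agent.TH888.R.sys_ysh (α := ((2 : ℕ) : ℝ)) (κ := 1) (C := 0) (g := fun _ => 0)
    (by norm_num) (by norm_num) (by norm_num) hg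
    (Pool.Agent.TH888.R.near_base (b := 2) le_rfl (by norm_num) (by norm_num) hg) b0
  simp only [Nat.cast_ofNat, ysh_two] at h
  exact h

/-- **the row sums of the correlation matrix** -/
theorem rows (hS : SilS) (b0 : ℝ) : ∃ C : ℝ, 0 < C ∧ ∃ P : ℕ, 3 ≤ P ∧
    (∀ q ≥ P, q.Prime → ∫ t in Set.Ioc b0 (b0 + 1), (ff q (t + q * Real.log 2) - LL q (t + q * Real.log 2)) ^ 2 ≤
      C * wt q) ∧
    ∀ q ≥ P, q.Prime → ∀ T : Finset ℕ, (∀ p ∈ T, p.Prime ∧ P ≤ p ∧ p < q) →
      ∑ p ∈ T, |∫ t in Set.Ioc b0 (b0 + 1), (ff p (t + p * Real.log 2) - LL p (t + p * Real.log 2)) *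
        (ff q (t + q * Real.log 2) - LL q (t + q * Real.log 2))| ≤ C * wt q := by
  obtain ⟨κ, C, hκ, hC, P1, hP13, hdiag, hrow⟩ := (sys_two b0).row
  obtain ⟨K, hK, P2, hP2, hfar⟩ := far hS b0
  obtain ⟨C1, hC1, hcp⟩ := Pool.Agent.W66S.count_primes
  refine ⟨C * (1 + 2 * C1) + K, by positivity, P1 + P2, by omega, fun q hq hqp => ?_, fun q hq hqp T hT => ?_⟩
  · refine (hdiag q (by omega) hqp).trans ?_
    have := Pool.Agent.TH888.R.wt_nonneg q
    have : C ≤ C * (1 + 2 * C1) + K := by nlinarith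
    gcongr
  have hq3 : (3 : ℝ) ≤ q := by exact_mod_cast (by omega : 3 ≤ q)
  have hq0 : (0 : ℝ) < q := by linarith
  have hlq : 1 ≤ Real.log q := by
    rw [Real.le_log_iff_exp_le hq0]
    have := Real.exp_one_lt_d9
    linarith
  rw [← Finset.sum_filter_add_sum_filter_not T (fun p => 2 * p ≤ q)]
  have e1 : ∑ p ∈ T.filter (fun p => 2 * p ≤ q), |∫ t in Set.Ioc b0 (b0 + 1),
      (ff p (t + p * Real.log 2) - LL p (t + p * Real.log 2)) *
        (ff q (t + q * Real.log 2) - LL q (t + q * Real.log 2))| ≤ K * wt q := by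
    calc _ ≤ ∑ p ∈ T.filter (fun p => 2 * p ≤ q), K * (Real.log q / (q : ℝ) ^ 2) := by
          refine sum_le_sum fun p hp => ?_
          rw [mem_filter] at hp
          exact hfar q (by omega) p hp.2
      _ = ((T.filter (fun p => 2 * p ≤ q)).card : ℝ) * (K * (Real.log q / (q : ℝ) ^ 2)) := by
          rw [sum_const, nsmul_eq_mul]
      _ ≤ q * (K * (Real.log q / (q : ℝ) ^ 2)) := by
          apply mul_le_mul_of_nonneg_right _ (by positivity)
          have : (T.filter (fun p => 2 * p ≤ q)).card ≤ (range q).card := card_le_card fun p hp => by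
            rw [mem_filter] at hp
            exact mem_range.2 (hT p hp.1).2.2
          rw [card_range] at this
          exact_mod_cast this
      _ = K * wt q := by
          unfold wt
          field_simp
  set T' := T.filter (fun p => ¬ 2 * p ≤ q) with hT'
  have e2 := hrow q (by omega) hqp T' (fun p hp => by
    rw [hT', mem_filter] at hp
    obtain ⟨a1, a2, a3⟩ := hT p hp.1
    exact ⟨a1, by omega, a3⟩)
  have e3 : ∑ p ∈ T'.filter (fun p : ℕ => κ * q / Real.log q < (p : ℝ)), wt p ≤ 2 * C1 := by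
    calc _ ≤ ∑ p ∈ T', wt p := sum_le_sum_of_subset_of_nonneg (filter_subset _ _)
            fun p _ _ => Pool.Agent.TH888.R.wt_nonneg p
      _ ≤ ∑ p ∈ T', 2 * Real.log q / q := by
          refine sum_le_sum fun p hp => ?_
          rw [hT', mem_filter] at hp
          obtain ⟨a1, a2, a3⟩ := hT p hp.1
          have b1 : (q : ℝ) ≤ 2 * p := by exact_mod_cast (by omega : q ≤ 2 * p)
          have b2 : (p : ℝ) ≤ q := by exact_mod_cast a3.le
          have b3 : (0 : ℝ) < p := by exact_mod_cast a1.pos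
          unfold wt
          rw [div_le_div_iff₀ b3 hq0]
          have b4 : Real.log p ≤ Real.log q := Real.log_le_log b3 b2
          calc Real.log p * q ≤ Real.log q * (2 * p) := by gcongr
            _ = _ := by ring
      _ = (T'.card : ℝ) * (2 * Real.log q / q) := by rw [sum_const, nsmul_eq_mul]
      _ ≤ (C1 * q / Real.log q) * (2 * Real.log q / q) := by
          apply mul_le_mul_of_nonneg_right _ (by positivity)
          exact hcp q (by omega) T' fun p hp => by
            rw [hT', mem_filter] at hp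
            obtain ⟨a1, a2, a3⟩ := hT p hp.1
            exact ⟨a1, a3⟩
      _ = 2 * C1 := by field_simp
  have e4 : C * (wt q * (1 + ∑ p ∈ T'.filter (fun p : ℕ => κ * q / Real.log q < (p : ℝ)), wt p)) ≤
      C * (1 + 2 * C1) * wt q := by
    have := Pool.Agent.TH888.R.wt_nonneg q
    calc _ ≤ C * (wt q * (1 + 2 * C1)) := by gcongr
      _ = _ := by ring
  linarith

end Pool.Agent.H176M
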