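import Mathlib
import Pool.Agent.H176M.Far
import Pool.Agent.TH888.R.Asy

set_option autoImplicit false

/-!
# The law for every set of primes of divergent weight
-/

namespace Pool.Agent.H176M

open Finset Filter Topology MeasureTheory Asymptotics
open Pool.Agent.H305R2 (roughPart ff LL log_nat_tendsto)
open Pool.Agent.TH888.R (wt wt_nonneg wt_le_one gr gr_le gr_mono one_le_gr sqrt_le_gr Sys VS FS VS_nonneg
  VS_mono div_tail blocks inv_sum_le cS VS_univ_bound VS_univ_tendsto loglog_tendsto)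
open Pool.Agent.W66S (moment_rows)

variable {Ω : Type*} [MeasurableSpace Ω]

/-- a system whose correlation matrix has row sums bounded by the weight -/
structure Sys1 (μ : Measure Ω) (f m : ℕ → Ω → ℝ) (c : Ω → ℝ) : Prop where
  sys : Sys μ f m c
  row1 : ∃ C : ℝ, 0 < C ∧ ∃ P : ℕ, 3 ≤ P ∧
    (∀ q ≥ P, q.Prime → ∫ x, (f q x - m q x) ^ 2 ∂μ ≤ C * wt q) ∧
    ∀ q ≥ P, q.Prime → ∀ T : Finset ℕ, (∀ p ∈ T, p.Prime ∧ P ≤ p ∧ p < q) →
      ∑ p ∈ T, |∫ x, (f p x - m p x) * (f q x - m q x) ∂μ| ≤ C * wt q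

section

variable {μ : Measure Ω} [IsFiniteMeasure μ] {f m : ℕ → Ω → ℝ} {c : Ω → ℝ}

open Classical in
/-- the basic fluctuation bound -/
lemma Sys1.core (h : Sys μ f m c) {C : ℝ} {P : ℕ} (hC : 0 < C)
    (hdiag : ∀ q ≥ P, q.Prime → ∫ x, (f q x - m q x) ^ 2 ∂μ ≤ C * wt q)
    (hrow : ∀ q ≥ P, q.Prime → ∀ T : Finset ℕ, (∀ p ∈ T, p.Prime ∧ P ≤ p ∧ p < q) →
      ∑ p ∈ T, |∫ x, (f p x - m p x) * (f q x - m q x) ∂μ| ≤ C * wt q)
    {Km : ℝ} (hKm : 0 ≤ Km) (hmK : ∀ᵐ x ∂μ, ∀ q ≥ P, q.Prime → m q x ≤ Km * wt q)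
    (S : Set ℕ)
    (hdiv : Tendsto (fun n => ∑ q ∈ range n, if q ∈ S ∧ q.Prime ∧ P ≤ q then wt q else 0)
      atTop atTop) :
    ∀ᵐ x ∂μ, ∃ B : ℝ, 0 ≤ B ∧ ∀ n : ℕ,
      |∑ q ∈ range n, (if q ∈ S ∧ q.Prime ∧ P ≤ q then f q x - m q x else 0)| ≤
      B * gr (∑ q ∈ range n, if q ∈ S ∧ q.Prime ∧ P ≤ q then wt q else 0) := by
  set cd : ℕ → Prop := fun q => q ∈ S ∧ q.Prime ∧ P ≤ q with hcd
  have key := blocks (μ := μ) (f := fun q x => if cd q then f q x else 0)
    (m := fun q x => if cd q then m q x else 0) (φ := fun q => if cd q then wt q else 0)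
    (B0 := 1) (K := Km) (C := 5 * C)
    (fun q => by
      split_ifs
      · exact wt_nonneg q
      · exact le_rfl)
    (fun q => by
      split_ifs with hq
      · exact wt_le_one q
      · norm_num)
    hdiv hKm (by positivity)
    (fun q => by
      by_cases hq : cd q
      · simp only [if_pos hq]; exact h.fm q
      · simp only [if_neg hq]; exact measurable_const)
    (fun q => by
      by_cases hq : cd q
      · simp only [if_pos hq]; exact h.mm q
      · simp only [if_neg hq]; exact measurable_const)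
    (fun q x => by
      split_ifs
      · exact h.f0 q x
      · exact le_rfl)
    (fun q x => by
      split_ifs
      · exact h.m0 q x
      · exact le_rfl)
    (fun q x => by
      split_ifs
      · exact h.hb q x
      · norm_num)
    (by
      filter_upwards [hmK] with x hx q
      split_ifs with hq
      · exact hx q hq.2.2 hq.2.1
      · rw [mul_zero])
    (by
      intro a b hab
      set T := (Ico a b).filter cd with hT
      have e1 : ∀ x, ∑ q ∈ Ico a b, ((if cd q then f q x else 0) - if cd q then m q x else 0) =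
          ∑ q ∈ T, (f q x - m q x) := by
        intro x
        rw [hT, Finset.sum_filter]
        refine Finset.sum_congr rfl fun q _ => ?_
        split_ifs
        · rfl
        · norm_num
      have e2 : ∑ q ∈ Ico a b, (if cd q then wt q else 0) = ∑ q ∈ T, wt q := by
        rw [hT, Finset.sum_filter]
      simp only [e1, e2]
      have hGm : ∀ q, Measurable (fun x => f q x - m q x) := fun q => (h.fm q).sub (h.mm q)
      refine (moment_rows (μ := μ) (G := fun q x => f q x - m q x) hGm h.hb T).trans ?_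
      rw [Finset.mul_sum]
      refine Finset.sum_le_sum fun q hq => ?_
      rw [hT, mem_filter] at hq
      have hqc := hq.2
      have h1 := hdiag q hqc.2.2 hqc.2.1
      have h2 := hrow q hqc.2.2 hqc.2.1 (T.filter (fun p => p < q)) (by
        intro p hp
        rw [mem_filter, hT, mem_filter] at hp
        exact ⟨hp.1.2.2.1, hp.1.2.2.2, hp.2⟩)
      have hw := wt_nonneg q
      nlinarith [mul_nonneg hC.le hw])
  filter_upwards [key] with x hx
  obtain ⟨B, hB1, hB2⟩ := hx
  refine ⟨B, hB1, fun n => ?_⟩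
  have := hB2 n
  refine le_trans (le_of_eq ?_) this
  congr 1
  refine Finset.sum_congr rfl fun q _ => ?_
  simp only [hcd]
  split_ifs
  · rfl
  · norm_num

open Classical in
/-- **The law with error term for every set of primes of divergent weight.** -/
theorem Sys1.law (h1 : Sys1 μ f m c) (S : Set ℕ) (hdiv : Tendsto (VS S) atTop atTop) :
    ∀ᵐ x ∂μ, ∃ B : ℝ, 0 ≤ B ∧ ∀ n : ℕ, |FS f S n x - c x * VS S n| ≤ B * gr (VS S n) := by
  have h := h1.sys
  obtain ⟨C, hC, P1, hP13, hdiag, hrow⟩ := h1.row1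
  obtain ⟨Km, hKm, P2, hmean⟩ := h.mean
  obtain ⟨c0, c1, hc0, hcb⟩ := h.cb
  obtain ⟨C3, hC3, hinv⟩ := inv_sum_le
  set P := P1 + P2 with hP
  have hmK : ∀ᵐ x ∂μ, ∀ q ≥ P, q.Prime → m q x ≤ (|c1| + Km) * wt q := by
    filter_upwards [hmean, hcb] with x hx hc q hq hqp
    have h1 := (abs_le.1 (hx q (by omega) hqp)).2
    have hq3 : (3 : ℝ) ≤ q := by exact_mod_cast (by omega : 3 ≤ q)
    have h2 : 1 / (q : ℝ) ≤ wt q := by
      unfold wt
      refine div_le_div_of_nonneg_right ?_ (by linarith)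
      rw [Real.le_log_iff_exp_le (by linarith)]
      have := Real.exp_one_lt_d9
      linarith
    have h3 : c x ≤ |c1| := hc.2.trans (le_abs_self _)
    have hw := wt_nonneg q
    nlinarith [mul_le_mul_of_nonneg_left h2 hKm, mul_le_mul_of_nonneg_right h3 hw]
  have hdt := div_tail hdiv P (fun _ => 1) (fun _ => le_rfl)
  simp only [mul_one] at hdt
  have key := Sys1.core h (C := C) (P := P) hC
    (fun q hq hqp => hdiag q (by omega) hqp)
    (fun q hq hqp T hT => hrow q (by omega) hqp T fun p hp => by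
      obtain ⟨h1, h2, h3⟩ := hT p hp
      exact ⟨h1, by omega, h3⟩)
    (Km := |c1| + Km) (by positivity) hmK S hdt
  filter_upwards [key, hmean, hcb] with x hx hmx hcx
  obtain ⟨B, hB, hBn⟩ := hx
  refine ⟨B + Km * C3 + P * (1 + |c x|), by positivity, fun n => ?_⟩
  set v := VS S n with hv
  have hv0 : 0 ≤ v := VS_nonneg S n
  have hdec : FS f S n x - c x * v =
      (∑ q ∈ range (n + 1), if q ∈ S ∧ q.Prime ∧ P ≤ q then f q x - m q x else 0) +
      (∑ q ∈ range (n + 1), if q ∈ S ∧ q.Prime ∧ P ≤ q then m q x - c x * wt q else 0) +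
      (∑ q ∈ range (n + 1), if q ∈ S ∧ q.Prime ∧ q < P then f q x - c x * wt q else 0) := by
    rw [hv]
    unfold FS VS
    rw [Finset.mul_sum, ← Finset.sum_sub_distrib, ← Finset.sum_add_distrib, ← Finset.sum_add_distrib]
    refine Finset.sum_congr rfl fun q _ => ?_
    by_cases h1 : q ∈ S ∧ q.Prime
    · by_cases h2 : P ≤ q
      · rw [if_pos h1, if_pos h1, if_pos ⟨h1.1, h1.2, h2⟩, if_pos ⟨h1.1, h1.2, h2⟩,
          if_neg (fun h => by omega)]
        ring
      · rw [if_pos h1, if_pos h1, if_neg (fun h => h2 h.2.2), if_neg (fun h => h2 h.2.2),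
          if_pos ⟨h1.1, h1.2, by omega⟩]
        ring
    · rw [if_neg h1, if_neg h1, if_neg (fun h => h1 ⟨h.1, h.2.1⟩), if_neg (fun h => h1 ⟨h.1, h.2.1⟩),
        if_neg (fun h => h1 ⟨h.1, h.2.1⟩)]
      ring
  have hle : ∑ q ∈ range (n + 1), (if q ∈ S ∧ q.Prime ∧ P ≤ q then wt q else 0) ≤ v := by
    rw [hv]
    unfold VS
    refine Finset.sum_le_sum fun q _ => ?_
    by_cases h2 : q ∈ S ∧ q.Prime ∧ P ≤ q
    · rw [if_pos h2, if_pos ⟨h2.1, h2.2.1⟩]
    · rw [if_neg h2]
      split_ifs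
      · exact wt_nonneg q
      · exact le_rfl
  have hA : |∑ q ∈ range (n + 1), if q ∈ S ∧ q.Prime ∧ P ≤ q then f q x - m q x else 0| ≤
      B * gr v := by
    refine (hBn (n + 1)).trans ?_
    refine mul_le_mul_of_nonneg_left (gr_mono ?_ hle) hB
    refine Finset.sum_nonneg fun q _ => ?_
    split_ifs
    · exact wt_nonneg q
    · exact le_rfl
  have hBd : |∑ q ∈ range (n + 1), if q ∈ S ∧ q.Prime ∧ P ≤ q then m q x - c x * wt q else 0| ≤
      Km * C3 * gr v := by
    set T := (range (n + 1)).filter (fun q => q ∈ S ∧ q.Prime ∧ P ≤ q) with hT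
    have h1 : ∑ q ∈ T, wt q ≤ v := by
      rw [hT, Finset.sum_filter]
      exact hle
    rw [← Finset.sum_filter]
    calc |∑ q ∈ T, (m q x - c x * wt q)| ≤ ∑ q ∈ T, |m q x - c x * wt q| :=
          Finset.abs_sum_le_sum_abs _ _
      _ ≤ ∑ q ∈ T, Km * (1 / (q : ℝ)) := by
          refine Finset.sum_le_sum fun q hq => ?_
          rw [hT, mem_filter] at hq
          have := hq.2.2.2
          exact hmx q (by omega) hq.2.2.1
      _ = Km * ∑ q ∈ T, 1 / (q : ℝ) := by rw [Finset.mul_sum]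
      _ ≤ Km * (C3 * Real.sqrt (∑ q ∈ T, wt q)) := by
          refine mul_le_mul_of_nonneg_left (hinv T fun q hq => ?_) hKm
          rw [hT, mem_filter] at hq
          exact hq.2.2.1
      _ ≤ Km * (C3 * gr v) := by
          have h3 : Real.sqrt (∑ q ∈ T, wt q) ≤ gr v :=
            (Real.sqrt_le_sqrt h1).trans (sqrt_le_gr hv0)
          gcongr
      _ = _ := by ring
  have hCd : |∑ q ∈ range (n + 1), if q ∈ S ∧ q.Prime ∧ q < P then f q x - c x * wt q else 0| ≤
      P * (1 + |c x|) * gr v := by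
    have h1 : ∑ q ∈ range (n + 1), |if q ∈ S ∧ q.Prime ∧ q < P then f q x - c x * wt q else 0| ≤
        ∑ q ∈ range (n + 1), if q < P then (1 + |c x|) else 0 := by
      refine Finset.sum_le_sum fun q _ => ?_
      split_ifs with h2 h3 h3
      · refine (abs_sub _ _).trans ?_
        rw [abs_of_nonneg (h.f0 q x), abs_mul, abs_of_nonneg (wt_nonneg q)]
        have := h.f1 q x
        have := wt_le_one q
        have := abs_nonneg (c x)
        nlinarith
      · exact absurd h2.2.2 h3
      · rw [abs_zero]; positivity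
      · rw [abs_zero]
    have h2 : ∑ q ∈ range (n + 1), (if q < P then (1 + |c x|) else 0) ≤ P * (1 + |c x|) := by
      rw [Finset.sum_ite, Finset.sum_const_zero, add_zero, Finset.sum_const, nsmul_eq_mul]
      have : ((range (n + 1)).filter (fun q => q < P)).card ≤ P := by
        calc _ ≤ (range P).card := Finset.card_le_card fun q hq => by
                rw [mem_filter] at hq
                exact mem_range.2 hq.2
          _ = P := Finset.card_range P
      refine mul_le_mul_of_nonneg_right ?_ (by positivity)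
      exact_mod_cast this
    have h3 := one_le_gr hv0
    have h4 : (0 : ℝ) ≤ P * (1 + |c x|) := by positivity
    calc _ ≤ _ := (Finset.abs_sum_le_sum_abs _ _).trans (h1.trans h2)
      _ ≤ _ := by nlinarith
  rw [hdec]
  have h1 := abs_add_le
    ((∑ q ∈ range (n + 1), if q ∈ S ∧ q.Prime ∧ P ≤ q then f q x - m q x else 0) +
      (∑ q ∈ range (n + 1), if q ∈ S ∧ q.Prime ∧ P ≤ q then m q x - c x * wt q else 0))
    (∑ q ∈ range (n + 1), if q ∈ S ∧ q.Prime ∧ q < P then f q x - c x * wt q else 0)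
  have h2 := abs_add_le
    (∑ q ∈ range (n + 1), if q ∈ S ∧ q.Prime ∧ P ≤ q then f q x - m q x else 0)
    (∑ q ∈ range (n + 1), if q ∈ S ∧ q.Prime ∧ P ≤ q then m q x - c x * wt q else 0)
  calc _ ≤ B * gr v + Km * C3 * gr v + P * (1 + |c x|) * gr v := by linarith
    _ = _ := by ring

open Classical in
/-- from a system to the counting function -/
theorem Sys1.pt (h1 : Sys1 μ f m c) {s : Ω → ℕ → ℕ}
    (hs : ∀ᵐ x ∂μ, ∃ P : ℕ, ∀ p ≥ P, p.Prime → f p x = if (roughPart p (s x p)).Prime then 1 else 0)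
    (S : Set ℕ) (hdiv : Tendsto (VS S) atTop atTop) : ∀ᵐ x ∂μ, ∃ B : ℝ, 0 ≤ B ∧ ∀ n : ℕ,
      |(cS S (s x) n : ℝ) - c x * VS S n| ≤ B * gr (VS S n) := by
  have h := h1.sys
  filter_upwards [hs, h1.law S hdiv] with x hx hl
  obtain ⟨P, hP⟩ := hx
  obtain ⟨B, hB, hBn⟩ := hl
  have hset : ∀ n : ℕ, |(cS S (s x) n : ℝ) - FS f S n x| ≤ P := by
    intro n
    have e1 : (cS S (s x) n : ℝ) = ∑ p ∈ range (n + 1),
        if p.Prime ∧ p ∈ S ∧ (roughPart p (s x p)).Prime then (1 : ℝ) else 0 := by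
      unfold cS
      rw [Finset.card_eq_sum_ones, Finset.sum_filter]
      push_cast
      rfl
    rw [e1]
    unfold FS
    rw [← Finset.sum_sub_distrib]
    have h1 : ∑ p ∈ range (n + 1), |(if p.Prime ∧ p ∈ S ∧ (roughPart p (s x p)).Prime then (1 : ℝ) else 0) -
        if p ∈ S ∧ p.Prime then f p x else 0| ≤ ∑ p ∈ range (n + 1), if p < P then (1 : ℝ) else 0 := by
      refine Finset.sum_le_sum fun p _ => ?_
      by_cases hp : P ≤ p
      · rw [if_neg (by omega : ¬ p < P)]
        by_cases h2 : p ∈ S ∧ p.Prime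
        · rw [if_pos h2, hP p hp h2.2]
          by_cases h3 : (roughPart p (s x p)).Prime
          · rw [if_pos ⟨h2.2, h2.1, h3⟩, if_pos h3]
            norm_num
          · rw [if_neg (fun h => h3 h.2.2), if_neg h3]
            norm_num
        · rw [if_neg h2, if_neg (fun h => h2 ⟨h.2.1, h.1⟩)]
          norm_num
      · rw [if_pos (by omega : p < P)]
        have h3 := h.f0 p x
        have h4 := h.f1 p x
        rw [abs_le]
        split_ifs <;> constructor <;> linarith
    have h2 : ∑ p ∈ range (n + 1), (if p < P then (1 : ℝ) else 0) ≤ P := by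
      rw [Finset.sum_ite, Finset.sum_const_zero, add_zero, Finset.sum_const, nsmul_eq_mul, mul_one]
      have : ((range (n + 1)).filter (fun q => q < P)).card ≤ P := by
        calc _ ≤ (range P).card := Finset.card_le_card fun q hq => by
                rw [mem_filter] at hq
                exact mem_range.2 hq.2
          _ = P := Finset.card_range P
      exact_mod_cast this
    exact (Finset.abs_sum_le_sum_abs _ _).trans (h1.trans h2)
  refine ⟨B + P, by positivity, fun n => ?_⟩
  have h1 := hBn n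
  have h2 := hset n
  have h3 : 1 ≤ gr (VS S n) := one_le_gr (VS_nonneg S n)
  have h4 := abs_add_le ((cS S (s x) n : ℝ) - FS f S n x) (FS f S n x - c x * VS S n)
  have e : (cS S (s x) n : ℝ) - FS f S n x + (FS f S n x - c x * VS S n) =
    (cS S (s x) n : ℝ) - c x * VS S n := by ring
  rw [e] at h4
  have h5 : (P : ℝ) ≤ P * gr (VS S n) := by
    have : (0 : ℝ) ≤ P := Nat.cast_nonneg P
    nlinarith
  linarith

end

/-- the system in base two -/
theorem sys1_two (hS : SilS) (b0 : ℝ) : Sys1 (volume.restrict (Set.Ioc b0 (b0 + 1)))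
    (fun p t => ff p (t + p * Real.log 2)) (fun p t => LL p (t + p * Real.log 2))
    (fun _ => Real.exp Real.eulerMascheroniConstant / Real.log 2) :=
  ⟨sys_two b0, rows hS b0⟩

/-- **The integers `⌈β 2 ^ p⌉ - 1`, for every set of primes of divergent weight.** -/
theorem law_two (hS : SilS) (S : Set ℕ) (hdiv : Tendsto (VS S) atTop atTop) : ∀ᵐ β : ℝ, 0 < β →
    ∃ B : ℝ, 0 ≤ B ∧ ∀ n : ℕ, |(cS S (fun p => ⌈β * 2 ^ p⌉₊ - 1) n : ℝ) -
      Real.exp Real.eulerMascheroniConstant / Real.log 2 * VS S n| ≤ B * gr (VS S n) := by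
  refine Pool.Agent.W66X.ae_of_exp' (P := fun β : ℝ => ∃ B : ℝ, 0 ≤ B ∧ ∀ n : ℕ,
    |(cS S (fun p => ⌈β * 2 ^ p⌉₊ - 1) n : ℝ) -
      Real.exp Real.eulerMascheroniConstant / Real.log 2 * VS S n| ≤ B * gr (VS S n))
    (Pool.Agent.TH888.R.ae_windows fun b0 => ?_)
  refine (sys1_two hS b0).pt (s := fun t p => ⌈Real.exp t * 2 ^ p⌉₊ - 1)
    (Eventually.of_forall fun t => ⟨0, fun p _ _ => ?_⟩) S hdiv
  show (if (roughPart p (Pool.Agent.H305R2.NN (t + p * Real.log 2))).Prime then (1 : ℝ) else 0) = _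
  unfold Pool.Agent.H305R2.NN
  rw [exp_add_two]

/-- the error term for a set of primes -/
lemma gr_set1 {V : ℕ → ℝ} (hV : Tendsto V atTop atTop) : ∀ᶠ n : ℕ in atTop,
    gr (V n) ≤ 18 * (Real.sqrt (V n) * (Real.log (V n)) ^ 2) := by
  filter_upwards [hV.eventually_ge_atTop 4] with n h1
  set u := V n with hu
  have hlu : 1 ≤ Real.log u := by
    rw [Real.le_log_iff_exp_le (by linarith)]
    have := Real.exp_one_lt_d9
    linarith
  unfold gr
  have h4 : Real.sqrt (1 + u) ≤ 2 * Real.sqrt u := by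
    rw [Real.sqrt_le_left (by positivity), mul_pow, Real.sq_sqrt (by linarith)]
    linarith
  have h5 : Real.log (1 + u) ≤ 1 + Real.log u := by
    have h6 := Real.log_le_log (by linarith) (show 1 + u ≤ 2 * u by linarith)
    rw [Real.log_mul (by norm_num) (by linarith)] at h6
    have h7 := Real.log_le_sub_one_of_pos (show (0 : ℝ) < 2 by norm_num)
    linarith
  have h6 : 0 ≤ Real.log (1 + u) := Real.log_nonneg (by linarith)
  calc Real.sqrt (1 + u) * (1 + Real.log (1 + u)) ^ 2 ≤ 2 * Real.sqrt u * (3 * Real.log u) ^ 2 := by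
        gcongr
        linarith
    _ = _ := by ring

/-- asymptotic form for a set of primes -/
lemma bigO_set1 {F V : ℕ → ℝ} {c B : ℝ} (hB : 0 ≤ B) (hV : Tendsto V atTop atTop)
    (h : ∀ n : ℕ, |F n - c * V n| ≤ B * gr (V n)) :
    (fun n : ℕ => F n - c * V n) =O[atTop] fun n : ℕ => Real.sqrt (V n) * (Real.log (V n)) ^ 2 := by
  refine IsBigO.of_bound (18 * B) ?_
  filter_upwards [gr_set1 hV] with n h1
  rw [Real.norm_eq_abs, Real.norm_of_nonneg (by positivity)]
  calc |F n - c * V n| ≤ B * gr (V n) := h n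
    _ ≤ B * _ := mul_le_mul_of_nonneg_left h1 hB
    _ = _ := by ring

/-- asymptotic form for all primes -/
lemma bigO_all1 {F : ℕ → ℝ} {c B : ℝ} (hB : 0 ≤ B)
    (h : ∀ n : ℕ, |F n - c * VS Set.univ n| ≤ B * gr (VS Set.univ n)) :
    (fun n : ℕ => F n - c * Real.log n) =O[atTop] fun n : ℕ =>
      Real.sqrt (Real.log n) * (Real.log (Real.log n)) ^ 2 := by
  obtain ⟨C, hC0, hC⟩ := VS_univ_bound
  refine IsBigO.of_bound (32 * B + |c| * C) ?_
  filter_upwards [eventually_ge_atTop 3, log_nat_tendsto.eventually_ge_atTop (C + 4),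
    loglog_tendsto.eventually_ge_atTop 1] with n h2 h3 h4
  set l := Real.log n with hl
  have hl4 : 4 ≤ l := by linarith
  have hV2 : VS Set.univ n ≤ 2 * l := by
    have := (abs_le.1 (hC n (by omega))).2
    linarith
  have h1 : gr (VS Set.univ n) ≤ 32 * (Real.sqrt l * (Real.log l) ^ 2) := by
    refine (gr_mono (VS_nonneg _ n) hV2).trans ?_
    unfold gr
    have h4' : Real.sqrt (1 + 2 * l) ≤ 2 * Real.sqrt l := by
      rw [Real.sqrt_le_left (by positivity), mul_pow, Real.sq_sqrt (by linarith)]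
      linarith
    have h5 : Real.log (1 + 2 * l) ≤ 2 + Real.log l := by
      have h6 := Real.log_le_log (by linarith) (show 1 + 2 * l ≤ 3 * l by linarith)
      rw [Real.log_mul (by norm_num) (by linarith)] at h6
      have h7 := Real.log_le_sub_one_of_pos (show (0 : ℝ) < 3 by norm_num)
      linarith
    have h6 : 0 ≤ Real.log (1 + 2 * l) := Real.log_nonneg (by linarith)
    calc Real.sqrt (1 + 2 * l) * (1 + Real.log (1 + 2 * l)) ^ 2 ≤ 2 * Real.sqrt l * (4 * Real.log l) ^ 2 := by
          gcongr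
          linarith
      _ = _ := by ring
  set E := Real.sqrt l * (Real.log l) ^ 2 with hE
  have hE1 : 1 ≤ E := by
    have h5 : 1 ≤ Real.sqrt l := by rw [Real.one_le_sqrt]; linarith
    have h6 : 1 ≤ (Real.log l) ^ 2 := one_le_pow₀ h4
    rw [hE]
    nlinarith
  rw [Real.norm_eq_abs, Real.norm_of_nonneg (by linarith)]
  have e : F n - c * l = (F n - c * VS Set.univ n) + c * (VS Set.univ n - l) := by ring
  rw [e]
  have h7 := h n
  have h8 := mul_le_mul_of_nonneg_left h1 hB
  have h9 : |c * (VS Set.univ n - l)| ≤ |c| * C := by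
    rw [abs_mul]
    exact mul_le_mul_of_nonneg_left (hC n (by omega)) (abs_nonneg c)
  have h10 := abs_add_le (F n - c * VS Set.univ n) (c * (VS Set.univ n - l))
  have h11 : |c| * C ≤ |c| * C * E := by
    have : 0 ≤ |c| * C := by positivity
    nlinarith
  nlinarith

end Pool.Agent.H176M
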