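import Mathlib
import Pool.Agent.H176M.Law
import Pool.Agent.H447R2.ML.Q3

set_option autoImplicit false

/-!
# Joint correlations of distant exponents, and independence of the leading digits
-/

namespace Pool.Agent.H176M

open Finset Filter Topology MeasureTheory
open Pool.Agent.H305R2 (roughPart NN ff FF LL LL_eq LL_cont
  LL_nonneg LL_le_one ff_nonneg ff_le_one measurable_ff measurable_NN pr)
open Pool.Agent.TH888.R (wt wt_nonneg)
open Pool.Agent.H447R2.ML (RL RL_tendsto)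

/-- the primes `p` with `u < p ≤ v` -/
noncomputable def Pr (u v : ℝ) : Finset ℕ := (Finset.Ioc ⌊u⌋₊ ⌊v⌋₊).filter Nat.Prime

lemma mem_Pr {u v : ℝ} (hu : 0 ≤ u) (hv : 0 ≤ v) {p : ℕ} :
    p ∈ Pr u v ↔ p.Prime ∧ u < p ∧ (p : ℝ) ≤ v := by
  unfold Pr
  rw [Finset.mem_filter, Finset.mem_Ioc, Nat.floor_lt hu, Nat.le_floor_iff hv]
  tauto

lemma card_Pr {u v : ℝ} (hv : 0 ≤ v) : ((Pr u v).card : ℝ) ≤ v := by
  unfold Pr
  have h1 : ((Finset.Ioc ⌊u⌋₊ ⌊v⌋₊).filter Nat.Prime).card ≤ ⌊v⌋₊ := by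
    refine (card_filter_le _ _).trans ?_
    rw [Nat.card_Ioc]
    omega
  calc _ ≤ ((⌊v⌋₊ : ℕ) : ℝ) := by exact_mod_cast h1
    _ ≤ v := Nat.floor_le hv

/-- **Mertens' theorem for windows** -/
lemma mertens_window {a b : ℝ} (ha : 0 < a) (hab : a < b) :
    Tendsto (fun z : ℝ => ∑ p ∈ Pr (a * z) (b * z), wt p) atTop (𝓝 (Real.log (b / a))) := by
  have hb : 0 < b := ha.trans hab
  set l := Real.log (b / a) with hl
  have hl0 : 0 < l := Real.log_pos ((one_lt_div ha).2 hab)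
  have hel : Real.exp l = b / a := Real.exp_log (by positivity)
  have haz : Tendsto (fun z : ℝ => a * z) atTop atTop := tendsto_id.const_mul_atTop ha
  have h1 : Tendsto (fun z : ℝ => RL l (a * z) * Real.log (a * z)) atTop (𝓝 l) :=
    (RL_tendsto hl0).comp haz
  have h0 : Tendsto (fun z : ℝ => RL l (a * z)) atTop (𝓝 0) := by
    have h2 : Tendsto (fun z : ℝ => (Real.log (a * z))⁻¹) atTop (𝓝 0) :=
      (Real.tendsto_log_atTop.comp haz).inv_tendsto_atTop
    have h3 := h1.mul h2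
    rw [mul_zero] at h3
    refine h3.congr' ?_
    filter_upwards [(Real.tendsto_log_atTop.comp haz).eventually_gt_atTop 0] with z hz
    have hz' : 0 < Real.log (a * z) := hz
    field_simp
  have h4 : Tendsto (fun z : ℝ => RL l (a * z) * Real.log (a * z) + l * RL l (a * z)) atTop (𝓝 l) := by
    have := h1.add (h0.const_mul l)
    simpa using this
  have key : ∀ᶠ z : ℝ in atTop, RL l (a * z) * Real.log (a * z) ≤ ∑ p ∈ Pr (a * z) (b * z), wt p ∧
      ∑ p ∈ Pr (a * z) (b * z), wt p ≤ RL l (a * z) * Real.log (a * z) + l * RL l (a * z) := by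
    filter_upwards [eventually_gt_atTop 0] with z hz
    have haz0 : 0 < a * z := by positivity
    have hbz0 : 0 < b * z := by positivity
    have e1 : Real.exp l * (a * z) = b * z := by rw [hel]; field_simp
    have e2 : RL l (a * z) = ∑ p ∈ Pr (a * z) (b * z), (p : ℝ)⁻¹ := by
      unfold RL Pr
      rw [e1, Finset.sum_filter]
      refine Finset.sum_congr rfl fun k _ => ?_
      unfold pr
      split_ifs <;> simp
    rw [e2, Finset.sum_mul, Finset.mul_sum, ← Finset.sum_add_distrib]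
    constructor
    · refine Finset.sum_le_sum fun p hp => ?_
      obtain ⟨_, h5, _⟩ := (mem_Pr haz0.le hbz0.le).1 hp
      have hp0 : (0 : ℝ) < p := haz0.trans h5
      unfold wt
      rw [div_eq_inv_mul]
      exact mul_le_mul_of_nonneg_left (Real.log_le_log haz0 h5.le) (by positivity)
    · refine Finset.sum_le_sum fun p hp => ?_
      obtain ⟨_, h5, h6⟩ := (mem_Pr haz0.le hbz0.le).1 hp
      have hp0 : (0 : ℝ) < p := haz0.trans h5
      unfold wt
      rw [div_eq_inv_mul, mul_comm l, ← mul_add]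
      refine mul_le_mul_of_nonneg_left ?_ (by positivity)
      have h7 : Real.log p ≤ Real.log (b * z) := Real.log_le_log hp0 h6
      rw [← e1, Real.log_mul (Real.exp_pos _).ne' haz0.ne', Real.log_exp] at h7
      linarith
  exact tendsto_of_tendsto_of_tendsto_of_le_of_le' h1 h4 (key.mono fun z h => h.1)
    (key.mono fun z h => h.2)

/-- the number of the exponents in a finite set -/
noncomputable def cT (T : Finset ℕ) (u : ℝ) : ℝ := ∑ p ∈ T, ff p (u + p * Real.log 2)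

/-- the weight of a finite set -/
noncomputable def vT (T : Finset ℕ) : ℝ := ∑ p ∈ T, wt p

lemma vT_nonneg (T : Finset ℕ) : 0 ≤ vT T := sum_nonneg fun p _ => wt_nonneg p

lemma cT_nonneg (T : Finset ℕ) (u : ℝ) : 0 ≤ cT T u := sum_nonneg fun p _ => ff_nonneg p _

lemma cT_le {x y : ℝ} (hy : 0 ≤ y) {T : Finset ℕ} (hT : T ⊆ Pr x y) (u : ℝ) : cT T u ≤ y := by
  calc cT T u ≤ ∑ p ∈ T, (1 : ℝ) := sum_le_sum fun p _ => ff_le_one p _
    _ = (T.card : ℝ) := by rw [sum_const, nsmul_eq_mul, mul_one]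
    _ ≤ ((Pr x y).card : ℝ) := by exact_mod_cast card_le_card hT
    _ ≤ y := card_Pr hy

lemma cT_meas (T : Finset ℕ) : Measurable (cT T) := by
  unfold cT
  exact Finset.measurable_fun_sum _ fun p _ => (measurable_ff p).comp (measurable_id.add_const _)

/-- a function of the leading digits times the numbers of exponents in the sets -/
noncomputable def ZT (F : ℕ → ℝ) (ρ : ℝ) (T : ℕ → Finset ℕ) (k : ℕ) (z u : ℝ) : ℝ :=
  F (NN (u + ⌊ρ * z⌋₊ * Real.log 2)) * ∏ i ∈ range k, cT (T i) u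

lemma FN_meas (F : ℕ → ℝ) (r : ℝ) : Measurable (fun u : ℝ => F (NN (u + r))) :=
  (measurable_from_nat (f := F)).comp (measurable_NN.comp (measurable_id.add_const _))

lemma ZT_meas (F : ℕ → ℝ) (ρ : ℝ) (T : ℕ → Finset ℕ) (k : ℕ) (z : ℝ) : Measurable (ZT F ρ T k z) := by
  unfold ZT
  refine (FN_meas F _).mul ?_
  exact Finset.measurable_fun_prod _ fun i _ => cT_meas _

lemma prodT_nonneg (T : ℕ → Finset ℕ) (k : ℕ) (u : ℝ) : 0 ≤ ∏ i ∈ range k, cT (T i) u :=
  prod_nonneg fun i _ => cT_nonneg _ _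

lemma prodT_le {L : ℝ} {a b : ℕ → ℝ} {k : ℕ} (hb : ∀ i < k, 0 < b i ∧ b i ≤ L) {z : ℝ} (hz : 0 ≤ z)
    {T : ℕ → Finset ℕ} (hT : ∀ i < k, T i ⊆ Pr (a i * z) (b i * z)) (u : ℝ) :
    ∏ i ∈ range k, cT (T i) u ≤ (L * z) ^ k := by
  calc ∏ i ∈ range k, cT (T i) u ≤ ∏ _i ∈ range k, (L * z) := by
        refine prod_le_prod (fun i _ => cT_nonneg _ _) fun i hi => ?_
        obtain ⟨h1, h2⟩ := hb i (mem_range.1 hi)
        exact (cT_le (by positivity) (hT i (mem_range.1 hi)) u).trans (mul_le_mul_of_nonneg_right h2 hz)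
    _ = (L * z) ^ k := by rw [prod_const, card_range]

lemma ZT_le_prod {F : ℕ → ℝ} (hF : ∀ n, |F n| ≤ 1) (ρ : ℝ) (T : ℕ → Finset ℕ) (k : ℕ) (z u : ℝ) :
    |ZT F ρ T k z u| ≤ ∏ i ∈ range k, cT (T i) u := by
  unfold ZT
  rw [abs_mul, abs_of_nonneg (prodT_nonneg T k u)]
  calc _ ≤ 1 * ∏ i ∈ range k, cT (T i) u :=
        mul_le_mul_of_nonneg_right (hF _) (prodT_nonneg T k u)
    _ = _ := one_mul _

lemma ZT_abs (F : ℕ → ℝ) (ρ : ℝ) (T : ℕ → Finset ℕ) (k : ℕ) (z u : ℝ) :
    |ZT F ρ T k z u| = ZT (fun n => |F n|) ρ T k z u := by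
  unfold ZT
  rw [abs_mul, abs_of_nonneg (prodT_nonneg T k u)]

/-- the product as a function of the digits -/
noncomputable def ph (F : ℕ → ℝ) (ρ : ℝ) (T : ℕ → Finset ℕ) (k : ℕ) (z : ℝ) (r n : ℕ) : ℝ :=
  F (n / 2 ^ (r - ⌊ρ * z⌋₊)) * ∏ i ∈ range k, ∑ p ∈ T i,
    if (roughPart p (n / 2 ^ (r - p))).Prime then 1 else 0

lemma ZT_ph {F : ℕ → ℝ} {ρ L : ℝ} {a b : ℕ → ℝ} {k : ℕ} (hρ : ρ ≤ L)
    (hb : ∀ i < k, 0 < a i ∧ 0 < b i ∧ b i ≤ L) {z : ℝ} (hz : 0 < z)
    {T : ℕ → Finset ℕ} (hT : ∀ i < k, T i ⊆ Pr (a i * z) (b i * z)) {r : ℕ} (hr : ⌊L * z⌋₊ ≤ r) (u : ℝ) :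
    ZT F ρ T k z u = ph F ρ T k z r (NN (u + r * Real.log 2)) := by
  have h1 : ⌊ρ * z⌋₊ ≤ r := (Nat.floor_le_floor (mul_le_mul_of_nonneg_right hρ hz.le)).trans hr
  unfold ZT ph
  congr 1
  · congr 1
    have h := NN_div (u + ⌊ρ * z⌋₊ * Real.log 2) (r - ⌊ρ * z⌋₊)
    have e : u + ⌊ρ * z⌋₊ * Real.log 2 + ((r - ⌊ρ * z⌋₊ : ℕ) : ℝ) * Real.log 2 = u + r * Real.log 2 := by
      rw [Nat.cast_sub h1]; ring
    rw [e] at h
    exact h.symm
  · refine prod_congr rfl fun i hi => ?_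
    obtain ⟨h2, h3, h4⟩ := hb i (mem_range.1 hi)
    unfold cT
    refine sum_congr rfl fun p hp => ?_
    have hp' := hT i (mem_range.1 hi) hp
    rw [mem_Pr (by positivity) (by positivity)] at hp'
    have hpr : p ≤ r := by
      refine le_trans ?_ hr
      exact Nat.le_floor (hp'.2.2.trans (mul_le_mul_of_nonneg_right h4 hz.le))
    exact ff_prefix hpr u

lemma ph_abs {F : ℕ → ℝ} (hF : ∀ n, |F n| ≤ 1) {ρ L : ℝ} {a b : ℕ → ℝ} {k : ℕ}
    (hb : ∀ i < k, 0 < b i ∧ b i ≤ L) {z : ℝ} (hz : 0 ≤ z)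
    {T : ℕ → Finset ℕ} (hT : ∀ i < k, T i ⊆ Pr (a i * z) (b i * z)) (r n : ℕ) :
    |ph F ρ T k z r n| ≤ (L * z) ^ k := by
  unfold ph
  have h0 : ∀ i, 0 ≤ ∑ p ∈ T i,
      (if (roughPart p (n / 2 ^ (r - p))).Prime then (1 : ℝ) else 0) := fun i =>
    sum_nonneg fun p _ => by split_ifs <;> norm_num
  rw [abs_mul, abs_of_nonneg (prod_nonneg fun i _ => h0 i)]
  calc _ ≤ 1 * ∏ _i ∈ range k, (L * z) := by
        refine mul_le_mul (hF _) ?_ (prod_nonneg fun i _ => h0 i) zero_le_one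
        refine prod_le_prod (fun i _ => h0 i) fun i hi => ?_
        obtain ⟨h1, h2⟩ := hb i (mem_range.1 hi)
        calc _ ≤ ∑ _p ∈ T i, (1 : ℝ) :=
              sum_le_sum fun p _ => by split_ifs <;> norm_num
          _ = ((T i).card : ℝ) := by rw [sum_const, nsmul_eq_mul, mul_one]
          _ ≤ ((Pr (a i * z) (b i * z)).card : ℝ) := by exact_mod_cast card_le_card (hT i (mem_range.1 hi))
          _ ≤ b i * z := card_Pr (by positivity)
          _ ≤ L * z := mul_le_mul_of_nonneg_right h2 hz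
    _ = (L * z) ^ k := by rw [one_mul, prod_const, card_range]

/-- the constant -/
noncomputable def cc : ℝ := Real.exp Real.eulerMascheroniConstant / Real.log 2

lemma cc_pos : 0 < cc := div_pos (Real.exp_pos _) (Real.log_pos (by norm_num))

lemma exists_sup (ρ : ℝ) (b : ℕ → ℝ) (k : ℕ) (A : ℝ) (hρ0 : 0 ≤ ρ) (hρ : ρ < A) (hb : ∀ i < k, b i < A) :
    ∃ L, 0 ≤ L ∧ ρ ≤ L ∧ (∀ i < k, b i ≤ L) ∧ L < A := by
  induction k with
  | zero => exact ⟨ρ, hρ0, le_rfl, fun i hi => absurd hi (Nat.not_lt_zero i), hρ⟩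
  | succ k ih =>
    obtain ⟨L, h0, h1, h2, h3⟩ := ih fun i hi => hb i (by omega)
    refine ⟨max L (b k), le_max_of_le_left h0, le_max_of_le_left h1, fun i hi => ?_, max_lt h3 (hb k (by omega))⟩
    rcases Nat.lt_succ_iff_lt_or_eq.1 hi with h | h
    · exact le_max_of_le_left (h2 i h)
    · rw [h]; exact le_max_right _ _

lemma one_div_le_wt {q : ℕ} (hq3 : 3 ≤ q) : 1 / (q : ℝ) ≤ wt q := by
  have hq3' : (3 : ℝ) ≤ q := by exact_mod_cast hq3
  unfold wt
  refine div_le_div_of_nonneg_right ?_ (by linarith)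
  rw [Real.le_log_iff_exp_le (by linarith)]
  have := Real.exp_one_lt_d9
  linarith

/-- the joint correlations for the windows `(a i z, b i z]`, `i < k`, on the interval `(s, t]` -/
def Joint (ρ : ℝ) (a b : ℕ → ℝ) (k A : ℕ) (s t : ℝ) : Prop :=
  ∀ η : ℝ, 0 < η → ∀ᶠ z : ℝ in atTop, ∀ T : ℕ → Finset ℕ, (∀ i < k, T i ⊆ Pr (a i * z) (b i * z)) →
    ∀ F : ℕ → ℝ, (∀ n, |F n| ≤ 1) →
      |(∫ u in Set.Ioc s t, ZT F ρ T k z u) - (∏ i ∈ range k, cc * vT (T i)) *
        ∫ u in Set.Ioc s t, F (NN (u + ⌊ρ * z⌋₊ * Real.log 2))| ≤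
      η * (∏ i ∈ range k, vT (T i)) *
        ((∫ u in Set.Ioc s t, |F (NN (u + ⌊ρ * z⌋₊ * Real.log 2))|) + 1 / z ^ A)

lemma succ_step (hS : SilS) (b0 b1 : ℝ) (h01 : b0 ≤ b1) (h11 : b1 ≤ b0 + 1) (ρ : ℝ) (hρ0 : 0 ≤ ρ) (a b : ℕ → ℝ)
    (k A : ℕ) (h0 : ∀ i < k + 1, 0 < a i ∧ a i < b i) (h1 : ∀ i < k, 3 / 2 * b i < a k) (h2 : 3 / 2 * ρ < a k)
    (ih : Joint ρ a b k A b0 b1) : Joint ρ a b (k + 1) A b0 b1 := by
  obtain ⟨hak, hakb⟩ := h0 k (by omega)
  have hbk : 0 < b k := hak.trans hakb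
  obtain ⟨L, hL0, hL1, hL2, hL3⟩ := exists_sup ρ b k (2 / 3 * a k) hρ0 (by linarith)
    (fun i hi => by have := h1 i hi; linarith)
  -- the exponent
  set ε : ℝ := min (1 / 12) (2 / 3 - L / a k) with hε
  have hLa : L / a k < 2 / 3 := by rw [div_lt_iff₀ hak]; exact hL3
  have hε0 : 0 < ε := by rw [hε]; exact lt_min (by norm_num) (by linarith)
  have hε1 : ε ≤ 1 / 12 := min_le_left _ _
  have hε2 : L ≤ (2 / 3 - ε) * a k := by
    have h3 : ε ≤ 2 / 3 - L / a k := min_le_right _ _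
    have h4 : L / a k ≤ 2 / 3 - ε := by linarith
    rwa [div_le_iff₀ hak] at h4
  obtain ⟨C, hC, L₀, hcond⟩ := cond_int hS ε hε0 hε1 b0 (2 * k + A + 2)
  obtain ⟨K, hK, P, hmean⟩ := (sys_two b0).mean
  have hmean' : ∀ᵐ u ∂(volume.restrict (Set.Ioc b0 b1)), ∀ q ≥ P, q.Prime →
      |LL q (u + q * Real.log 2) - cc * wt q| ≤ K * (1 / q) := by
    have hsub : Set.Ioc b0 b1 ⊆ Set.Ioc b0 (b0 + 1) := Set.Ioc_subset_Ioc_right h11
    exact ae_restrict_of_ae_restrict_of_subset hsub hmean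
  set M1 : ℝ := cc ^ k + 1 with hM1
  have hM10 : 0 < M1 := by
    have := pow_pos cc_pos k
    linarith
  -- the error term
  set L' := L + 1 with hL'
  set er : ℝ → ℝ := fun z => C * ((L' / a k) ^ (2 * k) * (1 / a k ^ A)) * (1 / (a k * z)) + C * M1 * (1 / (a k * z)) +
    K * M1 * (1 / Real.log (a k * z)) with her
  have haz : Tendsto (fun z : ℝ => a k * z) atTop atTop := tendsto_id.const_mul_atTop hak
  have hert : Tendsto er atTop (𝓝 0) := by
    have t1 : Tendsto (fun z : ℝ => 1 / (a k * z)) atTop (𝓝 0) := by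
      simp only [one_div]
      exact haz.inv_tendsto_atTop
    have t2 : Tendsto (fun z : ℝ => 1 / Real.log (a k * z)) atTop (𝓝 0) := by
      simp only [one_div]
      exact (Real.tendsto_log_atTop.comp haz).inv_tendsto_atTop
    have t4 := ((t1.const_mul (C * ((L' / a k) ^ (2 * k) * (1 / a k ^ A)))).add (t1.const_mul (C * M1))).add
      (t2.const_mul (K * M1))
    simpa only [mul_zero, add_zero] using t4
  intro η hη
  have hcl : 0 < cc := cc_pos
  filter_upwards [hert.eventually_le_const (show (0 : ℝ) < η / 2 by linarith), ih 1 one_pos,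
    ih (η / (2 * cc)) (by positivity), eventually_ge_atTop 1,
    haz.eventually_ge_atTop ((L₀ : ℝ) + P + 3), eventually_ge_atTop (∑ i ∈ range k, 3 / a i)]
    with z hz1 hz2 hz3 hz4 hz5 hz6 T hT F hF
  have hz0 : 0 < z := by linarith
  have haz0 : 0 < a k * z := by positivity
  have haz3 : 3 ≤ a k * z := by
    have : (0 : ℝ) ≤ L₀ := Nat.cast_nonneg _
    have : (0 : ℝ) ≤ P := Nat.cast_nonneg _
    linarith
  have hbz0 : 0 < b k * z := by positivity
  have hTk : ∀ i < k, T i ⊆ Pr (a i * z) (b i * z) := fun i hi => hT i (by omega)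
  set Z : ℝ → ℝ := fun u => ZT F ρ T k z u with hZ
  have hbb : ∀ i < k, 0 < b i ∧ b i ≤ L := fun i hi =>
    ⟨(h0 i (by omega)).1.trans (h0 i (by omega)).2, hL2 i hi⟩
  have hZm : Measurable Z := ZT_meas F ρ T k z
  have hZb : ∀ u, |Z u| ≤ (L * z) ^ k := fun u =>
    (ZT_le_prod hF ρ T k z u).trans (prodT_le hbb hz0.le hTk u)
  set IF := ∫ u in Set.Ioc b0 b1, F (NN (u + ⌊ρ * z⌋₊ * Real.log 2)) with hIF
  set IA := ∫ u in Set.Ioc b0 b1, |F (NN (u + ⌊ρ * z⌋₊ * Real.log 2))| with hIA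
  have hIA0 : 0 ≤ IA := setIntegral_nonneg measurableSet_Ioc fun u _ => abs_nonneg _
  set T0 := IA + 1 / z ^ A with hT0
  have hzA : 0 < 1 / z ^ A := by positivity
  have hT00 : 0 < T0 := by linarith
  set Vk := ∏ i ∈ range k, vT (T i) with hVk
  have hVk0 : 0 ≤ Vk := prod_nonneg fun i _ => vT_nonneg _
  have hprodc : ∏ i ∈ range k, cc * vT (T i) = cc ^ k * Vk := by
    rw [prod_mul_distrib, prod_const, card_range]
  have hZi : ∫ u in Set.Ioc b0 b1, |Z u| ≤ M1 * (Vk * T0) := by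
    have h3 := hz2 T hTk (fun n => |F n|) (fun n => by rw [abs_abs]; exact hF n)
    simp only [abs_abs] at h3
    rw [hprodc] at h3
    have h4 : ∫ u in Set.Ioc b0 b1, |Z u| = ∫ u in Set.Ioc b0 b1, ZT (fun n => |F n|) ρ T k z u := by
      simp only [hZ, ZT_abs]
    rw [h4]
    have h5 := (abs_le.1 h3).2
    have h6 : cc ^ k * Vk * IA ≤ cc ^ k * (Vk * T0) := by
      rw [mul_assoc]
      refine mul_le_mul_of_nonneg_left (mul_le_mul_of_nonneg_left (by linarith) hVk0) (pow_pos cc_pos k).le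
    rw [hM1]
    have h7 : (1 : ℝ) * Vk * T0 = Vk * T0 := by ring
    linarith
  have hZi0 : 0 ≤ ∫ u in Set.Ioc b0 b1, |Z u| := setIntegral_nonneg measurableSet_Ioc fun u _ => abs_nonneg _
  set Q := T k with hQ
  have hQs : Q ⊆ Pr (a k * z) (b k * z) := hT k (by omega)
  have hq : ∀ q ∈ Q, q.Prime ∧ a k * z < q ∧ L₀ ≤ q ∧ P ≤ q ∧ 3 ≤ q := by
    intro q hq
    have hq' := hQs hq
    rw [mem_Pr haz0.le hbz0.le] at hq'
    obtain ⟨c1, c2, c3⟩ := hq'
    have c4 : ((L₀ + P + 3 : ℕ) : ℝ) ≤ q := by push_cast; linarith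
    have c5 : L₀ + P + 3 ≤ q := by exact_mod_cast c4
    exact ⟨c1, c2, by omega, by omega, by omega⟩
  -- integrability
  have iZ : IntegrableOn Z (Set.Ioc b0 b1) := intOn_of_bdd hZm hZb _ _
  have iZa : IntegrableOn (fun u => |Z u|) (Set.Ioc b0 b1) :=
    intOn_of_bdd (measurable_abs.comp hZm) (B := (L * z) ^ k)
      (fun u => by rw [Function.comp_apply, abs_abs]; exact hZb u) _ _
  have iZg : ∀ q, IntegrableOn (fun u => Z u * gc q u) (Set.Ioc b0 b1) := fun q =>
    intOn_of_bdd (F := fun u => Z u * gc q u) (hZm.mul (gc_meas q)) (B := (L * z) ^ k) (fun u => by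
      rw [abs_mul]
      calc |Z u| * |gc q u| ≤ (L * z) ^ k * 1 :=
            mul_le_mul (hZb u) (gc_abs q u) (abs_nonneg _) (by positivity)
        _ = _ := mul_one _) _ _
  have hLm : ∀ q : ℕ, Measurable (fun u : ℝ => LL q (u + q * Real.log 2) - cc * wt q) := fun q =>
    ((LL_cont q).measurable.comp (measurable_id.add_const _)).sub_const _
  have iZm : ∀ q : ℕ, IntegrableOn (fun u => Z u * (LL q (u + q * Real.log 2) - cc * wt q)) (Set.Ioc b0 b1) :=
    fun q => intOn_of_bdd (F := fun u => Z u * (LL q (u + q * Real.log 2) - cc * wt q))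
      (hZm.mul (hLm q)) (B := (L * z) ^ k * (1 + cc * wt q)) (fun u => by
      rw [abs_mul]
      have e1 : |LL q (u + q * Real.log 2) - cc * wt q| ≤ 1 + cc * wt q := by
        have := LL_nonneg q (u + q * Real.log 2)
        have := LL_le_one q (u + q * Real.log 2)
        have : 0 ≤ cc * wt q := mul_nonneg cc_pos.le (wt_nonneg q)
        rw [abs_le]
        constructor <;> linarith
      exact mul_le_mul (hZb u) e1 (abs_nonneg _) (by positivity)) _ _
  -- decomposition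
  have hdec : ∫ u in Set.Ioc b0 b1, ZT F ρ T (k + 1) z u =
      ∑ q ∈ Q, (∫ u in Set.Ioc b0 b1, Z u * gc q u) +
      (∫ u in Set.Ioc b0 b1, ∑ q ∈ Q, Z u * (LL q (u + q * Real.log 2) - cc * wt q)) +
      cc * vT Q * ∫ u in Set.Ioc b0 b1, Z u := by
    have e1 : ∀ u, ZT F ρ T (k + 1) z u = ∑ q ∈ Q, Z u * gc q u +
        ∑ q ∈ Q, Z u * (LL q (u + q * Real.log 2) - cc * wt q) + cc * vT Q * Z u := by
      intro u
      have e2 : ZT F ρ T (k + 1) z u = Z u * cT Q u := by
        simp only [hZ]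
        unfold ZT
        rw [prod_range_succ]
        ring
      rw [e2]
      unfold cT
      have e3 : cc * vT Q * Z u = ∑ q ∈ Q, Z u * (cc * wt q) := by
        unfold vT
        rw [← mul_sum, ← mul_sum]
        ring
      rw [e3, mul_sum, ← sum_add_distrib, ← sum_add_distrib]
      refine sum_congr rfl fun q _ => ?_
      unfold gc
      ring
    simp only [e1]
    have i1 : IntegrableOn (fun u => ∑ q ∈ Q, Z u * gc q u) (Set.Ioc b0 b1) :=
      integrable_finsetSum Q fun q _ => iZg q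
    have i2 : IntegrableOn (fun u => ∑ q ∈ Q, Z u * (LL q (u + q * Real.log 2) - cc * wt q)) (Set.Ioc b0 b1) :=
      integrable_finsetSum Q fun q _ => iZm q
    have i3 : IntegrableOn (fun u => ∑ q ∈ Q, Z u * gc q u +
        ∑ q ∈ Q, Z u * (LL q (u + q * Real.log 2) - cc * wt q)) (Set.Ioc b0 b1) := i1.add i2
    rw [integral_add i3 (iZ.const_mul _), integral_add i1 i2,
      integral_finsetSum Q fun q _ => iZg q, integral_const_mul]
  -- the case of an empty set
  by_cases hne : ∀ i < k, (T i).Nonempty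
  swap
  · push Not at hne
    obtain ⟨i, hik, hi⟩ := hne
    have hc0 : ∀ u, ∏ i ∈ range (k + 1), cT (T i) u = 0 := fun u =>
      prod_eq_zero (mem_range.2 (show i < k + 1 by omega)) (by rw [hi]; simp [cT])
    have hv0 : ∏ i ∈ range (k + 1), vT (T i) = 0 :=
      prod_eq_zero (mem_range.2 (show i < k + 1 by omega)) (by rw [hi]; simp [vT])
    have hv1 : ∏ i ∈ range (k + 1), cc * vT (T i) = 0 :=
      prod_eq_zero (mem_range.2 (show i < k + 1 by omega)) (by rw [hi]; simp [vT])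
    have hz0' : ∀ u, ZT F ρ T (k + 1) z u = 0 := fun u => by unfold ZT; rw [hc0, mul_zero]
    simp only [hz0', hv0, hv1, integral_zero, zero_mul, mul_zero, sub_zero, abs_zero, le_refl]
  have hVlow : (1 / (L' * z)) ^ k ≤ Vk := by
    rw [hVk]
    calc (1 / (L' * z)) ^ k = ∏ _i ∈ range k, (1 / (L' * z)) := by rw [prod_const, card_range]
      _ ≤ ∏ i ∈ range k, vT (T i) := by
          refine prod_le_prod (fun i _ => by positivity) fun i hi => ?_
          have hik := mem_range.1 hi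
          obtain ⟨p, hp⟩ := hne i hik
          have hp' := hTk i hik hp
          obtain ⟨ai, abi⟩ := h0 i (by omega)
          obtain ⟨bi0, biL⟩ := hbb i hik
          rw [mem_Pr (by positivity) (by positivity)] at hp'
          have hp3 : (3 : ℝ) ≤ p := by
            have e1 : 3 / a i ≤ z := by
              refine le_trans ?_ hz6
              exact single_le_sum (f := fun i => 3 / a i)
                (fun j hj => by
                  have := (h0 j (by have := mem_range.1 hj; omega)).1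
                  positivity) hi
            rw [div_le_iff₀ ai] at e1
            have := hp'.2.1
            linarith
          have hp3' : 3 ≤ p := by exact_mod_cast hp3
          calc 1 / (L' * z) ≤ 1 / (p : ℝ) := by
                apply one_div_le_one_div_of_le (by linarith)
                refine hp'.2.2.trans (mul_le_mul_of_nonneg_right ?_ hz0.le)
                linarith
            _ ≤ wt p := one_div_le_wt hp3'
            _ ≤ vT (T i) := by
                unfold vT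
                exact single_le_sum (f := fun p => wt p) (fun p _ => wt_nonneg p) hp
  -- the first error
  have herr1 : |∑ q ∈ Q, (∫ u in Set.Ioc b0 b1, Z u * gc q u)| ≤
      (C * ((L' / a k) ^ (2 * k) * (1 / a k ^ A)) * (1 / (a k * z)) + C * M1 * (1 / (a k * z))) *
        (vT Q * (Vk * T0)) := by
    refine (abs_sum_le_sum_abs _ _).trans ?_
    have e1 : (C * ((L' / a k) ^ (2 * k) * (1 / a k ^ A)) * (1 / (a k * z)) + C * M1 * (1 / (a k * z))) *
        (vT Q * (Vk * T0)) =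
        ∑ q ∈ Q, (C * ((L' / a k) ^ (2 * k) * (1 / a k ^ A)) * (1 / (a k * z)) + C * M1 * (1 / (a k * z))) *
          (wt q * (Vk * T0)) := by
      unfold vT
      rw [sum_mul, mul_sum]
    rw [e1]
    refine sum_le_sum fun q hqQ => ?_
    obtain ⟨c1, c2, c3, c4, c5⟩ := hq q hqQ
    obtain ⟨_, _, hint⟩ := hcond q c3
    have hq0 : (0 : ℝ) < q := haz0.trans c2
    have hr : ⌊L * z⌋₊ ≤ rr ε q := by
      unfold rr
      refine Nat.floor_le_floor ?_
      calc L * z ≤ (2 / 3 - ε) * a k * z := mul_le_mul_of_nonneg_right hε2 hz0.le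
        _ = (2 / 3 - ε) * (a k * z) := by ring
        _ ≤ (2 / 3 - ε) * q := mul_le_mul_of_nonneg_left c2.le (by linarith)
    have hZph : ∀ u, Z u = ph F ρ T k z (rr ε q) (NN (u + rr ε q * Real.log 2)) := fun u =>
      ZT_ph hL1 (fun i hi => ⟨(h0 i (by omega)).1, hbb i hi⟩) hz0 hTk hr u
    have h5 := hint b1 h01 h11 (ph F ρ T k z (rr ε q)) ((L * z) ^ k)
      (fun n => ph_abs hF hbb hz0.le hTk _ n)
    simp only [← hZph] at h5
    have h5' : |∫ u in Set.Ioc b0 b1, Z u * gc q u| ≤ C * ((L * z) ^ k / (q : ℝ) ^ (2 * k + A + 2)) +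
        C * (Real.log q / (q : ℝ) ^ 2) * ∫ u in Set.Ioc b0 b1, |Z u| := h5
    refine h5'.trans ?_
    have hinvq : 1 / (q : ℝ) ≤ 1 / (a k * z) := one_div_le_one_div_of_le haz0 c2.le
    have hwq := wt_nonneg q
    have e2 : (L * z) ^ k / (q : ℝ) ^ (2 * k + A + 2) ≤
        (L' / a k) ^ (2 * k) * (1 / a k ^ A) * (1 / (a k * z)) * (wt q * (Vk * T0)) := by
      have hL'0 : 0 < L' := by linarith
      have e3 : (L' * z) ^ k / (q : ℝ) ^ (2 * k + A + 2) =
          (L' * z / q) ^ (2 * k) * (1 / (L' * z)) ^ k * (1 / (q : ℝ) ^ A) * (1 / q * (1 / q)) := by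
        rw [div_pow, pow_add, pow_add, two_mul, pow_add, pow_add, one_div_pow]
        field_simp
      have e3' : (L * z) ^ k / (q : ℝ) ^ (2 * k + A + 2) ≤ (L' * z) ^ k / (q : ℝ) ^ (2 * k + A + 2) := by
        apply div_le_div_of_nonneg_right _ (by positivity)
        apply pow_le_pow_left₀ (by positivity)
        exact mul_le_mul_of_nonneg_right (by linarith) hz0.le
      refine e3'.trans ?_
      rw [e3]
      have e4 : L' * z / q ≤ L' / a k := by
        rw [div_le_div_iff₀ hq0 hak]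
        calc L' * z * a k = L' * (a k * z) := by ring
          _ ≤ L' * q := mul_le_mul_of_nonneg_left c2.le hL'0.le
      have e5 : 0 ≤ L' * z / q := by positivity
      have e6 : (1 : ℝ) / q * (1 / q) ≤ wt q * (1 / (a k * z)) :=
        mul_le_mul (one_div_le_wt c5) hinvq (by positivity) hwq
      have e7 : 1 / (q : ℝ) ^ A ≤ (1 / a k ^ A) * T0 := by
        calc 1 / (q : ℝ) ^ A ≤ 1 / (a k * z) ^ A :=
              one_div_le_one_div_of_le (by positivity) (pow_le_pow_left₀ haz0.le c2.le A)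
          _ = (1 / a k ^ A) * (1 / z ^ A) := by rw [mul_pow]; field_simp
          _ ≤ (1 / a k ^ A) * T0 := by
              apply mul_le_mul_of_nonneg_left _ (by positivity)
              linarith
      calc (L' * z / q) ^ (2 * k) * (1 / (L' * z)) ^ k * (1 / (q : ℝ) ^ A) * (1 / q * (1 / q)) ≤
            (L' / a k) ^ (2 * k) * Vk * ((1 / a k ^ A) * T0) * (wt q * (1 / (a k * z))) := by
            apply mul_le_mul _ e6 (by positivity) (by positivity)
            apply mul_le_mul _ e7 (by positivity) (by positivity)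
            exact mul_le_mul (pow_le_pow_left₀ e5 e4 _) hVlow (by positivity) (by positivity)
        _ = _ := by ring
    have e7 : Real.log q / (q : ℝ) ^ 2 ≤ wt q * (1 / (a k * z)) := by
      have : Real.log q / (q : ℝ) ^ 2 = wt q * (1 / q) := by
        unfold wt
        field_simp
      rw [this]
      exact mul_le_mul_of_nonneg_left hinvq hwq
    have e8 : C * (Real.log q / (q : ℝ) ^ 2) * ∫ u in Set.Ioc b0 b1, |Z u| ≤
        C * (wt q * (1 / (a k * z))) * (M1 * (Vk * T0)) := by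
      apply mul_le_mul _ hZi hZi0 (by positivity)
      exact mul_le_mul_of_nonneg_left e7 hC.le
    have e9 := mul_le_mul_of_nonneg_left e2 hC.le
    calc _ ≤ C * ((L' / a k) ^ (2 * k) * (1 / a k ^ A) * (1 / (a k * z)) * (wt q * (Vk * T0))) +
          C * (wt q * (1 / (a k * z))) * (M1 * (Vk * T0)) := add_le_add e9 e8
      _ = _ := by ring
  -- the second error
  have herr2 : |∫ u in Set.Ioc b0 b1, ∑ q ∈ Q, Z u * (LL q (u + q * Real.log 2) - cc * wt q)| ≤
      K * M1 * (1 / Real.log (a k * z)) * (vT Q * (Vk * T0)) := by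
    have hlog0 : 0 < Real.log (a k * z) := Real.log_pos (by linarith)
    set D := K * (vT Q * (1 / Real.log (a k * z))) with hD
    have hW0 : 0 ≤ vT Q := vT_nonneg Q
    have hD0 : 0 ≤ D := by positivity
    have h5 : ∀ᵐ u ∂(volume.restrict (Set.Ioc b0 b1)),
        ‖∑ q ∈ Q, Z u * (LL q (u + q * Real.log 2) - cc * wt q)‖ ≤ D * |Z u| := by
      filter_upwards [hmean'] with u hu
      rw [Real.norm_eq_abs, ← mul_sum, abs_mul, mul_comm]
      apply mul_le_mul_of_nonneg_right _ (abs_nonneg _)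
      refine (abs_sum_le_sum_abs _ _).trans ?_
      have e1 : D = ∑ q ∈ Q, K * (wt q * (1 / Real.log (a k * z))) := by
        rw [hD]
        unfold vT
        rw [sum_mul, mul_sum]
      rw [e1]
      refine sum_le_sum fun q hqQ => ?_
      obtain ⟨c1, c2, c3, c4, c5⟩ := hq q hqQ
      refine (hu q c4 c1).trans (mul_le_mul_of_nonneg_left ?_ hK)
      have hq0 : (0 : ℝ) < q := haz0.trans c2
      unfold wt
      rw [div_mul_div_comm, mul_one, div_le_div_iff₀ hq0 (by positivity), one_mul]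
      have := Real.log_le_log haz0 c2.le
      nlinarith
    have h6 := norm_integral_le_of_norm_le (iZa.const_mul D) h5
    rw [Real.norm_eq_abs, integral_const_mul] at h6
    refine h6.trans ?_
    have := mul_le_mul_of_nonneg_left hZi hD0
    calc _ ≤ D * (M1 * (Vk * T0)) := this
      _ = _ := by rw [hD]; ring
  have hih := hz3 T hTk F hF
  rw [hprodc] at hih
  rw [hdec, prod_range_succ, prod_range_succ, hprodc, ← hVk]
  have e10 : ∑ q ∈ Q, (∫ u in Set.Ioc b0 b1, Z u * gc q u) +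
      (∫ u in Set.Ioc b0 b1, ∑ q ∈ Q, Z u * (LL q (u + q * Real.log 2) - cc * wt q)) +
      cc * vT Q * (∫ u in Set.Ioc b0 b1, Z u) - cc ^ k * Vk * (cc * vT Q) * IF =
      ∑ q ∈ Q, (∫ u in Set.Ioc b0 b1, Z u * gc q u) +
      (∫ u in Set.Ioc b0 b1, ∑ q ∈ Q, Z u * (LL q (u + q * Real.log 2) - cc * wt q)) +
      cc * vT Q * ((∫ u in Set.Ioc b0 b1, Z u) - cc ^ k * Vk * IF) := by ring
  rw [e10]
  have hvQ := vT_nonneg Q
  have e12 : |cc * vT Q * ((∫ u in Set.Ioc b0 b1, Z u) - cc ^ k * Vk * IF)| ≤ η / 2 * (vT Q * (Vk * T0)) := by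
    rw [abs_mul, abs_of_nonneg (mul_nonneg hcl.le hvQ)]
    calc cc * vT Q * |(∫ u in Set.Ioc b0 b1, Z u) - cc ^ k * Vk * IF| ≤
          cc * vT Q * (η / (2 * cc) * Vk * T0) :=
          mul_le_mul_of_nonneg_left hih (mul_nonneg hcl.le hvQ)
      _ = η / 2 * (vT Q * (Vk * T0)) := by field_simp
  have hX0 : 0 ≤ vT Q * (Vk * T0) := mul_nonneg hvQ (mul_nonneg hVk0 hT00.le)
  have hz1' : (C * ((L' / a k) ^ (2 * k) * (1 / a k ^ A)) * (1 / (a k * z)) + C * M1 * (1 / (a k * z)) +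
    K * M1 * (1 / Real.log (a k * z))) * (vT Q * (Vk * T0)) ≤ η / 2 * (vT Q * (Vk * T0)) :=
    mul_le_mul_of_nonneg_right hz1 hX0
  have f1 := abs_add_le (∑ q ∈ Q, (∫ u in Set.Ioc b0 b1, Z u * gc q u) +
      (∫ u in Set.Ioc b0 b1, ∑ q ∈ Q, Z u * (LL q (u + q * Real.log 2) - cc * wt q)))
      (cc * vT Q * ((∫ u in Set.Ioc b0 b1, Z u) - cc ^ k * Vk * IF))
  have f3 := abs_add_le (∑ q ∈ Q, (∫ u in Set.Ioc b0 b1, Z u * gc q u))
      (∫ u in Set.Ioc b0 b1, ∑ q ∈ Q, Z u * (LL q (u + q * Real.log 2) - cc * wt q))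
  have e13 : η * (Vk * vT Q) * T0 = η * (vT Q * (Vk * T0)) := by ring
  rw [e13]
  linarith

/-- unit windows -/
theorem joint_unit (hS : SilS) (b0 b1 : ℝ) (h01 : b0 ≤ b1) (h11 : b1 ≤ b0 + 1) (ρ : ℝ) (hρ0 : 0 ≤ ρ)
    (a b : ℕ → ℝ) (A k : ℕ) (h0 : ∀ i < k, 0 < a i ∧ a i < b i)
    (h1 : ∀ i j, i < j → j < k → 3 / 2 * b i < a j) (h2 : ∀ i < k, 3 / 2 * ρ < a i) :
    Joint ρ a b k A b0 b1 := by
  induction k with
  | zero =>
    intro η hη
    filter_upwards [eventually_gt_atTop 0] with z hz T _ F hF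
    simp only [ZT, range_zero, prod_empty, mul_one, one_mul, sub_self, abs_zero]
    have h3 : 0 ≤ ∫ u in Set.Ioc b0 b1, |F (NN (u + ⌊ρ * z⌋₊ * Real.log 2))| :=
      setIntegral_nonneg measurableSet_Ioc fun u _ => abs_nonneg _
    have h4 : 0 < 1 / z ^ A := by positivity
    positivity
  | succ k ih =>
    exact succ_step hS b0 b1 h01 h11 ρ hρ0 a b k A h0 (fun i hi => h1 i k hi (by omega)) (h2 k (by omega))
      (ih (fun i hi => h0 i (by omega)) (fun i j hij hj => h1 i j hij (by omega)) (fun i hi => h2 i (by omega)))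

/-- all windows -/
theorem joint_all (hS : SilS) (ρ : ℝ) (hρ0 : 0 ≤ ρ) (a b : ℕ → ℝ)
    (A k : ℕ) (h0 : ∀ i < k, 0 < a i ∧ a i < b i) (h1 : ∀ i j, i < j → j < k → 3 / 2 * b i < a j)
    (h2 : ∀ i < k, 3 / 2 * ρ < a i) (N : ℕ) : ∀ (s t : ℝ), s ≤ t → t ≤ s + N → Joint ρ a b k A s t := by
  induction N with
  | zero =>
    intro s t hst htN
    have h3 : t ≤ s + 1 := by
      have : t ≤ s := by simpa using htN
      linarith
    exact joint_unit hS s t hst h3 ρ hρ0 a b A k h0 h1 h2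
  | succ N ih =>
    intro s t hst htN
    by_cases hc : t ≤ s + 1
    · exact joint_unit hS s t hst hc ρ hρ0 a b A k h0 h1 h2
    · push Not at hc
      intro η hη
      obtain ⟨L, hL0, hL1, hL2, hL3⟩ := exists_sup ρ b k (max ρ (∑ i ∈ range k, |b i|) + 1) hρ0
        (by have := le_max_left ρ (∑ i ∈ range k, |b i|); linarith)
        (fun i hi => by
          have e1 : |b i| ≤ ∑ i ∈ range k, |b i| :=
            single_le_sum (f := fun i => |b i|) (fun i _ => abs_nonneg _) (mem_range.2 hi)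
          have e2 := le_max_right ρ (∑ i ∈ range k, |b i|)
          have e3 := le_abs_self (b i)
          linarith)
      have hbb : ∀ i < k, 0 < b i ∧ b i ≤ L := fun i hi =>
        ⟨(h0 i (by omega)).1.trans (h0 i (by omega)).2, hL2 i hi⟩
      filter_upwards [joint_unit hS s (s + 1) (by linarith) le_rfl ρ hρ0 a b A k h0 h1 h2 (η / 2) (by linarith),
        ih (s + 1) t hc.le (by push_cast at htN; linarith) (η / 2) (by linarith), eventually_gt_atTop 0]
        with z hz1 hz2 hz0 T hT F hF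
      have g1 := hz1 T hT F hF
      have g2 := hz2 T hT F hF
      have hZb : ∀ u, |ZT F ρ T k z u| ≤ (L * z) ^ k := fun u =>
        (ZT_le_prod hF ρ T k z u).trans (prodT_le hbb hz0.le hT u)
      have iZ : ∀ x y : ℝ, IntegrableOn (fun u => ZT F ρ T k z u) (Set.Ioc x y) := fun x y =>
        intOn_of_bdd (ZT_meas F ρ T k z) hZb x y
      have iF : ∀ x y : ℝ, IntegrableOn (fun u => F (NN (u + ⌊ρ * z⌋₊ * Real.log 2))) (Set.Ioc x y) := fun x y =>
        intOn_of_bdd (FN_meas F _) (B := 1) (fun u => hF _) x y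
      have iFa : ∀ x y : ℝ, IntegrableOn (fun u => |F (NN (u + ⌊ρ * z⌋₊ * Real.log 2))|) (Set.Ioc x y) := fun x y =>
        intOn_of_bdd (measurable_abs.comp (FN_meas F _)) (B := 1)
          (fun u => by rw [Function.comp_apply, abs_abs]; exact hF _) x y
      have hsplit : Set.Ioc s t = Set.Ioc s (s + 1) ∪ Set.Ioc (s + 1) t :=
        (Set.Ioc_union_Ioc_eq_Ioc (by linarith) hc.le).symm
      have hdisj : Disjoint (Set.Ioc s (s + 1)) (Set.Ioc (s + 1) t) := by
        rw [Set.disjoint_left]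
        intro x hx hx'
        exact absurd hx.2 (not_le.2 hx'.1)
      rw [hsplit, setIntegral_union hdisj measurableSet_Ioc (iZ _ _) (iZ _ _),
        setIntegral_union hdisj measurableSet_Ioc (iF _ _) (iF _ _),
        setIntegral_union hdisj measurableSet_Ioc (iFa _ _) (iFa _ _)]
      set V := ∏ i ∈ range k, vT (T i) with hV
      have hV0 : 0 ≤ V := prod_nonneg fun i _ => vT_nonneg _
      set I1 := ∫ u in Set.Ioc s (s + 1), |F (NN (u + ⌊ρ * z⌋₊ * Real.log 2))| with hI1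
      set I2 := ∫ u in Set.Ioc (s + 1) t, |F (NN (u + ⌊ρ * z⌋₊ * Real.log 2))| with hI2
      have hI10 : 0 ≤ I1 := setIntegral_nonneg measurableSet_Ioc fun u _ => abs_nonneg _
      have hI20 : 0 ≤ I2 := setIntegral_nonneg measurableSet_Ioc fun u _ => abs_nonneg _
      have e1 : η / 2 * V * (I1 + 1 / z ^ A) + η / 2 * V * (I2 + 1 / z ^ A) ≤
          η * V * (I1 + I2 + 1 / z ^ A) := by
        have e2 : η / 2 * V * (I1 + 1 / z ^ A) + η / 2 * V * (I2 + 1 / z ^ A) =
          η * V * ((I1 + I2) / 2 + 1 / z ^ A) := by ring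
        rw [e2]
        apply mul_le_mul_of_nonneg_left _ (by positivity)
        linarith
      refine le_trans ?_ e1
      rw [abs_le] at g1 g2 ⊢
      constructor <;> linarith [g1.1, g1.2, g2.1, g2.2]

/-- **Joint correlations of distant exponents, and independence of the leading digits.** -/
theorem joint (hS : SilS) (ρ : ℝ) (hρ0 : 0 ≤ ρ) (a b : ℕ → ℝ)
    (A k : ℕ) (h0 : ∀ i < k, 0 < a i ∧ a i < b i) (h1 : ∀ i j, i < j → j < k → 3 / 2 * b i < a j)
    (h2 : ∀ i < k, 3 / 2 * ρ < a i) {s t : ℝ} (hst : s ≤ t) : Joint ρ a b k A s t := by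
  obtain ⟨N, hN⟩ := exists_nat_ge (t - s)
  exact joint_all hS ρ hρ0 a b A k h0 h1 h2 N s t hst (by linarith)

end Pool.Agent.H176M
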