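import Mathlib

set_option autoImplicit false

/-!
# A law of large numbers for quasi-orthogonal sequences
-/

namespace Pool.Agent.H176M

open Finset Filter Topology MeasureTheory

section

variable {Ω : Type*} [MeasurableSpace Ω] {μ : Measure Ω}

lemma ae_summable {f : ℕ → Ω → ℝ} (hm : ∀ n, Measurable (f n)) (h0 : ∀ n x, 0 ≤ f n x)
    (hi : ∀ n, Integrable (f n) μ) {c : ℕ → ℝ} (hc : Summable c) (hle : ∀ n, ∫ x, f n x ∂μ ≤ c n) :
    ∀ᵐ x ∂μ, Summable fun n => f n x := by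
  have h1 : ∑' n, ∫⁻ x, ENNReal.ofReal (f n x) ∂μ ≠ ⊤ := by
    have h2 : ∀ n, ∫⁻ x, ENNReal.ofReal (f n x) ∂μ = ENNReal.ofReal (∫ x, f n x ∂μ) := fun n =>
      (ofReal_integral_eq_lintegral_ofReal (hi n) (Eventually.of_forall (h0 n))).symm
    simp only [h2]
    have h3 : Summable fun n => ∫ x, f n x ∂μ :=
      Summable.of_nonneg_of_le (fun n => integral_nonneg (h0 n)) hle hc
    exact h3.tsum_ofReal_ne_top
  have hmm : ∀ n, AEMeasurable (fun x => ENNReal.ofReal (f n x)) μ := fun n => (hm n).ennreal_ofReal.aemeasurable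
  have h4 : ∫⁻ x, ∑' n, ENNReal.ofReal (f n x) ∂μ ≠ ⊤ := by
    rw [lintegral_tsum hmm]
    exact h1
  filter_upwards [ae_lt_top' (AEMeasurable.tsum hmm) h4] with x hx
  have h5 : Summable (fun n => (ENNReal.ofReal (f n x)).toReal) := ENNReal.summable_toReal hx.ne
  simpa [ENNReal.toReal_ofReal (h0 _ x)] using h5

lemma kron {y : ℕ → ℝ} (h0 : ∀ j, 0 ≤ y j) (hs : Summable fun j : ℕ => y j / ((j : ℝ) + 1)) :
    Tendsto (fun J : ℕ => (∑ j ∈ range J, y j) / J) atTop (𝓝 0) := by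
  rw [Metric.tendsto_atTop]
  intro ε hε
  have hh : ∀ j, 0 ≤ y j / ((j : ℝ) + 1) := fun j => div_nonneg (h0 j) (by positivity)
  obtain ⟨M, hM⟩ := (Metric.tendsto_atTop.1 hs.hasSum.tendsto_sum_nat) (ε / 2) (by linarith)
  set S := ∑' j, y j / ((j : ℝ) + 1) with hS
  set D := ∑ j ∈ range M, y j with hD
  have hD0 : 0 ≤ D := sum_nonneg fun j _ => h0 j
  obtain ⟨M', hM'⟩ := exists_nat_gt (D / (ε / 2))
  refine ⟨M + M' + 1, fun J hJ => ?_⟩
  have hJ0 : (0 : ℝ) < J := by exact_mod_cast (by omega : 0 < J)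
  have h1 : ∑ j ∈ range J, y j = D + ∑ j ∈ Ico M J, y j := by
    rw [hD, Finset.sum_range_add_sum_Ico _ (by omega)]
  have h2 : (∑ j ∈ Ico M J, y j) / J ≤ ∑ j ∈ Ico M J, y j / ((j : ℝ) + 1) := by
    rw [sum_div]
    refine sum_le_sum fun j hj => ?_
    rw [mem_Ico] at hj
    apply div_le_div_of_nonneg_left (h0 j) (by positivity)
    have : ((j + 1 : ℕ) : ℝ) ≤ J := by exact_mod_cast (by omega : j + 1 ≤ J)
    push_cast at this
    exact this
  have h3 : ∑ j ∈ Ico M J, y j / ((j : ℝ) + 1) < ε / 2 := by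
    have h4 : ∑ j ∈ Ico M J, y j / ((j : ℝ) + 1) =
        ∑ j ∈ range J, y j / ((j : ℝ) + 1) - ∑ j ∈ range M, y j / ((j : ℝ) + 1) :=
      Finset.sum_Ico_eq_sub _ (by omega)
    have h5 : ∑ j ∈ range J, y j / ((j : ℝ) + 1) ≤ S := hs.sum_le_tsum _ (fun j _ => hh j)
    have h6 := hM M le_rfl
    rw [Real.dist_eq] at h6
    have := neg_abs_le (∑ j ∈ range M, y j / ((j : ℝ) + 1) - S)
    linarith
  have h7 : D / J < ε / 2 := by
    rw [div_lt_iff₀ hJ0]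
    rw [div_lt_iff₀ (by linarith)] at hM'
    have h8 : ((M' : ℕ) : ℝ) ≤ J := by exact_mod_cast (by omega : M' ≤ J)
    nlinarith
  have h9 : 0 ≤ (∑ j ∈ range J, y j) / J := div_nonneg (sum_nonneg fun j _ => h0 j) hJ0.le
  rw [Real.dist_eq, sub_zero, abs_of_nonneg h9, h1, add_div]
  linarith

lemma cesaro_mul {x e : ℕ → ℝ} (hx : ∀ j, 0 ≤ x j) {l e0 : ℝ}
    (hxl : Tendsto (fun J : ℕ => (∑ j ∈ range J, x j) / J) atTop (𝓝 l)) (he : Tendsto e atTop (𝓝 e0)) :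
    Tendsto (fun J : ℕ => (∑ j ∈ range J, x j * e j) / J) atTop (𝓝 (l * e0)) := by
  have key : Tendsto (fun J : ℕ => (∑ j ∈ range J, x j * (e j - e0)) / J) atTop (𝓝 0) := by
    have hl0 : 0 ≤ l := ge_of_tendsto' hxl fun J => div_nonneg (sum_nonneg fun j _ => hx j) (Nat.cast_nonneg J)
    rw [Metric.tendsto_atTop]
    intro ε hε
    obtain ⟨M, hM⟩ := (Metric.tendsto_atTop.1 he) (ε / (2 * (l + 1))) (by positivity)
    obtain ⟨M1, hM1⟩ := (Metric.tendsto_atTop.1 hxl) 1 one_pos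
    set D := ∑ j ∈ range M, x j * |e j - e0| with hD
    have hD0 : 0 ≤ D := sum_nonneg fun j _ => mul_nonneg (hx j) (abs_nonneg _)
    obtain ⟨M', hM'⟩ := exists_nat_gt (D / (ε / 2))
    refine ⟨M + M' + M1 + 1, fun J hJ => ?_⟩
    have hJ0 : (0 : ℝ) < J := by exact_mod_cast (by omega : 0 < J)
    have h1 : |∑ j ∈ range J, x j * (e j - e0)| ≤ D + ∑ j ∈ Ico M J, x j * (ε / (2 * (l + 1))) := by
      refine (abs_sum_le_sum_abs _ _).trans ?_
      rw [← Finset.sum_range_add_sum_Ico _ (show M ≤ J by omega)]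
      refine add_le_add (le_of_eq ?_) ?_
      · rw [hD]
        refine sum_congr rfl fun j _ => ?_
        rw [abs_mul, abs_of_nonneg (hx j)]
      · refine sum_le_sum fun j hj => ?_
        rw [abs_mul, abs_of_nonneg (hx j)]
        refine mul_le_mul_of_nonneg_left ?_ (hx j)
        have := hM j (mem_Ico.1 hj).1
        rw [Real.dist_eq] at this
        exact this.le
    have h2 : ∑ j ∈ Ico M J, x j * (ε / (2 * (l + 1))) ≤ (∑ j ∈ range J, x j) * (ε / (2 * (l + 1))) := by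
      rw [← sum_mul]
      apply mul_le_mul_of_nonneg_right _ (by positivity)
      refine sum_le_sum_of_subset_of_nonneg (fun j hj => ?_) fun j _ _ => hx j
      rw [mem_Ico] at hj
      exact mem_range.2 hj.2
    have h3 : (∑ j ∈ range J, x j) / J < l + 1 := by
      have := hM1 J (by omega)
      rw [Real.dist_eq] at this
      have := (abs_lt.1 this).2
      linarith
    have h4 : (∑ j ∈ range J, x j) * (ε / (2 * (l + 1))) / J < ε / 2 := by
      have h5 : (∑ j ∈ range J, x j) * (ε / (2 * (l + 1))) / J =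
          (∑ j ∈ range J, x j) / J * (ε / (2 * (l + 1))) := by ring
      rw [h5]
      calc (∑ j ∈ range J, x j) / J * (ε / (2 * (l + 1))) < (l + 1) * (ε / (2 * (l + 1))) :=
            mul_lt_mul_of_pos_right h3 (by positivity)
        _ = ε / 2 := by field_simp
    have h7 : D / J < ε / 2 := by
      rw [div_lt_iff₀ hJ0]
      rw [div_lt_iff₀ (by linarith)] at hM'
      have h8 : ((M' : ℕ) : ℝ) ≤ J := by exact_mod_cast (by omega : M' ≤ J)
      nlinarith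
    rw [Real.dist_eq, sub_zero, abs_div, abs_of_pos hJ0]
    calc |∑ j ∈ range J, x j * (e j - e0)| / J ≤
          (D + (∑ j ∈ range J, x j) * (ε / (2 * (l + 1)))) / J := by
          apply div_le_div_of_nonneg_right _ hJ0.le
          linarith
      _ = D / J + (∑ j ∈ range J, x j) * (ε / (2 * (l + 1))) / J := by rw [add_div]
      _ < ε := by linarith
  have h2 := key.add (hxl.mul_const e0)
  rw [zero_add] at h2
  refine h2.congr fun J => ?_
  rw [div_mul_eq_mul_div, ← add_div, sum_mul, ← sum_add_distrib]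
  congr 1
  refine sum_congr rfl fun j _ => ?_
  ring

/-- **The law of large numbers.** -/
theorem lln_quasi [IsFiniteMeasure μ] {H : ℕ → Ω → ℝ} (hm : ∀ j, Measurable (H j))
    (hb : ∀ j, ∃ B : ℝ, ∀ x, |H j x| ≤ B) {C : ℝ} (hC : 0 ≤ C)
    (h1 : ∀ j : ℕ, ∫ x, (H j x) ^ 2 ∂μ ≤ C * ((j : ℝ) + 1) ^ ((1 : ℝ) / 4))
    (h2 : ∀ J : ℕ, ∫ x, (∑ j ∈ range J, H j x) ^ 2 ∂μ ≤ C * (J * ((J : ℝ) + 1) ^ ((1 : ℝ) / 4))) :
    ∀ᵐ x ∂μ, Tendsto (fun J : ℕ => (∑ j ∈ range J, H j x) / J) atTop (𝓝 0) := by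
  choose B hB using hb
  have hint : ∀ (G : Ω → ℝ), Measurable G → (∃ b : ℝ, ∀ x, |G x| ≤ b) → Integrable G μ := by
    intro G hG hbG
    obtain ⟨b, hb⟩ := hbG
    exact Integrable.of_bound hG.aestronglyMeasurable b
      (Eventually.of_forall fun x => by rw [Real.norm_eq_abs]; exact hb x)
  have hSm : ∀ s : Finset ℕ, Measurable (fun x => ∑ j ∈ s, H j x) := fun s =>
    Finset.measurable_fun_sum _ fun j _ => hm j
  have hUm : ∀ s : Finset ℕ, Measurable (fun x => ∑ j ∈ s, |H j x|) := fun s =>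
    Finset.measurable_fun_sum _ fun j _ => measurable_abs.comp (hm j)
  have hSb : ∀ (s : Finset ℕ) (x : Ω), |∑ j ∈ s, H j x| ≤ ∑ j ∈ s, B j := fun s x =>
    (abs_sum_le_sum_abs _ _).trans (sum_le_sum fun j _ => hB j x)
  have hUb : ∀ (s : Finset ℕ) (x : Ω), abs (∑ j ∈ s, |H j x|) ≤ ∑ j ∈ s, B j := fun s x => by
    rw [abs_of_nonneg (sum_nonneg fun j _ => abs_nonneg _)]
    exact sum_le_sum fun j _ => hB j x
  have sqb : ∀ {G : Ω → ℝ} {b : ℝ}, (∀ x, |G x| ≤ b) → ∀ (d : ℝ) (x : Ω), |(G x / d) ^ 2| ≤ (b / |d|) ^ 2 := by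
    intro G b h d x
    rw [abs_pow, abs_div]
    exact pow_le_pow_left₀ (by positivity) (div_le_div_of_nonneg_right (h x) (abs_nonneg d)) 2
  have hsum : Summable fun n : ℕ => 64 * C * ((n : ℝ) + 1) ^ (-(3 : ℝ) / 2) := by
    refine Summable.mul_left _ ?_
    have h3 : Summable fun n : ℕ => ((n : ℕ) : ℝ) ^ (-(3 : ℝ) / 2) := Real.summable_nat_rpow.2 (by norm_num)
    have h4 := (summable_nat_add_iff 1).2 h3
    refine h4.congr fun n => ?_
    push_cast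
    rfl
  have hpow : ∀ n : ℕ, 1 ≤ n → ∀ j : ℕ, j + 1 ≤ (n + 1) ^ 2 →
      ((j : ℝ) + 1) ^ ((1 : ℝ) / 4) ≤ ((n : ℝ) + 1) ^ ((1 : ℝ) / 2) := by
    intro n hn j hj
    have h3 : ((j : ℝ) + 1) ≤ ((n : ℝ) + 1) ^ (2 : ℝ) := by
      rw [show ((2 : ℝ)) = ((2 : ℕ) : ℝ) by norm_num, Real.rpow_natCast]
      exact_mod_cast hj
    calc ((j : ℝ) + 1) ^ ((1 : ℝ) / 4) ≤ (((n : ℝ) + 1) ^ (2 : ℝ)) ^ ((1 : ℝ) / 4) :=
          Real.rpow_le_rpow (by positivity) h3 (by norm_num)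
      _ = ((n : ℝ) + 1) ^ ((1 : ℝ) / 2) := by
          rw [← Real.rpow_mul (by positivity)]
          norm_num
  have hfinal : ∀ n : ℕ, 1 ≤ n → ∀ E : ℝ, E ≤ 4 * C * ((n : ℝ) + 1) ^ 2 * ((n : ℝ) + 1) ^ ((1 : ℝ) / 2) →
      E / ((n : ℝ) ^ 2) ^ 2 ≤ 64 * C * ((n : ℝ) + 1) ^ (-(3 : ℝ) / 2) := by
    intro n hn E hE
    have hn1 : (1 : ℝ) ≤ n := by exact_mod_cast hn
    rw [div_le_iff₀ (by positivity)]
    refine hE.trans ?_
    have h3 : ((n : ℝ) + 1) ^ 4 ≤ 16 * ((n : ℝ) ^ 2) ^ 2 := by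
      have h4 : ((n : ℝ) + 1) ≤ 2 * n := by linarith
      calc ((n : ℝ) + 1) ^ 4 ≤ (2 * n) ^ 4 := pow_le_pow_left₀ (by positivity) h4 4
        _ = _ := by ring
    have h5 : ((n : ℝ) + 1) ^ 2 * ((n : ℝ) + 1) ^ ((1 : ℝ) / 2) =
        ((n : ℝ) + 1) ^ (-(3 : ℝ) / 2) * ((n : ℝ) + 1) ^ 4 := by
      have e1 : ((n : ℝ) + 1) ^ 2 = ((n : ℝ) + 1) ^ (2 : ℝ) := by
        rw [show ((2 : ℝ)) = ((2 : ℕ) : ℝ) by norm_num, Real.rpow_natCast]
      have e2 : ((n : ℝ) + 1) ^ 4 = ((n : ℝ) + 1) ^ (4 : ℝ) := by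
        rw [show ((4 : ℝ)) = ((4 : ℕ) : ℝ) by norm_num, Real.rpow_natCast]
      rw [e1, e2, ← Real.rpow_add (by positivity), ← Real.rpow_add (by positivity)]
      norm_num
    have h6 : 0 ≤ ((n : ℝ) + 1) ^ (-(3 : ℝ) / 2) := by positivity
    calc 4 * C * ((n : ℝ) + 1) ^ 2 * ((n : ℝ) + 1) ^ ((1 : ℝ) / 2) =
          4 * C * (((n : ℝ) + 1) ^ (-(3 : ℝ) / 2) * ((n : ℝ) + 1) ^ 4) := by rw [← h5]; ring
      _ ≤ 4 * C * (((n : ℝ) + 1) ^ (-(3 : ℝ) / 2) * (16 * ((n : ℝ) ^ 2) ^ 2)) := by gcongr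
      _ = _ := by ring
  -- the subsequence
  have hA : ∀ᵐ x ∂μ, Summable fun n : ℕ => ((∑ j ∈ range (n ^ 2), H j x) / (n : ℝ) ^ 2) ^ 2 := by
    refine ae_summable (fun n => ((hSm _).div_const _).pow_const 2) (fun n x => sq_nonneg _)
      (fun n => hint _ (((hSm _).div_const _).pow_const 2) ⟨_, fun x => sqb (hSb _) _ x⟩) hsum fun n => ?_
    rcases Nat.eq_zero_or_pos n with h | h
    · subst h
      simp
      positivity
    · simp only [div_pow]
      rw [integral_div]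
      apply hfinal n h
      refine (h2 (n ^ 2)).trans ?_
      have h3 := hpow n h (n ^ 2) (by nlinarith)
      have hn1 : (1 : ℝ) ≤ n := by exact_mod_cast h
      have h4 : ((n ^ 2 : ℕ) : ℝ) ≤ 4 * ((n : ℝ) + 1) ^ 2 := by push_cast; nlinarith
      calc C * (((n ^ 2 : ℕ) : ℝ) * (((n ^ 2 : ℕ) : ℝ) + 1) ^ ((1 : ℝ) / 4)) ≤
            C * ((4 * ((n : ℝ) + 1) ^ 2) * ((n : ℝ) + 1) ^ ((1 : ℝ) / 2)) := by gcongr
        _ = _ := by ring
  -- the blocks
  have hBk : ∀ᵐ x ∂μ, Summable fun n : ℕ =>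
      ((∑ j ∈ Ico (n ^ 2) ((n + 1) ^ 2), |H j x|) / (n : ℝ) ^ 2) ^ 2 := by
    refine ae_summable (fun n => ((hUm _).div_const _).pow_const 2) (fun n x => sq_nonneg _)
      (fun n => hint _ (((hUm _).div_const _).pow_const 2) ⟨_, fun x => sqb (hUb _) _ x⟩) hsum fun n => ?_
    rcases Nat.eq_zero_or_pos n with h | h
    · subst h
      simp
      positivity
    · simp only [div_pow]
      rw [integral_div]
      apply hfinal n h
      have hcard : (Ico (n ^ 2) ((n + 1) ^ 2)).card = 2 * n + 1 := by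
        rw [Nat.card_Ico]
        have : (n + 1) ^ 2 = n ^ 2 + (2 * n + 1) := by ring
        omega
      have h3 : ∀ x, (∑ j ∈ Ico (n ^ 2) ((n + 1) ^ 2), |H j x|) ^ 2 ≤
          (2 * n + 1 : ℝ) * ∑ j ∈ Ico (n ^ 2) ((n + 1) ^ 2), (H j x) ^ 2 := by
        intro x
        have h4 := sq_sum_le_card_mul_sum_sq (s := Ico (n ^ 2) ((n + 1) ^ 2)) (f := fun j => |H j x|)
        rw [hcard] at h4
        simp only [sq_abs] at h4
        push_cast at h4
        exact h4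
      have h5 : ∀ j, Integrable (fun x => (H j x) ^ 2) μ := fun j =>
        hint _ ((hm j).pow_const 2) ⟨(B j) ^ 2, fun x => by
          rw [abs_pow]; exact pow_le_pow_left₀ (abs_nonneg _) (hB j x) 2⟩
      calc ∫ x, (∑ j ∈ Ico (n ^ 2) ((n + 1) ^ 2), |H j x|) ^ 2 ∂μ ≤
            ∫ x, (2 * n + 1 : ℝ) * ∑ j ∈ Ico (n ^ 2) ((n + 1) ^ 2), (H j x) ^ 2 ∂μ := by
            refine integral_mono ?_ ?_ h3
            · exact hint _ ((hUm _).pow_const 2) ⟨(∑ j ∈ Ico (n ^ 2) ((n + 1) ^ 2), B j) ^ 2, fun x => by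
                rw [abs_pow]; exact pow_le_pow_left₀ (abs_nonneg _) (hUb _ x) 2⟩
            · exact (integrable_finsetSum _ fun j _ => h5 j).const_mul _
        _ = (2 * n + 1 : ℝ) * ∑ j ∈ Ico (n ^ 2) ((n + 1) ^ 2), ∫ x, (H j x) ^ 2 ∂μ := by
            rw [integral_const_mul, integral_finsetSum _ fun j _ => h5 j]
        _ ≤ (2 * n + 1 : ℝ) * ∑ j ∈ Ico (n ^ 2) ((n + 1) ^ 2), C * ((n : ℝ) + 1) ^ ((1 : ℝ) / 2) := by
            apply mul_le_mul_of_nonneg_left _ (by positivity)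
            refine sum_le_sum fun j hj => ?_
            rw [mem_Ico] at hj
            exact (h1 j).trans (mul_le_mul_of_nonneg_left (hpow n h j (by omega)) hC)
        _ = (2 * n + 1 : ℝ) * ((2 * n + 1 : ℝ) * (C * ((n : ℝ) + 1) ^ ((1 : ℝ) / 2))) := by
            rw [sum_const, hcard, nsmul_eq_mul]
            push_cast
            ring
        _ ≤ (2 * (n + 1) : ℝ) * ((2 * (n + 1) : ℝ) * (C * ((n : ℝ) + 1) ^ ((1 : ℝ) / 2))) := by
            gcongr <;> linarith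
        _ = _ := by ring
  filter_upwards [hA, hBk] with x hx1 hx2
  have t1 := hx1.tendsto_atTop_zero
  have t2 := hx2.tendsto_atTop_zero
  have t1' : Tendsto (fun n : ℕ => |(∑ j ∈ range (n ^ 2), H j x) / (n : ℝ) ^ 2|) atTop (𝓝 0) := by
    have := t1.sqrt
    simpa [Real.sqrt_sq_eq_abs] using this
  have t2' : Tendsto (fun n : ℕ => |(∑ j ∈ Ico (n ^ 2) ((n + 1) ^ 2), |H j x|) / (n : ℝ) ^ 2|) atTop (𝓝 0) := by
    have := t2.sqrt
    simpa [Real.sqrt_sq_eq_abs] using this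
  have t3 := t1'.add t2'
  rw [add_zero] at t3
  have hsq : Tendsto Nat.sqrt atTop atTop := by
    refine tendsto_atTop.2 fun m => ?_
    filter_upwards [eventually_ge_atTop (m * m)] with J hJ
    exact Nat.le_sqrt.2 hJ
  have t4 := t3.comp hsq
  rw [tendsto_zero_iff_abs_tendsto_zero]
  refine squeeze_zero' (Eventually.of_forall fun J => abs_nonneg _) ?_ t4
  filter_upwards [eventually_ge_atTop 1] with J hJ
  set n := Nat.sqrt J with hn
  have hn1 : 1 ≤ n := by rw [hn, Nat.le_sqrt]; omega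
  have a1 : n ^ 2 ≤ J := Nat.sqrt_le' J
  have a2 : J < (n + 1) ^ 2 := Nat.lt_succ_sqrt' J
  have hn0 : (0 : ℝ) < (n : ℝ) ^ 2 := by
    have : (1 : ℝ) ≤ n := by exact_mod_cast hn1
    positivity
  have hJn : (n : ℝ) ^ 2 ≤ J := by exact_mod_cast a1
  have e1 : ∑ j ∈ range J, H j x = ∑ j ∈ range (n ^ 2), H j x + ∑ j ∈ Ico (n ^ 2) J, H j x :=
    (Finset.sum_range_add_sum_Ico _ a1).symm
  have e2 : |∑ j ∈ Ico (n ^ 2) J, H j x| ≤ ∑ j ∈ Ico (n ^ 2) ((n + 1) ^ 2), |H j x| := by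
    refine (abs_sum_le_sum_abs _ _).trans ?_
    exact sum_le_sum_of_subset_of_nonneg (Finset.Ico_subset_Ico le_rfl a2.le) fun j _ _ => abs_nonneg _
  have e3 : 0 ≤ ∑ j ∈ Ico (n ^ 2) ((n + 1) ^ 2), |H j x| := sum_nonneg fun j _ => abs_nonneg _
  simp only [Function.comp_apply, ← hn]
  have hJ0 : (0 : ℝ) < J := hn0.trans_le hJn
  rw [abs_div, abs_div, abs_div, abs_of_pos hJ0, abs_of_pos hn0, abs_of_nonneg e3, ← add_div, e1]
  apply div_le_div₀ (by positivity) _ hn0 hJn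
  exact (abs_add_le _ _).trans (add_le_add le_rfl e2)

end

end Pool.Agent.H176M
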