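import Mathlib
import Pool.Agent.H176M.Pfx
import Pool.Agent.H176M.Lln

set_option autoImplicit false

/-!
# Truncation of the products of the counting functions
-/

namespace Pool.Agent.H176M

open Finset Filter Topology MeasureTheory
open Pool.Agent.TH888.R (wt wt_nonneg)

/-- the windows are increasing with ratios larger than `3 / 2` -/
def Wd (a b : ℕ → ℝ) (k : ℕ) : Prop := (∀ i < k, 0 < a i ∧ a i < b i) ∧ ∀ i j, i < j → j < k → 3 / 2 * b i < a j

lemma Wd.pred {a b : ℕ → ℝ} {k : ℕ} (h : Wd a b (k + 1)) : Wd a b k :=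
  ⟨fun i hi => h.1 i (by omega), fun i j hij hj => h.2 i j hij (by omega)⟩

/-- the product of the counting functions at the scale `R ^ j` -/
noncomputable def XX (a b : ℕ → ℝ) (R : ℝ) (k j : ℕ) (u : ℝ) : ℝ :=
  ∏ i ∈ range k, cT (Pr (a i * R ^ j) (b i * R ^ j)) u

lemma XX_succ (a b : ℕ → ℝ) (R : ℝ) (k j : ℕ) (u : ℝ) :
    XX a b R (k + 1) j u = XX a b R k j u * cT (Pr (a k * R ^ j) (b k * R ^ j)) u := by
  unfold XX
  rw [prod_range_succ]

lemma XX_nonneg (a b : ℕ → ℝ) (R : ℝ) (k j : ℕ) (u : ℝ) : 0 ≤ XX a b R k j u :=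
  prod_nonneg fun i _ => cT_nonneg _ _

lemma XX_le {a b : ℕ → ℝ} {R : ℝ} (hR : 1 < R) {k : ℕ} {L : ℝ} (hb : ∀ i < k, 0 < b i ∧ b i ≤ L) (j : ℕ) (u : ℝ) :
    XX a b R k j u ≤ (L * R ^ j) ^ k :=
  prodT_le (T := fun i => Pr (a i * R ^ j) (b i * R ^ j)) hb (by positivity) (fun _ _ => subset_rfl) u

lemma XX_pf {a b : ℕ → ℝ} {R : ℝ} (hR : 1 < R) {k : ℕ} {L : ℝ} (h : ∀ i < k, 0 < a i ∧ 0 < b i ∧ b i ≤ L) (j : ℕ) :
    PF ⌊L * R ^ j⌋₊ (XX a b R k j) := by
  refine PF.prod (range k) fun i hi => ?_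
  obtain ⟨h1, h2, h3⟩ := h i (mem_range.1 hi)
  have hRj : 0 < R ^ j := by positivity
  exact PF.cW (by positivity) (by positivity) (Nat.floor_le_floor (mul_le_mul_of_nonneg_right h3 hRj.le))

lemma pow_ge_lin {R : ℝ} (hR : 1 < R) : ∃ c : ℝ, 0 < c ∧ ∀ j : ℕ, c * ((j : ℝ) + 1) ≤ R ^ j := by
  refine ⟨min 1 (R - 1), lt_min one_pos (by linarith), fun j => ?_⟩
  have h := one_add_mul_le_pow (show (-2 : ℝ) ≤ R - 1 by linarith) j
  have h1 : min 1 (R - 1) ≤ 1 := min_le_left _ _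
  have h2 : min 1 (R - 1) ≤ R - 1 := min_le_right _ _
  have hj : (0 : ℝ) ≤ j := Nat.cast_nonneg j
  have e : 1 + (R - 1) = R := by ring
  rw [e] at h
  nlinarith

lemma R_tendsto {R : ℝ} (hR : 1 < R) : Tendsto (fun j : ℕ => R ^ j) atTop atTop :=
  tendsto_pow_atTop_atTop_of_one_lt hR

lemma min_loss {c t : ℝ} (hc : 0 ≤ c) (ht : 0 < t) : c - min c t ≤ c ^ 2 / t := by
  rcases le_total c t with h | h
  · rw [min_eq_left h, sub_self]; positivity
  · rw [min_eq_right h, le_div_iff₀ ht]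
    nlinarith

lemma rpow_decay {x y : ℝ} (hxy : y ≤ x) (j : ℕ) : ((j : ℝ) + 1) ^ (-x) ≤ ((j : ℝ) + 1) ^ (-y) :=
  Real.rpow_le_rpow_of_exponent_le (by have : (0 : ℝ) ≤ j := Nat.cast_nonneg j; linarith) (by linarith)

/-- **Truncation.** -/
theorem trunc (hS : SilS) (b0 : ℝ) {R : ℝ} (hR : 1 < R) (a b : ℕ → ℝ) (k : ℕ) (hW : Wd a b k) :
    ∀ θ : ℝ, 0 < θ → ∃ θ' : ℝ, 0 < θ' ∧ ∃ C : ℝ, 0 < C ∧ ∃ j0 : ℕ, ∃ Y : ℕ → ℝ → ℝ,
      (∀ (j : ℕ) (ρ : ℝ), 0 ≤ ρ → (∀ i < k, b i ≤ ρ) → PF ⌊ρ * R ^ j⌋₊ (Y j)) ∧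
      (∀ j u, 0 ≤ Y j u ∧ Y j u ≤ XX a b R k j u ∧ Y j u ≤ ((j : ℝ) + 1) ^ θ) ∧
      ∀ j ≥ j0, ∫ u in Set.Ioc b0 (b0 + 1), (XX a b R k j u - Y j u) ≤ C * ((j : ℝ) + 1) ^ (-θ') := by
  induction k with
  | zero =>
    intro θ hθ
    refine ⟨1, one_pos, 1, one_pos, 0, fun _ _ => 1, fun j ρ _ _ => PF.const _ 1, fun j u => ?_, fun j _ => ?_⟩
    · refine ⟨zero_le_one, by simp [XX], ?_⟩
      exact Real.one_le_rpow (by have : (0 : ℝ) ≤ j := Nat.cast_nonneg j; linarith) hθ.le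
    · simp only [XX, range_zero, prod_empty, sub_self, integral_zero]
      positivity
  | succ k ih =>
    intro θ hθ
    obtain ⟨θ1, hθ1, C1, hC1, j1, Y, hYpf, hY, hYloss⟩ := ih hW.pred (θ / 4) (by linarith)
    obtain ⟨hak, hakb⟩ := hW.1 k (by omega)
    have hbk : 0 < b k := hak.trans hakb
    obtain ⟨L, hL0, hL1, hL2, hL3⟩ := exists_sup 0 b k (2 / 3 * a k) le_rfl (by linarith)
      (fun i hi => by have := hW.2 i k hi (by omega); linarith)
    have hbb : ∀ i < k, 0 < b i ∧ b i ≤ L := fun i hi =>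
      ⟨(hW.1 i (by omega)).1.trans (hW.1 i (by omega)).2, hL2 i hi⟩
    -- one window on top
    obtain ⟨K, hK, hub⟩ := joint_ub hS b0 L hL0 (fun _ => a k) (fun _ => b k) (k + 1) 1
      (fun i _ => ⟨hak, hakb⟩) (fun i j hij hj => by omega) (fun i _ => by linarith)
    obtain ⟨K2, hK2, hsq⟩ := cT_sq hS b0 hak hakb
    obtain ⟨c, hc, hcj⟩ := pow_ge_lin hR
    obtain ⟨j2, hj2⟩ := eventually_atTop.1 ((R_tendsto hR).eventually (hub.and hsq))
    set θ' := min θ1 (min 1 (θ / 2)) with hθ'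
    have hθ'0 : 0 < θ' := lt_min hθ1 (lt_min one_pos (by linarith))
    set L' := L + 1 with hL'
    refine ⟨θ', hθ'0, K * (C1 + L' ^ k / c) + K2, by positivity, j1 + j2,
      fun j u => Y j u * min (cT (Pr (a k * R ^ j) (b k * R ^ j)) u) (((j : ℝ) + 1) ^ (3 * θ / 4)), ?_, ?_, ?_⟩
    · intro j ρ hρ0 hρ
      have hRj : 0 < R ^ j := by positivity
      refine (hYpf j ρ hρ0 fun i hi => hρ i (by omega)).mul ?_
      exact (PF.cW (by positivity) (by positivity)
        (Nat.floor_le_floor (mul_le_mul_of_nonneg_right (hρ k (by omega)) hRj.le))).comp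
        (fun x => min x (((j : ℝ) + 1) ^ (3 * θ / 4)))
    · intro j u
      obtain ⟨y1, y2, y3⟩ := hY j u
      have hj : (0 : ℝ) ≤ j := Nat.cast_nonneg j
      have ht : 0 < ((j : ℝ) + 1) ^ (3 * θ / 4) := by positivity
      have hc0 := cT_nonneg (Pr (a k * R ^ j) (b k * R ^ j)) u
      have hm0 : 0 ≤ min (cT (Pr (a k * R ^ j) (b k * R ^ j)) u) (((j : ℝ) + 1) ^ (3 * θ / 4)) :=
        le_min hc0 ht.le
      refine ⟨mul_nonneg y1 hm0, ?_, ?_⟩
      · rw [XX_succ]
        exact mul_le_mul y2 (min_le_left _ _) hm0 (XX_nonneg _ _ _ _ _ _)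
      · calc _ ≤ ((j : ℝ) + 1) ^ (θ / 4) * ((j : ℝ) + 1) ^ (3 * θ / 4) :=
              mul_le_mul y3 (min_le_right _ _) hm0 (by positivity)
          _ = ((j : ℝ) + 1) ^ θ := by
              rw [← Real.rpow_add (by positivity)]
              congr 1
              ring
    · intro j hj
      obtain ⟨hu1, hu2⟩ := hj2 j (by omega)
      have hRj : 0 < R ^ j := by positivity
      have hRj1 : 1 ≤ R ^ j := one_le_pow₀ hR.le
      have hjr : (0 : ℝ) ≤ j := Nat.cast_nonneg j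
      set cj : ℝ → ℝ := fun u => cT (Pr (a k * R ^ j) (b k * R ^ j)) u with hcjd
      have hcjm : Measurable cj := cT_meas _
      have hcj0 : ∀ u, 0 ≤ cj u := fun u => cT_nonneg _ _
      have hcjb : ∀ u, cj u ≤ b k * R ^ j := fun u => cT_le (by positivity) subset_rfl u
      set t := ((j : ℝ) + 1) ^ (3 * θ / 4) with ht
      have ht0 : 0 < t := by positivity
      have hXpf := XX_pf (a := a) (b := b) hR (k := k) (L := L) (fun i hi => ⟨(hW.1 i (by omega)).1, hbb i hi⟩) j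
      have hYpf' := hYpf j L hL0 hL2
      set E : ℝ → ℝ := fun u => XX a b R k j u - Y j u with hE
      have hE0 : ∀ u, 0 ≤ E u := fun u => by have := (hY j u).2.1; simp only [hE]; linarith
      have hEpf : PF ⌊L * R ^ j⌋₊ E := hXpf.sub hYpf'
      have hEb : ∀ u, E u ≤ (L' * R ^ j) ^ k := fun u => by
        have h3 := XX_le (a := a) (b := b) hR (k := k) (L := L) hbb j u
        have h4 := (hY j u).1
        have h5 : (L * R ^ j) ^ k ≤ (L' * R ^ j) ^ k := by
          apply pow_le_pow_left₀ (by positivity)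
          exact mul_le_mul_of_nonneg_right (by linarith) hRj.le
        simp only [hE]
        linarith
      have hXm : Measurable (XX a b R k j) := hXpf.meas
      have hYm : Measurable (Y j) := hYpf'.meas
      have hYb : ∀ u, |Y j u| ≤ ((j : ℝ) + 1) ^ (θ / 4) := fun u => by
        rw [abs_of_nonneg (hY j u).1]; exact (hY j u).2.2
      -- split
      have e1 : ∀ u, XX a b R (k + 1) j u - Y j u * min (cT (Pr (a k * R ^ j) (b k * R ^ j)) u) t ≤
          E u * cj u + ((j : ℝ) + 1) ^ (θ / 4) * (1 / t) * (cj u) ^ 2 := by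
        intro u
        rw [XX_succ]
        have h3 := min_loss (hcj0 u) ht0
        have h4 : Y j u * (cj u - min (cj u) t) ≤ ((j : ℝ) + 1) ^ (θ / 4) * ((cj u) ^ 2 / t) := by
          apply mul_le_mul (hY j u).2.2 h3 _ (by positivity)
          have := min_le_left (cj u) t
          linarith
        have h5 : ((j : ℝ) + 1) ^ (θ / 4) * (1 / t) * (cj u) ^ 2 = ((j : ℝ) + 1) ^ (θ / 4) * ((cj u) ^ 2 / t) := by
          ring
        rw [h5]
        simp only [hE, hcjd] at h4 ⊢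
        nlinarith
      have iE : IntegrableOn (fun u => E u * cj u) (Set.Ioc b0 (b0 + 1)) :=
        intOn_of_bdd (F := fun u => E u * cj u) (hEpf.meas.mul hcjm) (B := (L' * R ^ j) ^ k * (b k * R ^ j))
          (fun u => by
            rw [abs_of_nonneg (mul_nonneg (hE0 u) (hcj0 u))]
            exact mul_le_mul (hEb u) (hcjb u) (hcj0 u) (by positivity)) _ _
      have iC : IntegrableOn (fun u => (cj u) ^ 2) (Set.Ioc b0 (b0 + 1)) :=
        intOn_of_bdd (F := fun u => (cj u) ^ 2) (hcjm.pow_const 2) (B := (b k * R ^ j) ^ 2)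
          (fun u => by
            rw [abs_of_nonneg (sq_nonneg _)]
            exact pow_le_pow_left₀ (hcj0 u) (hcjb u) 2) _ _
      have iL : IntegrableOn (fun u => XX a b R (k + 1) j u - Y j u * min (cT (Pr (a k * R ^ j) (b k * R ^ j)) u) t)
          (Set.Ioc b0 (b0 + 1)) := by
        refine Integrable.mono' (iE.add (iC.const_mul (((j : ℝ) + 1) ^ (θ / 4) * (1 / t)))) ?_ ?_
        · have e2 : (fun u => XX a b R (k + 1) j u - Y j u * min (cT (Pr (a k * R ^ j) (b k * R ^ j)) u) t) =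
              fun u => XX a b R k j u * cj u - Y j u * min (cj u) t := by
            funext u
            rw [XX_succ]
          rw [e2]
          exact ((hXm.mul hcjm).sub (hYm.mul (hcjm.min measurable_const))).aestronglyMeasurable
        · refine Eventually.of_forall fun u => ?_
          have h3 : 0 ≤ XX a b R (k + 1) j u - Y j u * min (cT (Pr (a k * R ^ j) (b k * R ^ j)) u) t := by
            rw [XX_succ, sub_nonneg]
            exact mul_le_mul (hY j u).2.1 (min_le_left _ _) (le_min (cT_nonneg _ _) ht0.le) (XX_nonneg _ _ _ _ _ _)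
          rw [Real.norm_eq_abs, abs_of_nonneg h3]
          exact e1 u
      have h1 : ∫ u in Set.Ioc b0 (b0 + 1), (XX a b R (k + 1) j u -
          Y j u * min (cT (Pr (a k * R ^ j) (b k * R ^ j)) u) t) ≤
          (∫ u in Set.Ioc b0 (b0 + 1), E u * cj u) +
          ((j : ℝ) + 1) ^ (θ / 4) * (1 / t) * ∫ u in Set.Ioc b0 (b0 + 1), (cj u) ^ 2 := by
        rw [← integral_const_mul, ← integral_add iE (iC.const_mul _)]
        exact setIntegral_mono_on iL (iE.add (iC.const_mul _)) measurableSet_Ioc fun u _ => e1 u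
      refine h1.trans ?_
      -- the first part
      have h2 := hu1 E ((L' * R ^ j) ^ k) hEpf (by positivity) hE0 hEb
      simp only [prod_range_one] at h2
      have h3 : (L' * R ^ j) ^ k / (R ^ j) ^ (k + 1) ≤ L' ^ k / c * ((j : ℝ) + 1) ^ (-θ') := by
        have e2 : (L' * R ^ j) ^ k / (R ^ j) ^ (k + 1) = L' ^ k * (1 / R ^ j) := by
          rw [mul_pow, pow_succ]
          field_simp
        rw [e2]
        have h4 : 1 / R ^ j ≤ 1 / c * ((j : ℝ) + 1) ^ (-θ') := by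
          have h5 : ((j : ℝ) + 1) ^ (-(1 : ℝ)) ≤ ((j : ℝ) + 1) ^ (-θ') :=
            rpow_decay (by rw [hθ']; exact (min_le_right _ _).trans (min_le_left _ _)) j
          rw [Real.rpow_neg_one] at h5
          calc 1 / R ^ j ≤ 1 / (c * ((j : ℝ) + 1)) := one_div_le_one_div_of_le (by positivity) (hcj j)
            _ = 1 / c * ((j : ℝ) + 1)⁻¹ := by field_simp
            _ ≤ _ := mul_le_mul_of_nonneg_left h5 (by positivity)
        calc L' ^ k * (1 / R ^ j) ≤ L' ^ k * (1 / c * ((j : ℝ) + 1) ^ (-θ')) :=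
              mul_le_mul_of_nonneg_left h4 (by positivity)
          _ = _ := by ring
      have h4 : ∫ u in Set.Ioc b0 (b0 + 1), E u ≤ C1 * ((j : ℝ) + 1) ^ (-θ') := by
        refine (hYloss j (by omega)).trans (mul_le_mul_of_nonneg_left ?_ hC1.le)
        exact rpow_decay (min_le_left _ _) j
      have h5 : ∫ u in Set.Ioc b0 (b0 + 1), E u * cj u ≤ K * (C1 + L' ^ k / c) * ((j : ℝ) + 1) ^ (-θ') := by
        refine h2.trans ?_
        calc _ ≤ K * (C1 * ((j : ℝ) + 1) ^ (-θ') + L' ^ k / c * ((j : ℝ) + 1) ^ (-θ')) :=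
              mul_le_mul_of_nonneg_left (add_le_add h4 h3) hK.le
          _ = _ := by ring
      -- the second part
      have h6 : ((j : ℝ) + 1) ^ (θ / 4) * (1 / t) ≤ ((j : ℝ) + 1) ^ (-θ') := by
        have e2 : ((j : ℝ) + 1) ^ (θ / 4) * (1 / t) = ((j : ℝ) + 1) ^ (-(θ / 2)) := by
          rw [ht, one_div, ← Real.rpow_neg (by positivity), ← Real.rpow_add (by positivity)]
          congr 1
          ring
        rw [e2]
        exact rpow_decay (by rw [hθ']; exact (min_le_right _ _).trans (min_le_right _ _)) j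
      have h7 : ((j : ℝ) + 1) ^ (θ / 4) * (1 / t) * ∫ u in Set.Ioc b0 (b0 + 1), (cj u) ^ 2 ≤
          K2 * ((j : ℝ) + 1) ^ (-θ') := by
        rw [mul_comm K2]
        refine mul_le_mul h6 hu2 ?_ (by positivity)
        exact setIntegral_nonneg measurableSet_Ioc fun u _ => sq_nonneg _
      calc _ ≤ K * (C1 + L' ^ k / c) * ((j : ℝ) + 1) ^ (-θ') + K2 * ((j : ℝ) + 1) ^ (-θ') := add_le_add h5 h7
        _ = _ := by ring

end Pool.Agent.H176M
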