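import Mathlib
import Pool.Agent.H176M.Lln

set_option autoImplicit false

/-!
# A law of large numbers from bounds for the correlations
-/

namespace Pool.Agent.H176M

open Finset Filter Topology MeasureTheory

variable {Ω : Type*} [MeasurableSpace Ω] {μ : Measure Ω}

/-- the weight -/
noncomputable def ww (j : ℕ) : ℝ := ((j : ℝ) + 1) ^ ((1 : ℝ) / 4)

lemma one_le_ww (j : ℕ) : 1 ≤ ww j :=
  Real.one_le_rpow (by have : (0 : ℝ) ≤ j := Nat.cast_nonneg j; linarith) (by norm_num)

lemma ww_mono {i j : ℕ} (h : i ≤ j) : ww i ≤ ww j := by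
  unfold ww
  apply Real.rpow_le_rpow (by positivity) _ (by norm_num)
  have : (i : ℝ) ≤ j := by exact_mod_cast h
  linarith

/-- **The law of large numbers for sequences with small correlations at distance at least `m`.** -/
theorem lln_corr [IsFiniteMeasure μ] {H : ℕ → Ω → ℝ} (hm : ∀ j, Measurable (H j))
    (hb : ∀ j, ∃ B : ℝ, ∀ x, |H j x| ≤ B) {K C : ℝ} (hK : 0 ≤ K) (hC : 0 ≤ C) (m : ℕ)
    (h1 : ∀ j : ℕ, ∫ x, (H j x) ^ 2 ∂μ ≤ K * ww j)
    (h2 : ∀ i j : ℕ, i + m ≤ j → |∫ x, H i x * H j x ∂μ| ≤ C * ww j / ((j : ℝ) + 1)) :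
    ∀ᵐ x ∂μ, Tendsto (fun J : ℕ => (∑ j ∈ range J, H j x) / J) atTop (𝓝 0) := by
  have hb' := hb
  choose B hB using hb'
  have hint2 : ∀ i j, Integrable (fun x => H i x * H j x) μ := fun i j =>
    Integrable.of_bound ((hm i).mul (hm j)).aestronglyMeasurable (B i * B j)
      (Eventually.of_forall fun x => by
        rw [Real.norm_eq_abs, abs_mul]
        exact mul_le_mul (hB i x) (hB j x) (abs_nonneg _) ((abs_nonneg _).trans (hB i x)))
  have hsq : ∀ i, Integrable (fun x => (H i x) ^ 2) μ := fun i => by
    refine (hint2 i i).congr (Eventually.of_forall fun x => ?_)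
    simp only
    ring
  -- correlations at all distances
  have hcs : ∀ i j : ℕ, i ≤ j → |∫ x, H i x * H j x ∂μ| ≤ K * ww j := by
    intro i j hij
    have h3 : |∫ x, H i x * H j x ∂μ| ≤ ∫ x, ((H i x) ^ 2 + (H j x) ^ 2) / 2 ∂μ := by
      refine (abs_integral_le_integral_abs).trans ?_
      refine integral_mono (hint2 i j).abs (((hsq i).add (hsq j)).div_const 2) fun x => ?_
      simp only
      rw [abs_mul]
      have := sq_nonneg (|H i x| - |H j x|)
      have e1 := sq_abs (H i x)
      have e2 := sq_abs (H j x)
      nlinarith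
    refine h3.trans ?_
    rw [integral_div, integral_add (hsq i) (hsq j)]
    have h4 := h1 i
    have h5 := h1 j
    have h6 : K * ww i ≤ K * ww j := mul_le_mul_of_nonneg_left (ww_mono hij) hK
    linarith
  have hrow : ∀ j : ℕ, ∑ i ∈ range j, |∫ x, H i x * H j x ∂μ| ≤ (m * K + C) * ww j := by
    intro j
    have hwj := one_le_ww j
    calc ∑ i ∈ range j, |∫ x, H i x * H j x ∂μ| ≤
          ∑ i ∈ range j, (C * ww j / ((j : ℝ) + 1) + if j < i + m then K * ww j else 0) := by
          refine sum_le_sum fun i hi => ?_
          rw [mem_range] at hi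
          split_ifs with h
          · have h3 := hcs i j hi.le
            have : 0 ≤ C * ww j / ((j : ℝ) + 1) := by positivity
            linarith
          · rw [add_zero]
            exact h2 i j (by omega)
      _ = j * (C * ww j / ((j : ℝ) + 1)) + ((range j).filter (fun i => j < i + m)).card * (K * ww j) := by
          rw [sum_add_distrib, sum_const, card_range, nsmul_eq_mul, ← sum_filter, sum_const, nsmul_eq_mul]
      _ ≤ C * ww j + m * (K * ww j) := by
          refine add_le_add ?_ ?_
          · rw [mul_div_assoc', div_le_iff₀ (by positivity)]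
            have : 0 ≤ C * ww j := by positivity
            nlinarith
          · apply mul_le_mul_of_nonneg_right _ (by positivity)
            have : ((range j).filter (fun i => j < i + m)).card ≤ m := by
              calc _ ≤ (Ico (j - m) j).card := card_le_card fun i hi => by
                      rw [mem_filter, mem_range] at hi
                      rw [mem_Ico]
                      omega
                _ ≤ m := by rw [Nat.card_Ico]; omega
            exact_mod_cast this
      _ = _ := by ring
  set D := 2 * (m * K + C) + K with hD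
  have hD0 : 0 ≤ D := by positivity
  refine lln_quasi hm hb (C := D) hD0 (fun j => ?_) fun J => ?_
  · refine (h1 j).trans ?_
    have : K ≤ D := by
      have : (0 : ℝ) ≤ m * K + C := by positivity
      linarith
    exact mul_le_mul_of_nonneg_right this (by have := one_le_ww j; linarith)
  · induction J with
    | zero => simp
    | succ J ih =>
      have e1 : ∀ x, (∑ j ∈ range (J + 1), H j x) ^ 2 = (∑ j ∈ range J, H j x) ^ 2 +
          2 * ∑ i ∈ range J, H i x * H J x + (H J x) ^ 2 := by
        intro x
        rw [sum_range_succ, ← sum_mul]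
        ring
      simp only [e1]
      have i0 : Integrable (fun x => (∑ j ∈ range J, H j x) ^ 2) μ := by
        refine Integrable.of_bound ((Finset.measurable_fun_sum _ fun j _ => hm j).pow_const 2).aestronglyMeasurable
          ((∑ j ∈ range J, B j) ^ 2) (Eventually.of_forall fun x => ?_)
        rw [Real.norm_eq_abs, abs_pow]
        refine pow_le_pow_left₀ (abs_nonneg _) ?_ 2
        exact (abs_sum_le_sum_abs _ _).trans (sum_le_sum fun j _ => hB j x)
      have i1 : Integrable (fun x => ∑ i ∈ range J, H i x * H J x) μ := integrable_finsetSum _ fun i _ => hint2 i J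
      have i2 : Integrable (fun x => (∑ j ∈ range J, H j x) ^ 2 + 2 * ∑ i ∈ range J, H i x * H J x) μ :=
        i0.add (i1.const_mul 2)
      rw [integral_add i2 (hsq J), integral_add i0 (i1.const_mul 2), integral_const_mul,
        integral_finsetSum _ fun i _ => hint2 i J]
      have h3 : ∑ i ∈ range J, ∫ x, H i x * H J x ∂μ ≤ (m * K + C) * ww J :=
        (sum_le_sum fun i _ => le_abs_self _).trans (hrow J)
      have h4 := h1 J
      have h5 : (J : ℝ) * ((J : ℝ) + 1) ^ ((1 : ℝ) / 4) = J * ww J := rfl
      rw [h5] at ih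
      have h6 : ww J ≤ ww (J + 1) := ww_mono (Nat.le_succ J)
      have h7 : (((J + 1 : ℕ) : ℝ)) * ((((J + 1 : ℕ) : ℝ)) + 1) ^ ((1 : ℝ) / 4) = ((J : ℝ) + 1) * ww (J + 1) := by
        unfold ww
        push_cast
        rfl
      rw [h7]
      have hJ0 : (0 : ℝ) ≤ J := Nat.cast_nonneg J
      calc _ ≤ D * (J * ww J) + 2 * ((m * K + C) * ww J) + K * ww J := by linarith
        _ = D * (((J : ℝ) + 1) * ww J) := by rw [hD]; ring
        _ ≤ D * (((J : ℝ) + 1) * ww (J + 1)) := by gcongr

end Pool.Agent.H176M
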